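import Pool.Agent.NC3.Ret

open MeasureTheory Filter Topology Finset
open scoped InnerProductSpace ENNReal

namespace Pool.NC3

/-- double average -/
noncomputable def S2 (N : ℕ) (f : ℕ → ℕ → ℝ) : ℝ :=
  (N:ℝ)⁻¹ * ∑ i ∈ range N, ((N:ℝ)⁻¹ * ∑ j ∈ range N, f i j)

lemma S2_add (N : ℕ) (f g : ℕ → ℕ → ℝ) :
    S2 N (fun i j => f i j + g i j) = S2 N f + S2 N g := by
  unfold S2
  simp only [Finset.sum_add_distrib, mul_add]

lemma S2_mono (N : ℕ) {f g : ℕ → ℕ → ℝ} (h : ∀ i j, i < N → j < N → f i j ≤ g i j) :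
    S2 N f ≤ S2 N g := by
  unfold S2
  refine mul_le_mul_of_nonneg_left (Finset.sum_le_sum fun i hi => ?_) (by positivity)
  refine mul_le_mul_of_nonneg_left (Finset.sum_le_sum fun j hj => ?_) (by positivity)
  exact h i j (Finset.mem_range.mp hi) (Finset.mem_range.mp hj)

lemma S2_mul (N : ℕ) (c : ℝ) (a b : ℕ → ℝ) :
    S2 N (fun i j => c * (a i * b j)) =
      c * (((N:ℝ)⁻¹ * ∑ i ∈ range N, a i) * ((N:ℝ)⁻¹ * ∑ j ∈ range N, b j)) := by
  unfold S2
  simp only [Finset.mul_sum, Finset.sum_mul]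
  rw [Finset.sum_comm]
  refine Finset.sum_congr rfl fun i _ => Finset.sum_congr rfl fun j _ => ?_
  ring

variable {Ω : Type*} [MeasurableSpace Ω]

lemma small_set {κ : Measure Ω} [IsFiniteMeasure κ] {G : Ω → ℝ} (hGm : Measurable G)
    (hG0 : ∀ x, 0 ≤ G x) (hG1 : ∀ x, G x ≤ 1) {S : Set Ω} (hS : MeasurableSet S) {m l : ℝ}
    (hm : 0 < m) (hl : 0 ≤ l) (h1 : m * κ.real S ^ 2 ≤ ∫ x in S, G x ∂κ)
    (h2 : ∀ x ∈ S, G x ≤ l * m) : κ.real S ≤ l := by
  have h3 : ∫ x in S, G x ∂κ ≤ l * m * κ.real S := by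
    have h4 : ∫ x in S, G x ∂κ ≤ ∫ _x in S, l * m ∂κ := by
      refine setIntegral_mono_on ?_ (integrable_const _) hS h2
      refine (Integrable.of_bound hGm.aestronglyMeasurable 1 (Eventually.of_forall fun x => ?_))
      rw [Real.norm_eq_abs]
      exact abs_le.mpr ⟨by linarith [hG0 x], hG1 x⟩
    rw [setIntegral_const, smul_eq_mul] at h4
    linarith
  have h5 : 0 ≤ κ.real S := measureReal_nonneg
  by_contra hcon
  push Not at hcon
  have h6 : 0 < κ.real S := lt_of_le_of_lt hl hcon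
  have h7 : m * κ.real S ^ 2 ≤ l * m * κ.real S := h1.trans h3
  have h8 : l * m * κ.real S < m * κ.real S ^ 2 := by
    have : l * (m * κ.real S) < κ.real S * (m * κ.real S) :=
      mul_lt_mul_of_pos_right hcon (by positivity)
    nlinarith
  linarith

/-- the main lower bound -/
lemma main_lower {μ ν : Measure Ω} [IsProbabilityMeasure μ] [IsProbabilityMeasure ν]
    {Y A : Set Ω} (hY : MeasurableSet Y) (hA : MeasurableSet A) {y : ℝ} (hy0 : 0 < y)
    (hy1 : y ≤ 1) (hν : ∀ f : Ω → ℝ, ∫ x, f x ∂ν = y⁻¹ * ∫ x in Y, f x ∂μ)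
    {g G1 G2 : Ω → ℝ} (hgm : Measurable g) (hg0 : ∀ x, 0 ≤ g x) (hg1 : ∀ x, g x ≤ 1)
    (hG1m : Measurable G1) (hG10 : ∀ x, 0 ≤ G1 x) (hG11 : ∀ x, G1 x ≤ 1)
    (hG2m : Measurable G2) (hG20 : ∀ x, 0 ≤ G2 x) (hG21 : ∀ x, G2 x ≤ 1) {m : ℝ} (hm : 0 < m)
    (hgl : ∀ B' : Set Ω, MeasurableSet B' → B' ⊆ A → ν.real B' ^ 2 ≤ ∫ x in B', g x ∂ν)
    (hG1l : ∀ B' : Set Ω, MeasurableSet B' → B' ⊆ A → m * μ.real B' ^ 2 ≤ ∫ x in B', G1 x ∂μ)
    (hG2l : ∀ B' : Set Ω, MeasurableSet B' → B' ⊆ A → m * μ.real B' ^ 2 ≤ ∫ x in B', G2 x ∂μ) :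
    y⁻¹ * (μ.real (A ∩ Y) / 4) ^ 4 * m ^ 2 ≤
      ∫ x, A.indicator (fun _ => (1:ℝ)) x * g x * (G1 x * G2 x) ∂ν := by
  set l := μ.real (A ∩ Y) / 4 with hl
  have hl0 : 0 ≤ l := div_nonneg measureReal_nonneg (by norm_num)
  have hAY : MeasurableSet (A ∩ Y) := hA.inter hY
  set B1 : Set Ω := (A ∩ Y) ∩ {x | G1 x < l * m} with hB1
  set B2 : Set Ω := (A ∩ Y) ∩ {x | G2 x < l * m} with hB2
  set B3 : Set Ω := (A ∩ Y) ∩ {x | g x < l} with hB3
  have hB1m : MeasurableSet B1 := hAY.inter (measurableSet_lt hG1m measurable_const)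
  have hB2m : MeasurableSet B2 := hAY.inter (measurableSet_lt hG2m measurable_const)
  have hB3m : MeasurableSet B3 := hAY.inter (measurableSet_lt hgm measurable_const)
  have hB1l : μ.real B1 ≤ l := small_set hG1m hG10 hG11 hB1m hm hl0
    (hG1l B1 hB1m fun x hx => hx.1.1) fun x hx => le_of_lt hx.2
  have hB2l : μ.real B2 ≤ l := small_set hG2m hG20 hG21 hB2m hm hl0
    (hG2l B2 hB2m fun x hx => hx.1.1) fun x hx => le_of_lt hx.2
  have hB3l' : ν.real B3 ≤ l := small_set hgm hg0 hg1 hB3m one_pos hl0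
    (by rw [one_mul]; exact hgl B3 hB3m fun x hx => hx.1.1) fun x hx => by
      rw [mul_one]
      exact le_of_lt hx.2
  have hB3l : μ.real B3 ≤ l := by
    have h1 : ν.real B3 = y⁻¹ * μ.real B3 := by
      rw [← ind_integral (κ := ν) hB3m, hν, ← integral_indicator hY, ← ind_integral (κ := μ) hB3m]
      congr 1
      refine integral_congr_ae (Eventually.of_forall fun x => ?_)
      by_cases hx : x ∈ B3
      · have : x ∈ Y := hx.1.2
        simp [this]
      · by_cases hxY : x ∈ Y <;> simp [hx, hxY]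
    rw [h1, inv_mul_eq_div, div_le_iff₀ hy0] at hB3l'
    refine hB3l'.trans ?_
    calc l * y ≤ l * 1 := mul_le_mul_of_nonneg_left hy1 hl0
      _ = l := mul_one l
  set S : Set Ω := (A ∩ Y) \ (B1 ∪ B2 ∪ B3) with hS
  have hSm : MeasurableSet S := hAY.diff ((hB1m.union hB2m).union hB3m)
  have hSl : l ≤ μ.real S := by
    have h1 : μ.real (A ∩ Y) ≤ μ.real S + (μ.real B1 + μ.real B2 + μ.real B3) := by
      have h2 : A ∩ Y ⊆ S ∪ (B1 ∪ B2 ∪ B3) := by
        intro x hx
        by_cases h : x ∈ B1 ∪ B2 ∪ B3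
        · exact Or.inr h
        · exact Or.inl ⟨hx, h⟩
      refine (measureReal_mono h2 (measure_ne_top _ _)).trans ?_
      refine (measureReal_union_le _ _).trans ?_
      gcongr
      refine (measureReal_union_le _ _).trans ?_
      gcongr
      exact measureReal_union_le _ _
    have h3 : μ.real (A ∩ Y) = 4 * l := by
      rw [hl]
      ring
    linarith
  rw [hν]
  have hprod0 : ∀ x, 0 ≤ A.indicator (fun _ => (1:ℝ)) x * g x * (G1 x * G2 x) := fun x =>
    mul_nonneg (mul_nonneg (ind_nonneg _ _) (hg0 x)) (mul_nonneg (hG10 x) (hG20 x))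
  have hprod1 : ∀ x, A.indicator (fun _ => (1:ℝ)) x * g x * (G1 x * G2 x) ≤ 1 := fun x =>
    mul_le_one₀ (mul_le_one₀ (ind_le_one _ _) (hg0 x) (hg1 x)) (mul_nonneg (hG10 x) (hG20 x))
      (mul_le_one₀ (hG11 x) (hG20 x) (hG21 x))
  have hprodm : Measurable (fun x => A.indicator (fun _ => (1:ℝ)) x * g x * (G1 x * G2 x)) :=
    ((ind_meas hA).mul hgm).mul (hG1m.mul hG2m)
  rw [mul_assoc]
  refine mul_le_mul_of_nonneg_left ?_ (inv_nonneg.mpr hy0.le)
  rw [← ind_mul_integral hY]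
  have h2 : ∫ x, l ^ 3 * m ^ 2 * S.indicator (fun _ => (1:ℝ)) x ∂μ ≤
      ∫ x, Y.indicator (fun _ => (1:ℝ)) x *
        (A.indicator (fun _ => (1:ℝ)) x * g x * (G1 x * G2 x)) ∂μ := by
    refine integral_mono ?_ ?_ fun x => ?_
    · exact (integrable_of_abs_le (ind_meas hSm) (ind_abs S)).const_mul _
    · refine integrable_of_abs_le (C := 1) ((ind_meas hY).mul hprodm) fun x => ?_
      rw [abs_mul]
      exact mul_le_one₀ (ind_abs _ _) (abs_nonneg _)
        (abs_le.mpr ⟨by linarith [hprod0 x], hprod1 x⟩)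
    · show l ^ 3 * m ^ 2 * S.indicator (fun _ => (1:ℝ)) x ≤ Y.indicator (fun _ => (1:ℝ)) x *
        (A.indicator (fun _ => (1:ℝ)) x * g x * (G1 x * G2 x))
      by_cases hx : x ∈ S
      · have hxA : x ∈ A := hx.1.1
        have hxY : x ∈ Y := hx.1.2
        have hx1 : l * m ≤ G1 x := by
          by_contra hcon
          push Not at hcon
          exact hx.2 (Or.inl (Or.inl ⟨hx.1, hcon⟩))
        have hx2 : l * m ≤ G2 x := by
          by_contra hcon
          push Not at hcon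
          exact hx.2 (Or.inl (Or.inr ⟨hx.1, hcon⟩))
        have hx3 : l ≤ g x := by
          by_contra hcon
          push Not at hcon
          exact hx.2 (Or.inr ⟨hx.1, hcon⟩)
        simp only [hx, hxA, hxY, Set.indicator_of_mem, mul_one, one_mul]
        have hlm : 0 ≤ l * m := by positivity
        calc l ^ 3 * m ^ 2 = l * ((l * m) * (l * m)) := by ring
          _ ≤ g x * (G1 x * G2 x) :=
            mul_le_mul hx3 (mul_le_mul hx1 hx2 hlm (hG10 x)) (by positivity) (hg0 x)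
      · rw [Set.indicator_of_notMem hx, mul_zero]
        exact mul_nonneg (ind_nonneg _ _) (hprod0 x)
  refine le_trans ?_ h2
  rw [integral_const_mul, ind_integral hSm]
  calc l ^ 4 * m ^ 2 = l ^ 3 * m ^ 2 * l := by ring
    _ ≤ l ^ 3 * m ^ 2 * μ.real S := by gcongr

/-- the core recurrence theorem -/
theorem core {μ ν : Measure Ω} [IsProbabilityMeasure μ] [IsProbabilityMeasure ν]
    {Y A : Set Ω} (hY : MeasurableSet Y) (hA : MeasurableSet A) {y : ℝ} (hy0 : 0 < y)
    (hy1 : y ≤ 1) (hν : ∀ f : Ω → ℝ, ∫ x, f x ∂ν = y⁻¹ * ∫ x in Y, f x ∂μ)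
    {V P Q : Ω → Ω} (hV : Ergodic V ν) (hP : MeasurePreserving P μ μ)
    (hQ : MeasurePreserving Q μ μ) (p : ℕ) (hp : 0 < p) (I J : ℕ → ℕ)
    (E : ℕ → ℕ → ℕ → ℕ) (hE : ∀ N i k j, j < N → E N (i + k) j = E N i j + p * k)
    (s : ℕ → ℕ → ℕ)
    (hs : ∀ N i (φ : ℕ → ℝ), ∑ j ∈ range N, φ (E N i j) = ∑ j ∈ range N, φ (s N i + j))
    (hrel : ∀ N i j, j < N → E N i j = (I N + i) + (J N + j) ∨
      E N i j + (J N + j) = 2 * (I N + i)) (ε : ℝ) (hε : 0 < ε) :
    ∃ N i j, i < N ∧ j < N ∧ y⁻¹ * (μ.real (A ∩ Y) / 4) ^ 4 - ε <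
      ∫ x, A.indicator (fun _ => (1:ℝ)) x * A.indicator (fun _ => (1:ℝ)) (P^[I N + i] x) *
        A.indicator (fun _ => (1:ℝ)) (Q^[J N + j] x) *
        A.indicator (fun _ => (1:ℝ)) (V^[E N i j] x) ∂ν := by
  by_contra hcon
  push Not at hcon
  set c := y⁻¹ * (μ.real (A ∩ Y) / 4) ^ 4 with hc
  set F : Ω → ℝ := A.indicator (fun _ => (1:ℝ)) with hF
  have hFm : Measurable F := ind_meas hA
  have hF0 : ∀ x, 0 ≤ F x := ind_nonneg A
  have hF1 : ∀ x, F x ≤ 1 := ind_le_one A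
  have hFabs : ∀ x, |F x| ≤ 1 := ind_abs A
  obtain ⟨g, hgm, hg0, hg1, hgl, hgc, hgB⟩ := kronecker hV hA
  obtain ⟨B, hBm, hBν, hB⟩ := hgB (ε / 2) (by positivity)
  have hVm : ∀ n, Measurable (V^[n]) := fun n => (hV.toMeasurePreserving.iterate n).measurable
  have hPm : ∀ n, Measurable (P^[n]) := fun n => (hP.iterate n).measurable
  have hQm : ∀ n, Measurable (Q^[n]) := fun n => (hQ.iterate n).measurable
  set w : ℕ → ℝ := fun a => ν.real (B ∩ V^[a] ⁻¹' B) with hw
  have hw0 : ∀ a, 0 ≤ w a := fun a => measureReal_nonneg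
  have hw1 : ∀ a, w a ≤ 1 := fun a => measureReal_le_one
  set m := ν.real B ^ 2 with hm
  have hm0 : 0 < m := by
    have : 0 < ν.real B := by
      rw [measureReal_def]
      exact ENNReal.toReal_pos hBν (measure_ne_top _ _)
    positivity
  have hmI := mean_weights hV hBm I
  have hmJ := mean_weights hV hBm J
  obtain ⟨G1, hG1m, hG10, hG11, hG1c, hG1l⟩ := weighted_returns hV.toMeasurePreserving hP hBm hA
  obtain ⟨G2, hG2m, hG20, hG21, hG2c, hG2l⟩ := weighted_returns hV.toMeasurePreserving hQ hBm hA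
  have hlow := main_lower (μ := μ) (ν := ν) hY hA hy0 hy1 hν hgm hg0 hg1 hG1m hG10 hG11 hG2m hG20
    hG21 hm0 hgl hG1l hG2l
  set L := ∫ x, F x * g x * (G1 x * G2 x) ∂ν with hL
  -- the functions
  set v : ℕ → ℕ → Ω → ℝ := fun N i x => w (I N + i) * F (P^[I N + i] x) * F x with hv
  set u : ℕ → ℕ → Ω → ℝ := fun N j x => w (J N + j) * F (Q^[J N + j] x) with hu
  set h : Ω → ℝ := fun x => F x - g x with hh
  have hhm : Measurable h := hFm.sub hgm
  have hhb : ∀ x, |h x| ≤ 1 := fun x =>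
    abs_le.mpr ⟨by linarith [hF0 x, hg1 x], by linarith [hF1 x, hg0 x]⟩
  have hvm : ∀ N i, Measurable (v N i) := fun N i =>
    (measurable_const.mul (hFm.comp (hPm _))).mul hFm
  have hum : ∀ N j, Measurable (u N j) := fun N j =>
    measurable_const.mul (hFm.comp (hQm _))
  have hu0 : ∀ N j x, 0 ≤ u N j x := fun N j x => mul_nonneg (hw0 _) (hF0 _)
  have hv0 : ∀ N i x, 0 ≤ v N i x := fun N i x =>
    mul_nonneg (mul_nonneg (hw0 _) (hF0 _)) (hF0 _)
  have hvw : ∀ N i x, v N i x ≤ w (I N + i) := by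
    intro N i x
    calc w (I N + i) * F (P^[I N + i] x) * F x ≤ w (I N + i) * F (P^[I N + i] x) * 1 :=
          mul_le_mul_of_nonneg_left (hF1 _) (mul_nonneg (hw0 _) (hF0 _))
      _ = w (I N + i) * F (P^[I N + i] x) := mul_one _
      _ ≤ w (I N + i) * 1 := mul_le_mul_of_nonneg_left (hF1 _) (hw0 _)
      _ = w (I N + i) := mul_one _
  have huw : ∀ N j x, u N j x ≤ w (J N + j) := by
    intro N j x
    calc w (J N + j) * F (Q^[J N + j] x) ≤ w (J N + j) * 1 :=
          mul_le_mul_of_nonneg_left (hF1 _) (hw0 _)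
      _ = w (J N + j) := mul_one _
  have hv1 : ∀ N i x, |v N i x| ≤ 1 := fun N i x =>
    abs_le.mpr ⟨by linarith [hv0 N i x], (hvw N i x).trans (hw1 _)⟩
  have hu1 : ∀ N j x, |u N j x| ≤ 1 := fun N j x =>
    abs_le.mpr ⟨by linarith [hu0 N j x], (huw N j x).trans (hw1 _)⟩
  have hkill := kill hV hhm hhb p (hgc p hp) E hE s hs v u hvm hv1 hum hu1
  -- splitting
  have habs3 : ∀ a b c : ℝ, |a| ≤ 1 → |b| ≤ 1 → |c| ≤ 1 → |a * b * c| ≤ 1 := by
    intro a b c ha hb hc
    rw [abs_mul, abs_mul]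
    have := mul_le_one₀ ha (abs_nonneg b) hb
    exact mul_le_one₀ this (abs_nonneg c) hc
  have hgabs : ∀ x, |g x| ≤ 1 := fun x => abs_le.mpr ⟨by linarith [hg0 x], hg1 x⟩
  have hgdiff : ∀ n x, |g (V^[n] x) - g x| ≤ 1 := fun n x =>
    abs_le.mpr ⟨by linarith [hg0 (V^[n] x), hg1 x], by linarith [hg1 (V^[n] x), hg0 x]⟩
  have hgdm : ∀ n, Measurable (fun x => g (V^[n] x) - g x) := fun n =>
    (hgm.comp (hVm n)).sub hgm
  have hsplit : ∀ N i j, w (I N + i) * w (J N + j) *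
      ∫ x, F x * F (P^[I N + i] x) * F (Q^[J N + j] x) * F (V^[E N i j] x) ∂ν
      = (∫ x, v N i x * u N j x * h (V^[E N i j] x) ∂ν)
        + ((∫ x, v N i x * u N j x * (g (V^[E N i j] x) - g x) ∂ν)
        + ∫ x, v N i x * u N j x * g x ∂ν) := by
    intro N i j
    have i1 : Integrable (fun x => v N i x * u N j x * h (V^[E N i j] x)) ν :=
      integrable_of_abs_le (C := 1) (((hvm N i).mul (hum N j)).mul (hhm.comp (hVm _)))
        fun x => habs3 _ _ _ (hv1 N i x) (hu1 N j x) (hhb _)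
    have i3 : Integrable (fun x => v N i x * u N j x * g x) ν :=
      integrable_of_abs_le (C := 1) (((hvm N i).mul (hum N j)).mul hgm)
        fun x => habs3 _ _ _ (hv1 N i x) (hu1 N j x) (hgabs _)
    have i2 : Integrable (fun x => v N i x * u N j x * (g (V^[E N i j] x) - g x)) ν :=
      integrable_of_abs_le (C := 1) (((hvm N i).mul (hum N j)).mul (hgdm _))
        fun x => habs3 _ _ _ (hv1 N i x) (hu1 N j x) (hgdiff _ x)
    have h23 := integral_add i2 i3
    have h123 := integral_add i1 (i2.add i3)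
    rw [← integral_const_mul]
    have e1 : ∫ x, (v N i x * u N j x * (g (V^[E N i j] x) - g x) + v N i x * u N j x * g x) ∂ν
        = (∫ x, v N i x * u N j x * (g (V^[E N i j] x) - g x) ∂ν)
          + ∫ x, v N i x * u N j x * g x ∂ν := h23
    rw [← e1]
    have e2 : ∫ x, (v N i x * u N j x * h (V^[E N i j] x) +
        (v N i x * u N j x * (g (V^[E N i j] x) - g x) + v N i x * u N j x * g x)) ∂ν
        = (∫ x, v N i x * u N j x * h (V^[E N i j] x) ∂ν) +
          ∫ x, (v N i x * u N j x * (g (V^[E N i j] x) - g x) + v N i x * u N j x * g x) ∂ν :=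
      h123
    rw [← e2]
    refine integral_congr_ae (Eventually.of_forall fun x => ?_)
    simp only [hv, hu, hh]
    ring
  -- the second term
  have hsecond : ∀ N i j, j < N → -(ε / 2) * (w (I N + i) * w (J N + j)) ≤
      ∫ x, v N i x * u N j x * (g (V^[E N i j] x) - g x) ∂ν := by
    intro N i j hj
    have hgd : Integrable (fun x => |g (V^[E N i j] x) - g x|) ν :=
      (integrable_of_abs_le (C := 1) (hgdm _) fun x => hgdiff _ x).abs
    have h1 : |∫ x, v N i x * u N j x * (g (V^[E N i j] x) - g x) ∂ν| ≤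
        (w (I N + i) * w (J N + j)) * ∫ x, |g (V^[E N i j] x) - g x| ∂ν := by
      rw [← integral_const_mul]
      refine (abs_integral_le_integral_abs).trans ?_
      refine integral_mono ?_ (hgd.const_mul _) fun x => ?_
      · exact (integrable_of_abs_le (C := 1) (((hvm N i).mul (hum N j)).mul (hgdm _))
          fun x => habs3 _ _ _ (hv1 N i x) (hu1 N j x) (hgdiff _ x)).abs
      · show |v N i x * u N j x * (g (V^[E N i j] x) - g x)| ≤
          w (I N + i) * w (J N + j) * |g (V^[E N i j] x) - g x|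
        rw [abs_mul, abs_of_nonneg (mul_nonneg (hv0 N i x) (hu0 N j x))]
        refine mul_le_mul_of_nonneg_right ?_ (abs_nonneg _)
        exact mul_le_mul (hvw N i x) (huw N j x) (hu0 N j x) (hw0 _)
    have h2 : (w (I N + i) * w (J N + j)) * ∫ x, |g (V^[E N i j] x) - g x| ∂ν ≤
        (w (I N + i) * w (J N + j)) * (ε / 2) := by
      by_cases h3 : ν (B ∩ V^[I N + i] ⁻¹' B) = 0
      · have : w (I N + i) = 0 := by
          show ν.real (B ∩ V^[I N + i] ⁻¹' B) = 0
          rw [measureReal_def, h3]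
          simp
        rw [this]
        simp
      · by_cases h4 : ν (B ∩ V^[J N + j] ⁻¹' B) = 0
        · have : w (J N + j) = 0 := by
            show ν.real (B ∩ V^[J N + j] ⁻¹' B) = 0
            rw [measureReal_def, h4]
            simp
          rw [this]
          simp
        · refine mul_le_mul_of_nonneg_left ?_ (mul_nonneg (hw0 _) (hw0 _))
          exact hB _ _ _ (hrel N i j hj) h3 h4
    have h3 := neg_abs_le (∫ x, v N i x * u N j x * (g (V^[E N i j] x) - g x) ∂ν)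
    linarith
  -- averages
  set aI : ℕ → ℝ := fun N => (N:ℝ)⁻¹ * ∑ i ∈ range N, w (I N + i) with haI
  set aJ : ℕ → ℝ := fun N => (N:ℝ)⁻¹ * ∑ j ∈ range N, w (J N + j) with haJ
  have hWlim : Tendsto (fun N => aI N * aJ N) atTop (𝓝 (m * m)) := hmI.mul hmJ
  -- the third term
  set P1 : ℕ → Ω → ℝ := fun N x => (N:ℝ)⁻¹ * ∑ i ∈ range N, w (I N + i) * F (P^[I N + i] x) with hP1
  set Q1 : ℕ → Ω → ℝ := fun N x => (N:ℝ)⁻¹ * ∑ j ∈ range N, w (J N + j) * F (Q^[J N + j] x) with hQ1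
  have hP1m : ∀ N, Measurable (P1 N) := fun N => measurable_const.mul
    (Finset.measurable_sum _ fun i _ => measurable_const.mul (hFm.comp (hPm _)))
  have hQ1m : ∀ N, Measurable (Q1 N) := fun N => measurable_const.mul
    (Finset.measurable_sum _ fun i _ => measurable_const.mul (hFm.comp (hQm _)))
  have hwF : ∀ a x, 0 ≤ w a * F x ∧ w a * F x ≤ 1 := fun a x =>
    ⟨mul_nonneg (hw0 _) (hF0 _), mul_le_one₀ (hw1 _) (hF0 _) (hF1 _)⟩
  have hP1b : ∀ N x, |P1 N x| ≤ 1 := by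
    intro N x
    rcases Nat.eq_zero_or_pos N with h0 | h0
    · simp [hP1, h0]
    · have := avg_mem (a := 0) (b := 1) h0 (fun i => (hwF (I N + i) (P^[I N + i] x)).1)
        (fun i => (hwF (I N + i) (P^[I N + i] x)).2)
      exact abs_le.mpr ⟨by linarith [this.1], this.2⟩
  have hQ1b : ∀ N x, |Q1 N x| ≤ 1 := by
    intro N x
    rcases Nat.eq_zero_or_pos N with h0 | h0
    · simp [hQ1, h0]
    · have := avg_mem (a := 0) (b := 1) h0 (fun i => (hwF (J N + i) (Q^[J N + i] x)).1)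
        (fun i => (hwF (J N + i) (Q^[J N + i] x)).2)
      exact abs_le.mpr ⟨by linarith [this.1], this.2⟩
  have hT : ∀ N, S2 N (fun i j => ∫ x, v N i x * u N j x * g x ∂ν)
      = ∫ x, F x * g x * (P1 N x * Q1 N x) ∂ν := by
    intro N
    have i3 : ∀ i j, Integrable (fun x => v N i x * u N j x * g x) ν := fun i j =>
      integrable_of_abs_le (C := 1) (((hvm N i).mul (hum N j)).mul hgm)
        fun x => habs3 _ _ _ (hv1 N i x) (hu1 N j x) (hgabs _)
    unfold S2
    have e1 : ∀ i, (N:ℝ)⁻¹ * ∑ j ∈ range N, ∫ x, v N i x * u N j x * g x ∂ν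
        = ∫ x, (N:ℝ)⁻¹ * ∑ j ∈ range N, v N i x * u N j x * g x ∂ν := by
      intro i
      rw [integral_const_mul, integral_finsetSum _ fun j _ => i3 i j]
    simp_rw [e1]
    rw [← integral_finsetSum _ fun i _ =>
      (integrable_finsetSum _ fun j _ => i3 i j).const_mul _, ← integral_const_mul]
    refine integral_congr_ae (Eventually.of_forall fun x => ?_)
    simp only [hv, hu, hP1, hQ1, Finset.mul_sum, Finset.sum_mul]
    rw [Finset.sum_comm]
    refine Finset.sum_congr rfl fun i _ => Finset.sum_congr rfl fun j _ => ?_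
    ring
  have hνle : ∀ f : Ω → ℝ, (∀ x, 0 ≤ f x) → Integrable f μ → ∫ x, f x ∂ν ≤ y⁻¹ * ∫ x, f x ∂μ := by
    intro f hf hfi
    rw [hν]
    refine mul_le_mul_of_nonneg_left ?_ (by positivity)
    exact setIntegral_le_integral hfi (Eventually.of_forall hf)
  have hTlim : Tendsto (fun N => ∫ x, F x * g x * (P1 N x * Q1 N x) ∂ν) atTop (𝓝 L) := by
    rw [tendsto_iff_norm_sub_tendsto_zero]
    have hb1 := (hG1c I).const_mul (y⁻¹)
    have hb2 := (hG2c J).const_mul (y⁻¹)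
    have hb := hb1.add hb2
    rw [mul_zero, add_zero] at hb
    refine squeeze_zero (fun _ => norm_nonneg _) (fun N => ?_) hb
    have hG1i : ∀ {κ : Measure Ω} [IsProbabilityMeasure κ], Integrable G1 κ := fun {κ} _ =>
      integrable_of_abs_le hG1m (C := 1) fun x => abs_le.mpr ⟨by linarith [hG10 x], hG11 x⟩
    have hG2i : ∀ {κ : Measure Ω} [IsProbabilityMeasure κ], Integrable G2 κ := fun {κ} _ =>
      integrable_of_abs_le hG2m (C := 1) fun x => abs_le.mpr ⟨by linarith [hG20 x], hG21 x⟩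
    have hP1i : ∀ {κ : Measure Ω} [IsProbabilityMeasure κ], Integrable (P1 N) κ := fun {κ} _ =>
      integrable_of_abs_le (hP1m N) (C := 1) (hP1b N)
    have hQ1i : ∀ {κ : Measure Ω} [IsProbabilityMeasure κ], Integrable (Q1 N) κ := fun {κ} _ =>
      integrable_of_abs_le (hQ1m N) (C := 1) (hQ1b N)
    have j1 : Integrable (fun x => F x * g x * (P1 N x * Q1 N x)) ν := by
      refine integrable_of_abs_le (C := 1) ((hFm.mul hgm).mul ((hP1m N).mul (hQ1m N)))
        fun x => ?_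
      refine habs3 _ _ _ (hFabs x) (hgabs x) ?_
      rw [abs_mul]
      exact mul_le_one₀ (hP1b N x) (abs_nonneg _) (hQ1b N x)
    have j2 : Integrable (fun x => F x * g x * (G1 x * G2 x)) ν := by
      refine integrable_of_abs_le (C := 1) ((hFm.mul hgm).mul (hG1m.mul hG2m))
        fun x => ?_
      refine habs3 _ _ _ (hFabs x) (hgabs x) ?_
      rw [abs_mul]
      exact mul_le_one₀ (abs_le.mpr ⟨by linarith [hG10 x], hG11 x⟩) (abs_nonneg _)
        (abs_le.mpr ⟨by linarith [hG20 x], hG21 x⟩)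
    rw [hL, ← integral_sub j1 j2, Real.norm_eq_abs]
    have e1 : |∫ x, (F x * g x * (P1 N x * Q1 N x) - F x * g x * (G1 x * G2 x)) ∂ν| ≤
        ∫ x, (|P1 N x - G1 x| + |Q1 N x - G2 x|) ∂ν := by
      refine (abs_integral_le_integral_abs).trans ?_
      refine integral_mono (j1.sub j2).abs
        ((hP1i.sub hG1i).abs.add (hQ1i.sub hG2i).abs) fun x => ?_
      show |F x * g x * (P1 N x * Q1 N x) - F x * g x * (G1 x * G2 x)| ≤
        |P1 N x - G1 x| + |Q1 N x - G2 x|
      have e2 : F x * g x * (P1 N x * Q1 N x) - F x * g x * (G1 x * G2 x)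
          = F x * g x * ((P1 N x - G1 x) * Q1 N x + G1 x * (Q1 N x - G2 x)) := by ring
      have e3 : |F x * g x| ≤ 1 := by
        rw [abs_mul]
        exact mul_le_one₀ (hFabs x) (abs_nonneg _) (hgabs x)
      have e4 : |(P1 N x - G1 x) * Q1 N x + G1 x * (Q1 N x - G2 x)| ≤
          |P1 N x - G1 x| + |Q1 N x - G2 x| := by
        refine (abs_add_le _ _).trans (add_le_add ?_ ?_)
        · rw [abs_mul]
          calc |P1 N x - G1 x| * |Q1 N x| ≤ |P1 N x - G1 x| * 1 :=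
                mul_le_mul_of_nonneg_left (hQ1b N x) (abs_nonneg _)
            _ = _ := mul_one _
        · rw [abs_mul]
          calc |G1 x| * |Q1 N x - G2 x| ≤ 1 * |Q1 N x - G2 x| :=
                mul_le_mul_of_nonneg_right (abs_le.mpr ⟨by linarith [hG10 x], hG11 x⟩)
                  (abs_nonneg _)
            _ = _ := one_mul _
      rw [e2, abs_mul]
      calc |F x * g x| * |(P1 N x - G1 x) * Q1 N x + G1 x * (Q1 N x - G2 x)|
          ≤ 1 * (|P1 N x - G1 x| + |Q1 N x - G2 x|) :=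
            mul_le_mul e3 e4 (abs_nonneg _) zero_le_one
        _ = _ := one_mul _
    refine e1.trans ?_
    have e5 : ∫ x, (|P1 N x - G1 x| + |Q1 N x - G2 x|) ∂ν
        = ∫ x, |P1 N x - G1 x| ∂ν + ∫ x, |Q1 N x - G2 x| ∂ν :=
      integral_add (hP1i.sub hG1i).abs (hQ1i.sub hG2i).abs
    rw [e5]
    exact add_le_add (hνle _ (fun x => abs_nonneg _) (hP1i.sub hG1i).abs)
      (hνle _ (fun x => abs_nonneg _) (hQ1i.sub hG2i).abs)
  -- conclusion
  have hkey : ∀ N : ℕ, S2 N (fun i j => ∫ x, v N i x * u N j x * h (V^[E N i j] x) ∂ν)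
      + (-(ε / 2) * (aI N * aJ N) + ∫ x, F x * g x * (P1 N x * Q1 N x) ∂ν)
      ≤ (c - ε) * (aI N * aJ N) := by
    intro N
    rw [← hT N, haI, haJ, ← S2_mul, ← S2_mul, ← S2_add, ← S2_add]
    refine S2_mono N fun i j hi hj => ?_
    have h1 := hsecond N i j hj
    have h2 : (w (I N + i) * w (J N + j)) *
      ∫ x, F x * F (P^[I N + i] x) * F (Q^[J N + j] x) * F (V^[E N i j] x) ∂ν
        ≤ (w (I N + i) * w (J N + j)) * (c - ε) :=
      mul_le_mul_of_nonneg_left (hcon N i j hi hj) (mul_nonneg (hw0 _) (hw0 _))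
    rw [hsplit N i j] at h2
    linarith
  have hfin : 0 + (-(ε / 2) * (m * m) + L) ≤ (c - ε) * (m * m) := by
    refine le_of_tendsto_of_tendsto' (hkill.add ((hWlim.const_mul (-(ε / 2))).add hTlim))
      (hWlim.const_mul (c - ε)) hkey
  have hmm : 0 < m * m := by positivity
  nlinarith

end Pool.NC3
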