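import Pool.Agent.NC3.Kron

open MeasureTheory Filter Topology Finset
open scoped InnerProductSpace ENNReal

namespace Pool.NC3

variable {Ω : Type*} [MeasurableSpace Ω] {ν : Measure Ω} [IsProbabilityMeasure ν]

/-- averages of the return weights of a set -/
lemma mean_weights {V : Ω → Ω} (hV : Ergodic V ν) {B : Set Ω} (hB : MeasurableSet B)
    (s : ℕ → ℕ) :
    Tendsto (fun N : ℕ => (N:ℝ)⁻¹ * ∑ a ∈ range N, ν.real (B ∩ V^[s N + a] ⁻¹' B)) atTop
      (𝓝 (ν.real B ^ 2)) := by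
  have hFm : Measurable (B.indicator (fun _ => (1:ℝ))) := measurable_const.indicator hB
  have hF1 : ∀ x, |B.indicator (fun _ => (1:ℝ)) x| ≤ 1 := by
    intro x
    by_cases hx : x ∈ B <;> simp [hx]
  have h1 := mean_ergodic_ergodic hV hFm hF1 s
  have hint : ∫ y, B.indicator (fun _ => (1:ℝ)) y ∂ν = ν.real B := by
    rw [integral_indicator_const _ hB]
    simp
  rw [hint] at h1
  rw [tendsto_iff_norm_sub_tendsto_zero]
  refine squeeze_zero (fun _ => norm_nonneg _) (fun N => ?_) h1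
  have hVm : ∀ n, Measurable (V^[n]) := fun n => (hV.toMeasurePreserving.iterate n).measurable
  have h2 : ∀ n, ν.real (B ∩ V^[n] ⁻¹' B)
      = ∫ x, B.indicator (fun _ => (1:ℝ)) x * B.indicator (fun _ => (1:ℝ)) (V^[n] x) ∂ν := by
    intro n
    have h3 : ∀ x, B.indicator (fun _ => (1:ℝ)) x * B.indicator (fun _ => (1:ℝ)) (V^[n] x)
        = (B ∩ V^[n] ⁻¹' B).indicator (fun _ => (1:ℝ)) x := by
      intro x
      by_cases hx : x ∈ B
      · by_cases hx2 : V^[n] x ∈ B
        · have : x ∈ B ∩ V^[n] ⁻¹' B := ⟨hx, hx2⟩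
          simp [hx, hx2]
        · have : x ∉ B ∩ V^[n] ⁻¹' B := fun h => hx2 h.2
          simp [hx2]
      · have : x ∉ B ∩ V^[n] ⁻¹' B := fun h => hx h.1
        simp [hx]
    simp_rw [h3]
    rw [integral_indicator_const _ (hB.inter (hVm n hB))]
    simp
  have hcomp : ∀ n, Integrable (fun x => B.indicator (fun _ => (1:ℝ)) (V^[n] x)) ν := fun n =>
    integrable_of_abs_le (hFm.comp (hVm n)) fun x => hF1 _
  have hprod : ∀ n, Integrable (fun x => B.indicator (fun _ => (1:ℝ)) x *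
      B.indicator (fun _ => (1:ℝ)) (V^[n] x)) ν := by
    intro n
    refine integrable_of_abs_le (C := 1) (hFm.mul (hFm.comp (hVm n))) fun x => ?_
    rw [abs_mul]
    exact mul_le_one₀ (hF1 _) (abs_nonneg _) (hF1 _)
  have havg : Integrable (fun x => (N:ℝ)⁻¹ * ∑ i ∈ range N,
      B.indicator (fun _ => (1:ℝ)) (V^[s N + i] x)) ν :=
    Integrable.const_mul (integrable_finsetSum _ fun i _ => hcomp _) _
  have h4 : (N:ℝ)⁻¹ * ∑ a ∈ range N, ν.real (B ∩ V^[s N + a] ⁻¹' B) - ν.real B ^ 2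
      = ∫ x, B.indicator (fun _ => (1:ℝ)) x * ((N:ℝ)⁻¹ * ∑ i ∈ range N,
        B.indicator (fun _ => (1:ℝ)) (V^[s N + i] x) - ν.real B) ∂ν := by
    have h5 : ∀ x, B.indicator (fun _ => (1:ℝ)) x * ((N:ℝ)⁻¹ * ∑ i ∈ range N,
        B.indicator (fun _ => (1:ℝ)) (V^[s N + i] x) - ν.real B)
        = (N:ℝ)⁻¹ * ∑ i ∈ range N, (B.indicator (fun _ => (1:ℝ)) x *
        B.indicator (fun _ => (1:ℝ)) (V^[s N + i] x))
          - ν.real B * B.indicator (fun _ => (1:ℝ)) x := by
      intro x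
      rw [← Finset.mul_sum]
      ring
    simp_rw [h5]
    rw [integral_sub, integral_const_mul, integral_const_mul, hint,
      integral_finsetSum _ fun i _ => hprod _]
    · simp_rw [h2]
      ring
    · exact Integrable.const_mul (integrable_finsetSum _ fun i _ => hprod _) _
    · exact (integrable_of_abs_le hFm hF1).const_mul _
  rw [h4, Real.norm_eq_abs]
  refine (abs_integral_le_integral_abs).trans ?_
  refine integral_mono ?_ (havg.sub (integrable_const _)).abs fun x => ?_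
  · refine Integrable.abs ?_
    refine (havg.sub (integrable_const _)).bdd_mul (c := 1) hFm.aestronglyMeasurable
      (Eventually.of_forall fun x => ?_)
    rw [Real.norm_eq_abs]
    exact hF1 x
  · show |B.indicator (fun _ => (1:ℝ)) x * ((N:ℝ)⁻¹ * ∑ i ∈ range N,
        B.indicator (fun _ => (1:ℝ)) (V^[s N + i] x) - ν.real B)| ≤ _
    rw [abs_mul]
    exact (mul_le_mul_of_nonneg_right (hF1 x) (abs_nonneg _)).trans (le_of_eq (one_mul _))

omit [IsProbabilityMeasure ν] in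
/-- closed span of the eigenvectors -/
noncomputable def eigSpan {V : Ω → Ω} (hV : Ergodic V ν) : Submodule ℂ (Lp ℂ 2 ν) :=
  (Submodule.span ℂ {φ : Lp ℂ 2 ν | ∃ z : ℂ,
    koop ℂ hV.toMeasurePreserving φ = z • φ}).topologicalClosure

lemma AP_of_mem {V : Ω → Ω} (hV : Ergodic V ν) {x : Lp ℂ 2 ν} (hx : x ∈ eigSpan hV) :
    AP hV.toMeasurePreserving x := by
  have h1 : ∀ y ∈ Submodule.span ℂ {φ : Lp ℂ 2 ν | ∃ z : ℂ,
    koop ℂ hV.toMeasurePreserving φ = z • φ}, AP hV.toMeasurePreserving y := by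
    intro y hy
    induction hy using Submodule.span_induction with
    | mem φ h =>
      obtain ⟨z, hz⟩ := h
      exact AP.eigen hV z φ hz
    | zero => exact AP.zero _
    | add a b _ _ ha hb => exact ha.add hb
    | smul c a _ ha => exact ha.smul c
  refine AP.closed fun ε hε => ?_
  have h2 : x ∈ closure ((Submodule.span ℂ {φ : Lp ℂ 2 ν | ∃ z : ℂ,
    koop ℂ hV.toMeasurePreserving φ = z • φ} : Submodule ℂ (Lp ℂ 2 ν)) : Set (Lp ℂ 2 ν)) := by
    rw [← Submodule.topologicalClosure_coe]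
    exact hx
  obtain ⟨y, hy, hxy⟩ := Metric.mem_closure_iff.mp h2 ε hε
  refine ⟨y, h1 y hy, ?_⟩
  rw [← dist_eq_norm]
  exact hxy.le

omit [IsProbabilityMeasure ν] in
lemma eig_mem {V : Ω → Ω} (hV : Ergodic V ν) {φ : Lp ℂ 2 ν} {z : ℂ}
    (h : koop ℂ hV.toMeasurePreserving φ = z • φ) : φ ∈ eigSpan hV :=
  Submodule.le_topologicalClosure _ (Submodule.subset_span ⟨z, h⟩)

omit [IsProbabilityMeasure ν] in
instance {V : Ω → Ω} (hV : Ergodic V ν) : CompleteSpace (eigSpan hV) :=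
  (Submodule.isClosed_topologicalClosure _).completeSpace_coe

omit [IsProbabilityMeasure ν] in
/-- the Kronecker part -/
noncomputable def kpart {V : Ω → Ω} (hV : Ergodic V ν) (x : Lp ℂ 2 ν) : Lp ℂ 2 ν :=
  (eigSpan hV).starProjection x

omit [IsProbabilityMeasure ν] in
lemma kpart_add {V : Ω → Ω} (hV : Ergodic V ν) (x y : Lp ℂ 2 ν) :
    kpart hV (x + y) = kpart hV x + kpart hV y := map_add _ x y

omit [IsProbabilityMeasure ν] in
lemma kpart_mem {V : Ω → Ω} (hV : Ergodic V ν) (x : Lp ℂ 2 ν) :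
    kpart hV x ∈ eigSpan hV := Submodule.starProjection_apply_mem _ _

omit [IsProbabilityMeasure ν] in
lemma kpart_orth {V : Ω → Ω} (hV : Ergodic V ν) (x : Lp ℂ 2 ν) {y : Lp ℂ 2 ν}
    (hy : y ∈ eigSpan hV) : ⟪y, x - kpart hV x⟫_ℂ = 0 :=
  (Submodule.mem_orthogonal _ _).mp ((eigSpan hV).sub_starProjection_mem_orthogonal x) y hy

omit [IsProbabilityMeasure ν] in
lemma kpart_corr {V : Ω → Ω} (hV : Ergodic V ν) (x : Lp ℂ 2 ν) (p : ℕ) (hp : 0 < p) :
    Tendsto (fun K : ℕ => (K:ℝ)⁻¹ * ∑ d ∈ range K, ‖⟪x - kpart hV x,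
      (⇑(koop ℂ hV.toMeasurePreserving))^[p * d] (x - kpart hV x)⟫_ℂ‖) atTop (𝓝 0) := by
  have h1 := kvn (koop ℂ hV.toMeasurePreserving) (x - kpart hV x)
    (fun z φ hφ => kpart_orth hV x (eig_mem hV hφ))
  have h2 := mean_of_sq_mean _ h1 p hp
  simpa only [abs_norm] using h2

lemma real_mem {F : Ω → ℝ} (hF : Measurable F) (h1 : ∀ x, |F x| ≤ 1) :
    MemLp (fun x => (F x : ℂ)) 2 ν :=
  memLp_of_bdd (Complex.measurable_ofReal.comp hF) 1 fun x => by simpa using h1 x

/-- the Kronecker part of a function with values in `[0,1]` has values in `[0,1]` -/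
theorem kpart_real {V : Ω → Ω} (hV : Ergodic V ν) {F : Ω → ℝ} (hF : Measurable F)
    (h0 : ∀ x, 0 ≤ F x) (h1 : ∀ x, F x ≤ 1)
    (hmem : MemLp (fun x => (F x : ℂ)) 2 ν) :
    ∃ g : Ω → ℝ, Measurable g ∧ (∀ x, 0 ≤ g x) ∧ (∀ x, g x ≤ 1) ∧
      (kpart hV (hmem.toLp _) : Ω → ℂ) =ᵐ[ν] fun x => (g x : ℂ) := by
  set f := hmem.toLp _ with hf
  set y := kpart hV f with hy
  set h := f - y with hh
  set U := koop ℂ hV.toMeasurePreserving with hU
  have hcorr : Tendsto (fun K : ℕ => (K:ℝ)⁻¹ * ∑ d ∈ range K, ‖⟪h, (⇑U)^[d] h⟫_ℂ‖)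
      atTop (𝓝 0) := by
    have := kpart_corr hV f 1 one_pos
    simpa only [one_mul] using this
  have hAP := AP_of_mem hV (kpart_mem hV f)
  have hVm : ∀ n, Measurable (V^[n]) := fun n => (hV.toMeasurePreserving.iterate n).measurable
  have hFabs : ∀ x, |F x| ≤ 1 := fun x => abs_le.mpr ⟨by linarith [h0 x], h1 x⟩
  have hym : Measurable (y : Ω → ℂ) := (Lp.stronglyMeasurable y).measurable
  have hyint : Integrable (y : Ω → ℂ) ν := (Lp.memLp y).integrable (by norm_num)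
  -- approximation
  have happ : ∀ ε : ℝ, 0 < ε → ∃ R : Ω → ℝ, Measurable R ∧ (∀ x, 0 ≤ R x) ∧ (∀ x, R x ≤ 1) ∧
      ∫ x, ‖(R x : ℂ) - y x‖ ∂ν ≤ ε := by
    intro ε hε
    obtain ⟨B, -, hBm, hBν, hB⟩ := hAP Set.univ MeasurableSet.univ (by simp) (ε / 2)
      (by positivity)
    set w : ℕ → ℝ := fun a => ν.real (B ∩ V^[a] ⁻¹' B) with hw
    have hw0 : ∀ a, 0 ≤ w a := fun a => measureReal_nonneg
    have hw1 : ∀ a, w a ≤ 1 := fun a => measureReal_le_one
    set m := ν.real B ^ 2 with hm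
    have hm0 : 0 < m := by
      have : 0 < ν.real B := by
        rw [measureReal_def]
        exact ENNReal.toReal_pos hBν (measure_ne_top _ _)
      positivity
    have hmean := mean_weights hV hBm (fun _ => 0)
    simp only [zero_add] at hmean
    have hz := weighted_avg_zero U h hcorr (fun a => (w a : ℂ)) (fun a => by
      rw [Complex.norm_real, Real.norm_eq_abs, abs_of_nonneg (hw0 a)]
      exact hw1 a)
    have hev1 := hmean.eventually (lt_mem_nhds (show m / 2 < m by linarith))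
    have hev2 := hz.eventually (gt_mem_nhds (show (0:ℝ) < m * ε / 4 by positivity))
    obtain ⟨N, ⟨hN1, hN2⟩, hN⟩ := ((hev1.and hev2).and (eventually_gt_atTop 0)).exists
    have hN' : (0:ℝ) < N := by exact_mod_cast hN
    set Wt := ∑ a ∈ range N, w a with hWt
    have hWt1 : m / 2 * N < Wt := by
      have h3 : m / 2 < (N:ℝ)⁻¹ * Wt := hN1
      rw [inv_mul_eq_div, lt_div_iff₀ hN'] at h3
      exact h3
    have hWt0 : 0 < Wt := lt_trans (by positivity) hWt1
    refine ⟨fun x => Wt⁻¹ * ∑ a ∈ range N, w a * F (V^[a] x), ?_, ?_, ?_, ?_⟩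
    · exact measurable_const.mul (Finset.measurable_sum _ fun a _ =>
        measurable_const.mul (hF.comp (hVm a)))
    · intro x
      have : 0 ≤ ∑ a ∈ range N, w a * F (V^[a] x) :=
        Finset.sum_nonneg fun a _ => mul_nonneg (hw0 a) (h0 _)
      positivity
    · intro x
      have h3 : ∑ a ∈ range N, w a * F (V^[a] x) ≤ Wt := by
        rw [hWt]
        refine Finset.sum_le_sum fun a _ => ?_
        calc w a * F (V^[a] x) ≤ w a * 1 := mul_le_mul_of_nonneg_left (h1 _) (hw0 a)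
          _ = w a := mul_one _
      show Wt⁻¹ * ∑ a ∈ range N, w a * F (V^[a] x) ≤ 1
      rw [inv_mul_eq_div, div_le_one hWt0]
      exact h3
    · have hae := koop_sum_ae hV.toMeasurePreserving hmem N (fun a => (w a : ℂ)) (fun a => a)
        ((Wt⁻¹ : ℝ) : ℂ)
      have hA : ∫ x, ‖((Wt⁻¹ * ∑ a ∈ range N, w a * F (V^[a] x) : ℝ) : ℂ) - y x‖ ∂ν
          ≤ ‖((Wt⁻¹ : ℝ) : ℂ) • ∑ a ∈ range N, (w a : ℂ) • (⇑U)^[a] f - y‖ := by
        refine le_trans (le_of_eq ?_) (integral_norm_le_norm _)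
        refine integral_congr_ae ?_
        filter_upwards [hae, Lp.coeFn_sub (((Wt⁻¹ : ℝ) : ℂ) • ∑ a ∈ range N,
          (w a : ℂ) • (⇑U)^[a] f) y] with x hx1 hx2
        rw [hx2, Pi.sub_apply, hx1]
        push_cast
        rfl
      refine hA.trans ?_
      have hfy : f = y + h := by rw [hh]; abel
      have hsplit : ((Wt⁻¹ : ℝ) : ℂ) • ∑ a ∈ range N, (w a : ℂ) • (⇑U)^[a] f - y
          = ((Wt⁻¹ : ℝ) : ℂ) • ∑ a ∈ range N, (w a : ℂ) • ((⇑U)^[a] y - y)
            + ((Wt⁻¹ : ℝ) : ℂ) • ∑ a ∈ range N, (w a : ℂ) • (⇑U)^[a] h := by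
        have h4 : ((Wt⁻¹ : ℝ) : ℂ) • ∑ a ∈ range N, (w a : ℂ) • y = y := by
          rw [← Finset.sum_smul, smul_smul, ← Complex.ofReal_sum, ← Complex.ofReal_mul,
            inv_mul_cancel₀ hWt0.ne', Complex.ofReal_one, one_smul]
        conv_lhs => rw [← h4]
        rw [← smul_sub, ← smul_add, ← Finset.sum_sub_distrib, ← Finset.sum_add_distrib]
        congr 1
        refine Finset.sum_congr rfl fun a _ => ?_
        rw [hfy, iter_add', smul_add, smul_sub]
        abel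
      rw [hsplit]
      have hp1 : ‖((Wt⁻¹ : ℝ) : ℂ) • ∑ a ∈ range N, (w a : ℂ) • ((⇑U)^[a] y - y)‖ ≤ ε / 2 := by
        rw [norm_smul, Complex.norm_real, Real.norm_eq_abs, abs_of_nonneg (by positivity)]
        have h5 : ‖∑ a ∈ range N, (w a : ℂ) • ((⇑U)^[a] y - y)‖ ≤ ∑ a ∈ range N, w a * (ε / 2) := by
          refine (norm_sum_le _ _).trans (Finset.sum_le_sum fun a _ => ?_)
          rw [norm_smul, Complex.norm_real, Real.norm_eq_abs, abs_of_nonneg (hw0 a)]
          by_cases hwa : ν (B ∩ V^[a] ⁻¹' B) = 0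
          · have : w a = 0 := by
              show ν.real (B ∩ V^[a] ⁻¹' B) = 0
              rw [measureReal_def, hwa]
              simp
            rw [this]
            simp
          · exact mul_le_mul_of_nonneg_left (hB a hwa) (hw0 a)
        rw [← Finset.sum_mul] at h5
        calc Wt⁻¹ * ‖∑ a ∈ range N, (w a : ℂ) • ((⇑U)^[a] y - y)‖
            ≤ Wt⁻¹ * (Wt * (ε / 2)) := mul_le_mul_of_nonneg_left h5 (by positivity)
          _ = ε / 2 := by field_simp
      have hp2 : ‖((Wt⁻¹ : ℝ) : ℂ) • ∑ a ∈ range N, (w a : ℂ) • (⇑U)^[a] h‖ ≤ ε / 2 := by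
        rw [norm_smul, Complex.norm_real, Real.norm_eq_abs, abs_of_nonneg (by positivity)]
        have h5 : ‖∑ a ∈ range N, (w a : ℂ) • (⇑U)^[a] h‖ ≤ m * ε / 4 * N := by
          have h6 : ‖∑ a ∈ range N, (w a : ℂ) • (⇑U)^[a] h‖ / N < m * ε / 4 := hN2
          rw [div_lt_iff₀ hN'] at h6
          exact h6.le
        rw [inv_mul_eq_div, div_le_iff₀ hWt0]
        refine h5.trans ?_
        have h7 : m * ε / 4 * N = ε / 2 * (m / 2 * N) := by ring
        rw [h7]
        exact mul_le_mul_of_nonneg_left hWt1.le (by positivity)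
      refine (norm_add_le _ _).trans ?_
      linarith
  -- conclusion
  refine ⟨fun x => max 0 (min (y x).re 1),
    measurable_const.max ((Complex.measurable_re.comp hym).min measurable_const),
    fun x => le_max_left _ _, fun x => max_le zero_le_one (min_le_right _ _), ?_⟩
  set g : Ω → ℝ := fun x => max 0 (min (y x).re 1) with hg
  have hgm : Measurable g :=
    measurable_const.max ((Complex.measurable_re.comp hym).min measurable_const)
  have hgint : Integrable (fun x => (g x : ℂ)) ν := by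
    refine Integrable.of_bound (Complex.measurable_ofReal.comp hgm).aestronglyMeasurable 1
      (Eventually.of_forall fun x => ?_)
    rw [Complex.norm_real, Real.norm_eq_abs, abs_of_nonneg (le_max_left _ _)]
    exact max_le zero_le_one (min_le_right _ _)
  have hzero : ∫ x, ‖y x - (g x : ℂ)‖ ∂ν = 0 := by
    refine le_antisymm (le_of_forall_pos_le_add fun ε hε => ?_)
      (integral_nonneg fun x => norm_nonneg _)
    obtain ⟨R, hRm, hR0, hR1, hR⟩ := happ (ε / 2) (by positivity)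
    have hRint : Integrable (fun x => (R x : ℂ)) ν := by
      refine Integrable.of_bound (Complex.measurable_ofReal.comp hRm).aestronglyMeasurable 1
        (Eventually.of_forall fun x => ?_)
      rw [Complex.norm_real, Real.norm_eq_abs, abs_of_nonneg (hR0 x)]
      exact hR1 x
    have h3 : ∫ x, ‖y x - (g x : ℂ)‖ ∂ν ≤ ∫ x, 2 * ‖(R x : ℂ) - y x‖ ∂ν := by
      refine integral_mono (hyint.sub hgint).norm ((hRint.sub hyint).norm.const_mul 2)
        fun x => ?_
      show ‖y x - (g x : ℂ)‖ ≤ 2 * ‖(R x : ℂ) - y x‖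
      have h4 : ‖(R x : ℂ) - (g x : ℂ)‖ ≤ ‖(R x : ℂ) - y x‖ := by
        rw [← Complex.ofReal_sub, Complex.norm_real, Real.norm_eq_abs]
        refine (abs_sub_clamp_le (hR0 x) (hR1 x)).trans ?_
        have h5 := Complex.abs_re_le_norm ((R x : ℂ) - y x)
        rwa [Complex.sub_re, Complex.ofReal_re] at h5
      calc ‖y x - (g x : ℂ)‖ = ‖((R x : ℂ) - (g x : ℂ)) - ((R x : ℂ) - y x)‖ := by
            congr 1
            ring
        _ ≤ ‖(R x : ℂ) - (g x : ℂ)‖ + ‖(R x : ℂ) - y x‖ := norm_sub_le _ _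
        _ ≤ 2 * ‖(R x : ℂ) - y x‖ := by linarith
    rw [integral_const_mul] at h3
    linarith
  have h5 := (integral_eq_zero_iff_of_nonneg (f := fun x => ‖y x - (g x : ℂ)‖)
    (fun x => norm_nonneg _) (hyint.sub hgint).norm).mp hzero
  filter_upwards [h5] with x hx
  have hx' : ‖y x - (g x : ℂ)‖ = 0 := hx
  exact sub_eq_zero.mp (norm_eq_zero.mp hx')

omit [IsProbabilityMeasure ν] in
lemma inner_of_ae_real {x y : Lp ℂ 2 ν} {a b : Ω → ℝ}
    (hx : (x : Ω → ℂ) =ᵐ[ν] fun t => (a t : ℂ)) (hy : (y : Ω → ℂ) =ᵐ[ν] fun t => (b t : ℂ)) :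
    ⟪x, y⟫_ℂ = ((∫ t, a t * b t ∂ν : ℝ) : ℂ) := by
  rw [L2.inner_def, ← integral_complex_ofReal]
  refine integral_congr_ae ?_
  filter_upwards [hx, hy] with t h1 h2
  rw [h1, h2]
  simp [mul_comm]

/-- the decomposition of an indicator function with respect to an ergodic map -/
theorem kronecker {V : Ω → Ω} (hV : Ergodic V ν) {A : Set Ω} (hA : MeasurableSet A) :
    ∃ g : Ω → ℝ, Measurable g ∧ (∀ x, 0 ≤ g x) ∧ (∀ x, g x ≤ 1) ∧
      (∀ B' : Set Ω, MeasurableSet B' → B' ⊆ A → ν.real B' ^ 2 ≤ ∫ x in B', g x ∂ν) ∧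
      (∀ p : ℕ, 0 < p → Tendsto (fun K : ℕ => (K:ℝ)⁻¹ * ∑ d ∈ range K,
        |∫ x, (A.indicator (fun _ => (1:ℝ)) x - g x) *
          (A.indicator (fun _ => (1:ℝ)) (V^[p * d] x) - g (V^[p * d] x)) ∂ν|) atTop (𝓝 0)) ∧
      (∀ ε : ℝ, 0 < ε → ∃ B : Set Ω, MeasurableSet B ∧ ν B ≠ 0 ∧ ∀ i j e : ℕ,
        (e = i + j ∨ e + j = 2 * i) → ν (B ∩ V^[i] ⁻¹' B) ≠ 0 → ν (B ∩ V^[j] ⁻¹' B) ≠ 0 →
        ∫ x, |g (V^[e] x) - g x| ∂ν ≤ ε) := by
  set U := koop ℂ hV.toMeasurePreserving with hU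
  have hind : ∀ {S : Set Ω}, MeasurableSet S → Measurable (S.indicator (fun _ => (1:ℝ))) :=
    fun hS => measurable_const.indicator hS
  have hind0 : ∀ (S : Set Ω) x, 0 ≤ S.indicator (fun _ => (1:ℝ)) x := fun S x =>
    Set.indicator_nonneg (fun _ _ => zero_le_one) x
  have hind1 : ∀ (S : Set Ω) x, S.indicator (fun _ => (1:ℝ)) x ≤ 1 := fun S x =>
    Set.indicator_le_self' (fun _ _ => zero_le_one) x
  have hindabs : ∀ (S : Set Ω) x, |S.indicator (fun _ => (1:ℝ)) x| ≤ 1 := fun S x =>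
    abs_le.mpr ⟨by linarith [hind0 S x], hind1 S x⟩
  have hmem : ∀ {S : Set Ω}, MeasurableSet S →
      MemLp (fun x => ((S.indicator (fun _ => (1:ℝ)) x : ℝ) : ℂ)) 2 ν := fun hS =>
    real_mem (hind hS) (hindabs _)
  obtain ⟨g, hgm, hg0, hg1, hg⟩ := kpart_real hV (hind hA) (hind0 A) (hind1 A) (hmem hA)
  have hVm : ∀ n, Measurable (V^[n]) := fun n => (hV.toMeasurePreserving.iterate n).measurable
  set f := (hmem hA).toLp _ with hf
  set y := kpart hV f with hy
  refine ⟨g, hgm, hg0, hg1, ?_, ?_, ?_⟩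
  · -- lower bound
    intro B' hB' hB'A
    obtain ⟨g1, hg1m, hg10, hg11, hg1e⟩ := kpart_real hV (hind hB') (hind0 B') (hind1 B') (hmem hB')
    have hAB : MeasurableSet (A \ B') := hA.diff hB'
    obtain ⟨g2, hg2m, hg20, hg21, hg2e⟩ := kpart_real hV (hind hAB) (hind0 _) (hind1 _) (hmem hAB)
    set f1 := (hmem hB').toLp _ with hf1
    set f2 := (hmem hAB).toLp _ with hf2
    have hsum : f = f1 + f2 := by
      rw [hf, hf1, hf2, ← MemLp.toLp_add]
      congr 1
      funext x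
      by_cases h1 : x ∈ B'
      · have h2 : x ∈ A := hB'A h1
        have h3 : x ∉ A \ B' := fun h => h.2 h1
        simp [h1, h2]
      · by_cases h2 : x ∈ A
        · have h3 : x ∈ A \ B' := ⟨h2, h1⟩
          simp [h1, h2]
        · have h3 : x ∉ A \ B' := fun h => h2 h.1
          simp [h1, h2]
    have e1 : ⟪f1, y⟫_ℂ = ⟪f1, kpart hV f1⟫_ℂ + ⟪f1, kpart hV f2⟫_ℂ := by
      rw [hy, hsum, kpart_add, inner_add_right]
    have e2 : ⟪f1, y⟫_ℂ = ((∫ t, B'.indicator (fun _ => (1:ℝ)) t * g t ∂ν : ℝ) : ℂ) :=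
      inner_of_ae_real (hmem hB').coeFn_toLp hg
    have e3 : ⟪f1, kpart hV f2⟫_ℂ = ((∫ t, B'.indicator (fun _ => (1:ℝ)) t * g2 t ∂ν : ℝ) : ℂ) :=
      inner_of_ae_real (hmem hB').coeFn_toLp hg2e
    have e3pos : 0 ≤ ∫ t, B'.indicator (fun _ => (1:ℝ)) t * g2 t ∂ν :=
      integral_nonneg fun t => mul_nonneg (hind0 B' t) (hg20 t)
    have e4 : ⟪f1, kpart hV f1⟫_ℂ = ((‖kpart hV f1‖ ^ 2 : ℝ) : ℂ) := by
      have h1 : ⟪kpart hV f1, f1 - kpart hV f1⟫_ℂ = 0 := kpart_orth hV f1 (kpart_mem hV f1)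
      have h2 : ⟪kpart hV f1, f1⟫_ℂ = ⟪kpart hV f1, kpart hV f1⟫_ℂ := by
        rw [inner_sub_right] at h1
        exact sub_eq_zero.mp h1
      rw [← inner_conj_symm, h2, inner_self_eq_norm_sq_to_K, map_pow, RCLike.conj_ofReal]
      push_cast
      rfl
    have hone : MemLp (fun _ : Ω => (1:ℂ)) 2 ν := memLp_const 1
    have honefix : U (hone.toLp _) = (1:ℂ) • hone.toLp _ := by
      rw [one_smul]
      show Lp.compMeasurePreserving V hV.toMeasurePreserving (hone.toLp _) = hone.toLp _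
      rw [Lp.toLp_compMeasurePreserving]
      rfl
    have honen : ‖hone.toLp (fun _ : Ω => (1:ℂ))‖ ≤ 1 := by
      rw [Lp.norm_toLp]
      have : eLpNorm (fun _ : Ω => (1:ℂ)) 2 ν ≤ 1 := by
        refine (eLpNorm_le_of_ae_bound (C := 1) (Eventually.of_forall fun x => by simp)).trans ?_
        simp
      exact ENNReal.toReal_mono (by simp) this |>.trans (by simp)
    have e5 : ν.real B' ≤ ‖kpart hV f1‖ := by
      have h1 : ⟪hone.toLp (fun _ : Ω => (1:ℂ)), f1 - kpart hV f1⟫_ℂ = 0 :=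
        kpart_orth hV f1 (eig_mem hV honefix)
      rw [inner_sub_right] at h1
      have h2 := sub_eq_zero.mp h1
      have h3 : ⟪hone.toLp (fun _ : Ω => (1:ℂ)), f1⟫_ℂ = ((ν.real B' : ℝ) : ℂ) := by
        rw [inner_of_ae_real (a := fun _ => (1:ℝ)) (b := B'.indicator (fun _ => (1:ℝ)))
          (by simpa using hone.coeFn_toLp) (hmem hB').coeFn_toLp]
        congr 1
        simp only [one_mul]
        rw [integral_indicator_const _ hB']
        simp
      have h4 := norm_inner_le_norm (𝕜 := ℂ) (hone.toLp (fun _ : Ω => (1:ℂ))) (kpart hV f1)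
      rw [← h2, h3, Complex.norm_real, Real.norm_eq_abs, abs_of_nonneg measureReal_nonneg] at h4
      calc ν.real B' ≤ ‖hone.toLp (fun _ : Ω => (1:ℂ))‖ * ‖kpart hV f1‖ := h4
        _ ≤ 1 * ‖kpart hV f1‖ := by gcongr
        _ = _ := one_mul _
    have e6 : ∫ t, B'.indicator (fun _ => (1:ℝ)) t * g t ∂ν
        = ‖kpart hV f1‖ ^ 2 + ∫ t, B'.indicator (fun _ => (1:ℝ)) t * g2 t ∂ν := by
      rw [e2, e3, e4] at e1
      exact_mod_cast e1
    have e7 : ∫ x in B', g x ∂ν = ∫ t, B'.indicator (fun _ => (1:ℝ)) t * g t ∂ν := by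
      rw [← integral_indicator hB']
      refine integral_congr_ae (Eventually.of_forall fun x => ?_)
      by_cases hx : x ∈ B' <;> simp [hx]
    rw [e7, e6]
    have : ν.real B' ^ 2 ≤ ‖kpart hV f1‖ ^ 2 := by
      gcongr
    linarith
  · intro p hp
    have h1 := kpart_corr hV f p hp
    have hxe : ((f - kpart hV f : Lp ℂ 2 ν) : Ω → ℂ) =ᵐ[ν] fun x =>
        ((A.indicator (fun _ => (1:ℝ)) x - g x : ℝ) : ℂ) := by
      filter_upwards [Lp.coeFn_sub f (kpart hV f), (hmem hA).coeFn_toLp, hg] with x h2 h3 h4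
      rw [h2, Pi.sub_apply, h3, h4]
      push_cast
      rfl
    refine h1.congr fun K => ?_
    congr 1
    refine Finset.sum_congr rfl fun d _ => ?_
    have hye : (((⇑U)^[p * d] (f - kpart hV f) : Lp ℂ 2 ν) : Ω → ℂ) =ᵐ[ν] fun x =>
        ((A.indicator (fun _ => (1:ℝ)) (V^[p * d] x) - g (V^[p * d] x) : ℝ) : ℂ) := by
      refine (koop_iter_ae hV.toMeasurePreserving (p * d) _).trans ?_
      exact (hV.toMeasurePreserving.iterate (p * d)).quasiMeasurePreserving.ae_eq_comp hxe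
    rw [inner_of_ae_real hxe hye, Complex.norm_real, Real.norm_eq_abs]
  · intro ε hε
    obtain ⟨B, -, hBm, hBν, hB⟩ := AP_of_mem hV (kpart_mem hV f) Set.univ MeasurableSet.univ
      (by simp) (ε / 3) (by positivity)
    refine ⟨B, hBm, hBν, fun i j e he hi hj => ?_⟩
    have h1 := hB i hi
    have h2 := hB j hj
    have h3 : ‖(⇑U)^[e] y - y‖ ≤ ε := by
      rcases he with he | he
      · have h4 : (⇑U)^[e] y - y = (⇑U)^[i] ((⇑U)^[j] y - y) + ((⇑U)^[i] y - y) := by
          rw [he, iter_sub, Function.iterate_add_apply]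
          abel
        rw [h4]
        refine (norm_add_le _ _).trans ?_
        rw [norm_iter]
        linarith
      · have h4 : ‖(⇑U)^[e] y - y‖ = ‖(⇑U)^[i] ((⇑U)^[i] y - y) + ((⇑U)^[i] y - y)
            - ((⇑U)^[j] y - y)‖ := by
          rw [← norm_iter U j, iter_sub, iter_sub, ← Function.iterate_add_apply,
            ← Function.iterate_add_apply, show j + e = i + i by omega]
          congr 1
          abel
        rw [h4]
        refine (norm_sub_le _ _).trans ?_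
        have h5 := norm_add_le ((⇑U)^[i] ((⇑U)^[i] y - y)) ((⇑U)^[i] y - y)
        rw [norm_iter] at h5
        linarith
    refine le_trans (le_trans (le_of_eq ?_) (integral_norm_le_norm _)) h3
    refine integral_congr_ae ?_
    have h4 : (((⇑U)^[e] y : Lp ℂ 2 ν) : Ω → ℂ) =ᵐ[ν] fun x => ((g (V^[e] x) : ℝ) : ℂ) := by
      refine (koop_iter_ae hV.toMeasurePreserving e _).trans ?_
      exact (hV.toMeasurePreserving.iterate e).quasiMeasurePreserving.ae_eq_comp hg
    filter_upwards [Lp.coeFn_sub ((⇑U)^[e] y) y, h4, hg] with x h5 h6 h7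
    rw [h5, Pi.sub_apply, h6, h7, ← Complex.ofReal_sub, Complex.norm_real, Real.norm_eq_abs]

end Pool.NC3
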