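import Pool.Agent.NC3.ME

open MeasureTheory Filter Topology Finset
open scoped InnerProductSpace ENNReal

namespace Pool.NC3

lemma shift_sum (x : ℕ → ℝ) (hx : ∀ i, |x i| ≤ 1) (N l : ℕ) :
    |∑ i ∈ range N, x (i + l) - ∑ i ∈ range N, x i| ≤ 2 * l := by
  induction l with
  | zero => simp
  | succ l ih =>
    have h1 : ∑ i ∈ range N, x (i + (l + 1)) - ∑ i ∈ range N, x (i + l)
        = x (N + l) - x (0 + l) := by
      rw [← Finset.sum_sub_distrib]
      have := Finset.sum_range_sub (fun i => x (i + l)) N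
      rw [← this]
      refine Finset.sum_congr rfl fun i _ => ?_
      rw [show i + (l + 1) = i + 1 + l by ring]
    have h2 : |x (N + l) - x (0 + l)| ≤ 2 := by
      have := hx (N + l)
      have := hx (0 + l)
      rw [abs_le] at *
      constructor <;> linarith [this.1, this.2]
    calc |∑ i ∈ range N, x (i + (l + 1)) - ∑ i ∈ range N, x i|
        = |(∑ i ∈ range N, x (i + (l + 1)) - ∑ i ∈ range N, x (i + l))
            + (∑ i ∈ range N, x (i + l) - ∑ i ∈ range N, x i)| := by rw [sub_add_sub_cancel]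
      _ ≤ 2 + 2 * l := by
          refine (abs_add_le _ _).trans ?_
          rw [h1]
          linarith
      _ = 2 * ((l + 1 : ℕ) : ℝ) := by push_cast; ring

lemma dist_sum (θ : ℕ → ℝ) (hθ : ∀ d, 0 ≤ θ d) (K l : ℕ) (hl : l < K) :
    ∑ l' ∈ range K, θ ((l - l') + (l' - l)) ≤ 2 * ∑ d ∈ range K, θ d := by
  have h1 : ∑ l' ∈ range K, θ ((l - l') + (l' - l))
      = ∑ l' ∈ range l, θ (l - l') + ∑ l' ∈ Ico l K, θ (l' - l) := by
    rw [← Finset.sum_range_add_sum_Ico _ hl.le]
    congr 1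
    · refine Finset.sum_congr rfl fun l' hl' => ?_
      have := Finset.mem_range.mp hl'
      congr 1
      omega
    · refine Finset.sum_congr rfl fun l' hl' => ?_
      have := Finset.mem_Ico.mp hl'
      congr 1
      omega
  have h2 : ∑ l' ∈ range l, θ (l - l') ≤ ∑ d ∈ range K, θ d := by
    have h3 : ∑ l' ∈ range l, θ (l - l') = ∑ j ∈ range l, θ (j + 1) := by
      rw [← Finset.sum_range_reflect]
      refine Finset.sum_congr rfl fun j hj => ?_
      have := Finset.mem_range.mp hj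
      congr 1
      omega
    rw [h3]
    have h4 : ∑ j ∈ range l, θ (j + 1) ≤ ∑ j ∈ range (l + 1), θ j := by
      rw [Finset.sum_range_succ']
      linarith [hθ 0]
    refine h4.trans ?_
    exact Finset.sum_le_sum_of_subset_of_nonneg (Finset.range_mono (by omega))
      fun i _ _ => hθ i
  have h3 : ∑ l' ∈ Ico l K, θ (l' - l) ≤ ∑ d ∈ range K, θ d := by
    rw [Finset.sum_Ico_eq_sum_range]
    have h4 : ∑ k ∈ range (K - l), θ (l + k - l) = ∑ k ∈ range (K - l), θ k :=
      Finset.sum_congr rfl fun k _ => by congr 1; omega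
    rw [h4]
    exact Finset.sum_le_sum_of_subset_of_nonneg (Finset.range_mono (by omega))
      fun i _ _ => hθ i
  rw [h1]
  linarith

variable {X : Type*} [MeasurableSpace X] {κ : Measure X} [IsProbabilityMeasure κ]

lemma integrable_of_abs_le {f : X → ℝ} (hf : Measurable f) {C : ℝ} (hC : ∀ x, |f x| ≤ C) :
    Integrable f κ :=
  Integrable.of_bound hf.aestronglyMeasurable C (Eventually.of_forall hC)

/-- the van der Corput estimate at a finite stage -/
theorem kill_bound {V : X → X} (hV : MeasurePreserving V κ κ)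
    {h : X → ℝ} (hm : Measurable h) (hb : ∀ x, |h x| ≤ 1) (p : ℕ)
    (N K : ℕ) (hN : 0 < N) (hK : 0 < K)
    (E : ℕ → ℕ → ℕ) (hE : ∀ i k j, j < N → E (i + k) j = E i j + p * k)
    (s : ℕ → ℕ) (hs : ∀ i (φ : ℕ → ℝ), ∑ j ∈ range N, φ (E i j) = ∑ j ∈ range N, φ (s i + j))
    (v u : ℕ → X → ℝ) (hvm : ∀ i, Measurable (v i)) (hv : ∀ i x, |v i x| ≤ 1)
    (hum : ∀ i, Measurable (u i)) (hu : ∀ i x, |u i x| ≤ 1) (δ : ℝ) (hδ : 0 < δ) :
    |(N:ℝ)⁻¹ * ∑ i ∈ range N, ((N:ℝ)⁻¹ * ∑ j ∈ range N,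
      ∫ x, v i x * u j x * h (V^[E i j] x) ∂κ)| ≤
    2 * K / N + (δ / 2 + (1 / (2 * δ)) * ((2 / K) * ∑ d ∈ range K,
      ∫ x, |(N:ℝ)⁻¹ * ∑ j ∈ range N, h (V^[j] x) * h (V^[p * d] (V^[j] x))| ∂κ)) := by
  have hN' : (0:ℝ) < N := by exact_mod_cast hN
  have hK' : (0:ℝ) < K := by exact_mod_cast hK
  have hVm : ∀ n, Measurable (V^[n]) := fun n => (hV.iterate n).measurable
  have hhm : ∀ n, Measurable (fun x => h (V^[n] x)) := fun n => hm.comp (hVm n)
  set θ : ℕ → ℝ := fun d => ∫ x, |(N:ℝ)⁻¹ * ∑ j ∈ range N,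
    h (V^[j] x) * h (V^[p * d] (V^[j] x))| ∂κ with hθ
  have hθ0 : ∀ d, 0 ≤ θ d := fun d => integral_nonneg fun x => abs_nonneg _
  -- the main terms
  set y : ℕ → ℝ := fun i => (N:ℝ)⁻¹ * ∑ j ∈ range N,
      ∫ x, v i x * u j x * h (V^[E i j] x) ∂κ with hy
  have habs3 : ∀ a b c : ℝ, |a| ≤ 1 → |b| ≤ 1 → |c| ≤ 1 → |a * b * c| ≤ 1 := by
    intro a b c ha hb hc
    rw [abs_mul, abs_mul]
    have := mul_le_one₀ ha (abs_nonneg b) hb
    exact mul_le_one₀ this (abs_nonneg c) hc
  have hterm : ∀ i j, |∫ x, v i x * u j x * h (V^[E i j] x) ∂κ| ≤ 1 := by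
    intro i j
    refine (abs_integral_le_integral_abs).trans ?_
    have h1 : ∫ x, |v i x * u j x * h (V^[E i j] x)| ∂κ ≤ ∫ _x, (1:ℝ) ∂κ := by
      refine integral_mono ?_ (integrable_const 1) fun x => habs3 _ _ _ (hv i x) (hu j x) (hb _)
      refine (integrable_of_abs_le (C := 1) (((hvm i).mul (hum j)).mul (hhm _)) fun x => ?_).abs
      exact habs3 _ _ _ (hv i x) (hu j x) (hb _)
    refine h1.trans ?_
    simp
  have hy1 : ∀ i, |y i| ≤ 1 := by
    intro i
    have h1 := avg_mem (a := -1) (b := 1) hN (c := fun j => ∫ x, v i x * u j x * h (V^[E i j] x) ∂κ)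
      (fun j => (abs_le.mp (hterm i j)).1) (fun j => (abs_le.mp (hterm i j)).2)
    exact abs_le.mpr h1
  -- shifted average
  set S' : ℝ := (K:ℝ)⁻¹ * ∑ l ∈ range K, ((N:ℝ)⁻¹ * ∑ i ∈ range N, y (i + l)) with hS'
  have hSS' : |(N:ℝ)⁻¹ * ∑ i ∈ range N, y i - S'| ≤ 2 * K / N := by
    have h1 : (N:ℝ)⁻¹ * ∑ i ∈ range N, y i - S'
        = (K:ℝ)⁻¹ * ∑ l ∈ range K, ((N:ℝ)⁻¹ * ∑ i ∈ range N, y i
          - (N:ℝ)⁻¹ * ∑ i ∈ range N, y (i + l)) := by
      rw [Finset.sum_sub_distrib, mul_sub, Finset.sum_const, card_range, nsmul_eq_mul, hS']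
      field_simp
    rw [h1]
    have h2 : ∀ l ∈ range K, |(N:ℝ)⁻¹ * ∑ i ∈ range N, y i
          - (N:ℝ)⁻¹ * ∑ i ∈ range N, y (i + l)| ≤ 2 * K / N := by
      intro l hl
      rw [← mul_sub, abs_mul, abs_of_nonneg (inv_nonneg.mpr hN'.le), abs_sub_comm]
      have h3 := shift_sum y hy1 N l
      have h4 : (l:ℝ) ≤ K := by exact_mod_cast (Finset.mem_range.mp hl).le
      calc (N:ℝ)⁻¹ * |∑ i ∈ range N, y (i + l) - ∑ i ∈ range N, y i| ≤ (N:ℝ)⁻¹ * (2 * K) := by
            gcongr
            linarith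
        _ = 2 * K / N := by field_simp
    rw [abs_mul, abs_of_nonneg (inv_nonneg.mpr hK'.le)]
    calc (K:ℝ)⁻¹ * |∑ l ∈ range K, ((N:ℝ)⁻¹ * ∑ i ∈ range N, y i
          - (N:ℝ)⁻¹ * ∑ i ∈ range N, y (i + l))|
        ≤ (K:ℝ)⁻¹ * ∑ _l ∈ range K, (2 * (K:ℝ) / N) := by
          refine mul_le_mul_of_nonneg_left ?_ (inv_nonneg.mpr hK'.le)
          exact (Finset.abs_sum_le_sum_abs _ _).trans (Finset.sum_le_sum h2)
      _ = 2 * K / N := by
          rw [Finset.sum_const, card_range, nsmul_eq_mul]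
          field_simp
  -- the averaged function
  set W : ℕ → ℕ → X → ℝ := fun i j x => (K:ℝ)⁻¹ * ∑ l ∈ range K,
    v (i + l) x * h (V^[E (i + l) j] x) with hW
  have hWm : ∀ i j, Measurable (W i j) := by
    intro i j
    refine measurable_const.mul (Finset.measurable_sum _ fun l _ => ?_)
    exact (hvm _).mul (hhm _)
  have habs2 : ∀ a b : ℝ, |a| ≤ 1 → |b| ≤ 1 → |a * b| ≤ 1 := by
    intro a b ha hb
    rw [abs_mul]
    exact mul_le_one₀ ha (abs_nonneg b) hb
  have hW1 : ∀ i j x, |W i j x| ≤ 1 := by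
    intro i j x
    have h1 := avg_mem (a := -1) (b := 1) hK (c := fun l => v (i + l) x * h (V^[E (i + l) j] x))
      (fun l => (abs_le.mp (habs2 _ _ (hv (i + l) x) (hb _))).1)
      (fun l => (abs_le.mp (habs2 _ _ (hv (i + l) x) (hb _))).2)
    exact abs_le.mpr h1
  have hS'2 : S' = (N:ℝ)⁻¹ * ∑ i ∈ range N, ((N:ℝ)⁻¹ * ∑ j ∈ range N,
      ∫ x, u j x * W i j x ∂κ) := by
    have h1 : ∀ i j, ∫ x, u j x * W i j x ∂κ
        = (K:ℝ)⁻¹ * ∑ l ∈ range K, ∫ x, v (i + l) x * u j x * h (V^[E (i + l) j] x) ∂κ := by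
      intro i j
      rw [← integral_finsetSum, ← integral_const_mul]
      · refine integral_congr_ae (Eventually.of_forall fun x => ?_)
        simp only [hW]
        rw [mul_left_comm, Finset.mul_sum]
        congr 1
        refine Finset.sum_congr rfl fun l _ => ?_
        ring
      · intro l _
        refine integrable_of_abs_le (C := 1) (((hvm _).mul (hum j)).mul (hhm _)) fun x => ?_
        exact habs3 _ _ _ (hv _ x) (hu j x) (hb _)
    simp_rw [h1]
    rw [hS']
    simp only [hy, Finset.mul_sum]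
    rw [Finset.sum_comm]
    refine Finset.sum_congr rfl fun i _ => ?_
    rw [Finset.sum_comm]
    refine Finset.sum_congr rfl fun j _ => ?_
    refine Finset.sum_congr rfl fun l _ => ?_
    ring
  -- Cauchy - Schwarz
  have hCS : |S'| ≤ δ / 2 + (1 / (2 * δ)) * ((N:ℝ)⁻¹ * ∑ i ∈ range N, ((N:ℝ)⁻¹ *
      ∑ j ∈ range N, ∫ x, W i j x ^ 2 ∂κ)) := by
    have h1 : ∀ i j, |∫ x, u j x * W i j x ∂κ| ≤ δ / 2 + (1 / (2 * δ)) * ∫ x, W i j x ^ 2 ∂κ := by
      intro i j
      have hWsq : Integrable (fun x => W i j x ^ 2) κ := by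
        refine integrable_of_abs_le (C := 1) ((hWm i j).pow_const 2) fun x => ?_
        rw [abs_pow]
        exact pow_le_one₀ (abs_nonneg _) (hW1 i j x)
      have h2 : ∫ x, (δ / 2 + (1 / (2 * δ)) * W i j x ^ 2) ∂κ
          = δ / 2 + (1 / (2 * δ)) * ∫ x, W i j x ^ 2 ∂κ := by
        rw [integral_add (integrable_const _) (hWsq.const_mul _), integral_const_mul]
        simp
      rw [← h2]
      refine (abs_integral_le_integral_abs).trans (integral_mono ?_ ?_ fun x => ?_)
      · refine (integrable_of_abs_le (C := 1) ((hum j).mul (hWm i j)) fun x => ?_).abs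
        exact habs2 _ _ (hu j x) (hW1 i j x)
      · exact (integrable_const _).add (hWsq.const_mul _)
      · show |u j x * W i j x| ≤ δ / 2 + (1 / (2 * δ)) * W i j x ^ 2
        have h3 : |u j x * W i j x| ≤ |W i j x| := by
          rw [abs_mul]
          calc |u j x| * |W i j x| ≤ 1 * |W i j x| := by gcongr; exact hu j x
            _ = |W i j x| := one_mul _
        refine h3.trans ?_
        have h4 : δ / 2 + (1 / (2 * δ)) * W i j x ^ 2 - |W i j x|
            = (1 / (2 * δ)) * (|W i j x| - δ) ^ 2 := by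
          rw [← sq_abs (W i j x)]
          field_simp
          ring
        have h5 : 0 ≤ (1 / (2 * δ)) * (|W i j x| - δ) ^ 2 := by positivity
        linarith
    rw [hS'2]
    have hbnd : ∀ (c : ℕ → ℝ), |(N:ℝ)⁻¹ * ∑ i ∈ range N, c i| ≤ (N:ℝ)⁻¹ * ∑ i ∈ range N, |c i| := by
      intro c
      rw [abs_mul, abs_of_nonneg (inv_nonneg.mpr hN'.le)]
      gcongr
      exact Finset.abs_sum_le_sum_abs _ _
    have hconst : ∀ (A B : ℝ) (c : ℕ → ℝ), (N:ℝ)⁻¹ * ∑ i ∈ range N, (A + B * c i)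
        = A + B * ((N:ℝ)⁻¹ * ∑ i ∈ range N, c i) := by
      intro A B c
      rw [Finset.sum_add_distrib, Finset.sum_const, card_range, nsmul_eq_mul, ← Finset.mul_sum]
      field_simp
    refine (hbnd _).trans ?_
    calc (N:ℝ)⁻¹ * ∑ i ∈ range N, |(N:ℝ)⁻¹ * ∑ j ∈ range N, ∫ x, u j x * W i j x ∂κ|
        ≤ (N:ℝ)⁻¹ * ∑ i ∈ range N, (δ / 2 + (1 / (2 * δ)) * ((N:ℝ)⁻¹ * ∑ j ∈ range N,
            ∫ x, W i j x ^ 2 ∂κ)) := by
          gcongr with i hi
          refine (hbnd _).trans ?_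
          rw [← hconst]
          gcongr with j hj
          exact h1 i j
      _ = _ := hconst _ _ _
  -- the quadratic part
  have hquad : ∀ i, (N:ℝ)⁻¹ * ∑ j ∈ range N, ∫ x, W i j x ^ 2 ∂κ
      ≤ (2 / K) * ∑ d ∈ range K, θ d := by
    intro i
    have h1 : (N:ℝ)⁻¹ * ∑ j ∈ range N, ∫ x, W i j x ^ 2 ∂κ
        = (K:ℝ)⁻¹ * ∑ l ∈ range K, ((K:ℝ)⁻¹ * ∑ l' ∈ range K,
          ∫ x, v (i + l) x * v (i + l') x * ((N:ℝ)⁻¹ * ∑ j ∈ range N,
            h (V^[E (i + l) j] x) * h (V^[E (i + l') j] x)) ∂κ) := by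
      have hint : ∀ l l' j, Integrable (fun x => v (i + l) x * v (i + l') x *
          (h (V^[E (i + l) j] x) * h (V^[E (i + l') j] x))) κ := by
        intro l l' j
        refine integrable_of_abs_le (C := 1) (((hvm _).mul (hvm _)).mul ((hhm _).mul (hhm _)))
          fun x => ?_
        exact habs2 _ _ (habs2 _ _ (hv _ _) (hv _ _)) (habs2 _ _ (hb _) (hb _))
      have h2 : ∀ j, ∫ x, W i j x ^ 2 ∂κ = (K:ℝ)⁻¹ * ∑ l ∈ range K, ((K:ℝ)⁻¹ *
          ∑ l' ∈ range K, ∫ x, v (i + l) x * v (i + l') x *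
          (h (V^[E (i + l) j] x) * h (V^[E (i + l') j] x)) ∂κ) := by
        intro j
        have h3 : ∀ x, W i j x ^ 2 = ∑ l ∈ range K, ∑ l' ∈ range K, ((K:ℝ)⁻¹ * ((K:ℝ)⁻¹ *
            (v (i + l) x * v (i + l') x *
            (h (V^[E (i + l) j] x) * h (V^[E (i + l') j] x))))) := by
          intro x
          simp only [hW]
          rw [mul_pow, sq (∑ l ∈ range K, _), Finset.sum_mul_sum, Finset.mul_sum]
          refine Finset.sum_congr rfl fun l _ => ?_
          rw [Finset.mul_sum]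
          refine Finset.sum_congr rfl fun l' _ => ?_
          ring
        simp_rw [h3]
        rw [integral_finsetSum]
        · rw [Finset.mul_sum]
          refine Finset.sum_congr rfl fun l _ => ?_
          rw [integral_finsetSum]
          · rw [Finset.mul_sum, Finset.mul_sum]
            refine Finset.sum_congr rfl fun l' _ => ?_
            rw [integral_const_mul, integral_const_mul]
          · intro l' _
            exact ((hint l l' j).const_mul _).const_mul _
        · intro l _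
          refine integrable_finsetSum _ fun l' _ => ?_
          exact ((hint l l' j).const_mul _).const_mul _
      simp_rw [h2]
      have h4 : ∀ l l', ∫ x, v (i + l) x * v (i + l') x * ((N:ℝ)⁻¹ * ∑ j ∈ range N,
            h (V^[E (i + l) j] x) * h (V^[E (i + l') j] x)) ∂κ
          = (N:ℝ)⁻¹ * ∑ j ∈ range N, ∫ x, v (i + l) x * v (i + l') x *
            (h (V^[E (i + l) j] x) * h (V^[E (i + l') j] x)) ∂κ := by
        intro l l'
        rw [← integral_finsetSum _ (fun j _ => hint l l' j), ← integral_const_mul]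
        refine integral_congr_ae (Eventually.of_forall fun x => ?_)
        simp only [Finset.mul_sum]
        refine Finset.sum_congr rfl fun j _ => ?_
        ring
      simp_rw [h4, Finset.mul_sum]
      rw [Finset.sum_comm]
      refine Finset.sum_congr rfl fun l _ => ?_
      rw [Finset.sum_comm]
      refine Finset.sum_congr rfl fun l' _ => ?_
      refine Finset.sum_congr rfl fun j _ => ?_
      ring
    rw [h1]
    -- each term is bounded by theta
    have h5 : ∀ l l', ∫ x, v (i + l) x * v (i + l') x * ((N:ℝ)⁻¹ * ∑ j ∈ range N,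
            h (V^[E (i + l) j] x) * h (V^[E (i + l') j] x)) ∂κ ≤ θ ((l - l') + (l' - l)) := by
      have key : ∀ a d, ∫ x, |(N:ℝ)⁻¹ * ∑ j ∈ range N,
            h (V^[E a j] x) * h (V^[E (a + d) j] x)| ∂κ = θ d := by
        intro a d
        have e1 : ∀ x, ∑ j ∈ range N, h (V^[E a j] x) * h (V^[E (a + d) j] x)
            = ∑ j ∈ range N, h (V^[j] (V^[s a] x)) * h (V^[p * d] (V^[j] (V^[s a] x))) := by
          intro x
          have e2 := hs a (fun n => h (V^[n] x) * h (V^[p * d] (V^[n] x)))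
          have e3 : ∑ j ∈ range N, h (V^[E a j] x) * h (V^[E (a + d) j] x)
              = ∑ j ∈ range N, h (V^[E a j] x) * h (V^[p * d] (V^[E a j] x)) := by
            refine Finset.sum_congr rfl fun j hj => ?_
            rw [hE a d j (Finset.mem_range.mp hj), add_comm (E a j), Function.iterate_add_apply]
          rw [e3, e2]
          refine Finset.sum_congr rfl fun j _ => ?_
          rw [add_comm (s a), Function.iterate_add_apply V j (s a)]
        simp_rw [e1]
        rw [hθ]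
        refine integral_comp_mp (hV.iterate (s a)) (F := fun z => |(N:ℝ)⁻¹ * ∑ j ∈ range N,
          h (V^[j] z) * h (V^[p * d] (V^[j] z))|) ?_
        refine (measurable_const.mul (Finset.measurable_sum _ fun j _ => ?_)).abs
        exact (hhm j).mul ((hhm (p * d)).comp (hVm j))
      have hle : ∀ l l', ∫ x, v (i + l) x * v (i + l') x * ((N:ℝ)⁻¹ * ∑ j ∈ range N,
            h (V^[E (i + l) j] x) * h (V^[E (i + l') j] x)) ∂κ ≤
            ∫ x, |(N:ℝ)⁻¹ * ∑ j ∈ range N,
            h (V^[E (i + l) j] x) * h (V^[E (i + l') j] x)| ∂κ := by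
        intro l l'
        have hA : ∀ x, |(N:ℝ)⁻¹ * ∑ j ∈ range N,
            h (V^[E (i + l) j] x) * h (V^[E (i + l') j] x)| ≤ 1 := by
          intro x
          have h1 := avg_mem (a := -1) (b := 1) hN
            (c := fun j => h (V^[E (i + l) j] x) * h (V^[E (i + l') j] x))
            (fun l => (abs_le.mp (habs2 _ _ (hb _) (hb _))).1)
            (fun l => (abs_le.mp (habs2 _ _ (hb _) (hb _))).2)
          exact abs_le.mpr h1
        have hAm : Measurable (fun x => (N:ℝ)⁻¹ * ∑ j ∈ range N,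
            h (V^[E (i + l) j] x) * h (V^[E (i + l') j] x)) :=
          measurable_const.mul (Finset.measurable_sum _ fun j _ => (hhm _).mul (hhm _))
        refine integral_mono ?_ (integrable_of_abs_le hAm hA).abs fun x => ?_
        · refine integrable_of_abs_le (C := 1) (((hvm _).mul (hvm _)).mul hAm) fun x => ?_
          exact habs2 _ _ (habs2 _ _ (hv _ _) (hv _ _)) (hA x)
        · refine (le_abs_self _).trans ?_
          show |v (i + l) x * v (i + l') x * ((N:ℝ)⁻¹ * ∑ j ∈ range N,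
            h (V^[E (i + l) j] x) * h (V^[E (i + l') j] x))| ≤ |(N:ℝ)⁻¹ * ∑ j ∈ range N,
            h (V^[E (i + l) j] x) * h (V^[E (i + l') j] x)|
          rw [abs_mul]
          have := habs2 _ _ (hv (i + l) x) (hv (i + l') x)
          exact (mul_le_mul_of_nonneg_right this (abs_nonneg _)).trans (le_of_eq (one_mul _))
      intro l l'
      refine (hle l l').trans (le_of_eq ?_)
      rcases le_total l l' with hll | hll
      · have e : (l - l') + (l' - l) = l' - l := by omega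
        rw [e]
        have := key (i + l) (l' - l)
        rw [show i + l + (l' - l) = i + l' by omega] at this
        exact this
      · have e : (l - l') + (l' - l) = l - l' := by omega
        rw [e]
        have := key (i + l') (l - l')
        rw [show i + l' + (l - l') = i + l by omega] at this
        rw [← this]
        refine integral_congr_ae (Eventually.of_forall fun x => ?_)
        simp only
        congr 2
        refine Finset.sum_congr rfl fun j _ => ?_
        ring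
    calc (K:ℝ)⁻¹ * ∑ l ∈ range K, ((K:ℝ)⁻¹ * ∑ l' ∈ range K,
          ∫ x, v (i + l) x * v (i + l') x * ((N:ℝ)⁻¹ * ∑ j ∈ range N,
            h (V^[E (i + l) j] x) * h (V^[E (i + l') j] x)) ∂κ)
        ≤ (K:ℝ)⁻¹ * ∑ l ∈ range K, ((K:ℝ)⁻¹ * ∑ l' ∈ range K, θ ((l - l') + (l' - l))) := by
          gcongr with l hl l' hl'
          exact h5 l l'
      _ ≤ (K:ℝ)⁻¹ * ∑ _l ∈ range K, ((K:ℝ)⁻¹ * (2 * ∑ d ∈ range K, θ d)) := by
          gcongr with l hl
          exact dist_sum θ hθ0 K l (Finset.mem_range.mp hl)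
      _ = (2 / K) * ∑ d ∈ range K, θ d := by
          rw [Finset.sum_const, card_range, nsmul_eq_mul]
          field_simp
  have hfin : |S'| ≤ δ / 2 + (1 / (2 * δ)) * ((2 / K) * ∑ d ∈ range K, θ d) := by
    refine hCS.trans (add_le_add le_rfl (mul_le_mul_of_nonneg_left ?_ (by positivity)))
    calc (N:ℝ)⁻¹ * ∑ i ∈ range N, ((N:ℝ)⁻¹ * ∑ j ∈ range N, ∫ x, W i j x ^ 2 ∂κ)
        ≤ (N:ℝ)⁻¹ * ∑ _i ∈ range N, ((2 / K) * ∑ d ∈ range K, θ d) := by
          refine mul_le_mul_of_nonneg_left ?_ (by positivity)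
          exact Finset.sum_le_sum fun i _ => hquad i
      _ = _ := by
          rw [Finset.sum_const, card_range, nsmul_eq_mul]
          field_simp
  have htri : |(N:ℝ)⁻¹ * ∑ i ∈ range N, y i| ≤
      |(N:ℝ)⁻¹ * ∑ i ∈ range N, y i - S'| + |S'| := by
    have := abs_add_le ((N:ℝ)⁻¹ * ∑ i ∈ range N, y i - S') S'
    simpa using this
  linarith

/-- van der Corput: a bounded function with small correlations along `p` multiples is killed by
two parameter averages -/
theorem kill {V : X → X} (hV : Ergodic V κ)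
    {h : X → ℝ} (hm : Measurable h) (hb : ∀ x, |h x| ≤ 1) (p : ℕ)
    (hcor : Tendsto (fun K : ℕ => (K:ℝ)⁻¹ * ∑ d ∈ range K, |∫ x, h x * h (V^[p * d] x) ∂κ|)
      atTop (𝓝 0))
    (E : ℕ → ℕ → ℕ → ℕ) (hE : ∀ N i k j, j < N → E N (i + k) j = E N i j + p * k)
    (s : ℕ → ℕ → ℕ)
    (hs : ∀ N i (φ : ℕ → ℝ), ∑ j ∈ range N, φ (E N i j) = ∑ j ∈ range N, φ (s N i + j))
    (v u : ℕ → ℕ → X → ℝ) (hvm : ∀ N i, Measurable (v N i)) (hv : ∀ N i x, |v N i x| ≤ 1)
    (hum : ∀ N i, Measurable (u N i)) (hu : ∀ N i x, |u N i x| ≤ 1) :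
    Tendsto (fun N : ℕ => (N:ℝ)⁻¹ * ∑ i ∈ range N, ((N:ℝ)⁻¹ * ∑ j ∈ range N,
      ∫ x, v N i x * u N j x * h (V^[E N i j] x) ∂κ)) atTop (𝓝 0) := by
  rw [Metric.tendsto_atTop]
  intro ε hε
  rw [Metric.tendsto_atTop] at hcor
  obtain ⟨K0, hK0⟩ := hcor (ε ^ 2 / 16) (by positivity)
  set K := max K0 1 with hKdef
  have hK : 0 < K := lt_of_lt_of_le one_pos (le_max_right _ _)
  have hK' : (0:ℝ) < K := by exact_mod_cast hK
  have hKc := hK0 K (le_max_left _ _)
  rw [dist_zero_right, Real.norm_eq_abs, abs_of_nonneg (by positivity)] at hKc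
  have hVm : ∀ n, Measurable (V^[n]) := fun n => (hV.toMeasurePreserving.iterate n).measurable
  -- convergence of the correlations
  have hθ : ∀ d, Tendsto (fun N : ℕ => ∫ x, |(N:ℝ)⁻¹ * ∑ j ∈ range N,
      h (V^[j] x) * h (V^[p * d] (V^[j] x))| ∂κ) atTop (𝓝 |∫ x, h x * h (V^[p * d] x) ∂κ|) := by
    intro d
    have hHm : Measurable (fun x => h x * h (V^[p * d] x)) := hm.mul (hm.comp (hVm _))
    have hH1 : ∀ x, |h x * h (V^[p * d] x)| ≤ 1 := by
      intro x
      rw [abs_mul]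
      exact mul_le_one₀ (hb _) (abs_nonneg _) (hb _)
    have h1 := mean_ergodic_ergodic hV hHm hH1 (fun _ => 0)
    rw [tendsto_iff_norm_sub_tendsto_zero]
    refine squeeze_zero (fun _ => norm_nonneg _) (fun N => ?_) h1
    have havg : Integrable (fun x => (N:ℝ)⁻¹ * ∑ j ∈ range N,
        h (V^[j] x) * h (V^[p * d] (V^[j] x))) κ := by
      refine Integrable.const_mul (integrable_finsetSum _ fun j _ => ?_) _
      exact integrable_of_abs_le (hHm.comp (hVm j)) fun x => hH1 _
    set c := ∫ x, h x * h (V^[p * d] x) ∂κ with hc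
    have h2 : |c| = ∫ _x, |c| ∂κ := by simp
    rw [Real.norm_eq_abs]
    conv_lhs => rw [h2]
    rw [← integral_sub havg.abs (integrable_const _)]
    refine (abs_integral_le_integral_abs).trans ?_
    refine integral_mono (havg.abs.sub (integrable_const _)).abs ?_ fun x => ?_
    · refine Integrable.abs (Integrable.sub ?_ (integrable_const _))
      refine Integrable.const_mul (integrable_finsetSum _ fun j _ => ?_) _
      exact integrable_of_abs_le (hHm.comp (hVm _)) fun x => hH1 _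
    · simp only [zero_add]
      exact abs_abs_sub_abs_le_abs_sub _ _
  have hθsum : Tendsto (fun N : ℕ => (2 / K) * ∑ d ∈ range K, ∫ x, |(N:ℝ)⁻¹ * ∑ j ∈ range N,
      h (V^[j] x) * h (V^[p * d] (V^[j] x))| ∂κ) atTop
      (𝓝 ((2 / K) * ∑ d ∈ range K, |∫ x, h x * h (V^[p * d] x) ∂κ|)) :=
    (tendsto_finsetSum _ fun d _ => hθ d).const_mul _
  have hlim : (2 / K) * ∑ d ∈ range K, |∫ x, h x * h (V^[p * d] x) ∂κ| < ε ^ 2 / 8 := by
    have : (2 / (K:ℝ)) * ∑ d ∈ range K, |∫ x, h x * h (V^[p * d] x) ∂κ|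
        = 2 * ((K:ℝ)⁻¹ * ∑ d ∈ range K, |∫ x, h x * h (V^[p * d] x) ∂κ|) := by
      field_simp
    rw [this]
    linarith
  have hev1 := hθsum.eventually (gt_mem_nhds hlim)
  have hKN : Tendsto (fun N : ℕ => 2 * (K:ℝ) / N) atTop (𝓝 0) :=
    tendsto_const_div_atTop_nhds_zero_nat _
  have hev2 := hKN.eventually (gt_mem_nhds (show (0:ℝ) < ε / 4 by positivity))
  have hev := (hev1.and hev2).and (eventually_gt_atTop 0)
  obtain ⟨N0, hN0⟩ := Filter.eventually_atTop.mp hev
  refine ⟨N0, fun N hN => ?_⟩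
  obtain ⟨⟨e1, e2⟩, e3⟩ := hN0 N hN
  have hmain := kill_bound hV.toMeasurePreserving hm hb p N K e3 hK (E N) (hE N) (s N) (hs N)
    (v N) (u N) (hvm N) (hv N) (hum N) (hu N) (ε / 2) (by positivity)
  rw [dist_zero_right, Real.norm_eq_abs]
  refine lt_of_le_of_lt hmain ?_
  have h3 : (1 / (2 * (ε / 2))) * ((2 / K) * ∑ d ∈ range K,
      ∫ x, |(N:ℝ)⁻¹ * ∑ j ∈ range N, h (V^[j] x) * h (V^[p * d] (V^[j] x))| ∂κ)
      ≤ (1 / (2 * (ε / 2))) * (ε ^ 2 / 8) :=
    mul_le_mul_of_nonneg_left e1.le (by positivity)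
  have h4 : (1 / (2 * (ε / 2))) * (ε ^ 2 / 8) = ε / 8 := by field_simp
  linarith

end Pool.NC3
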