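import Pool.Agent.NC3.Kvn
import Pool.Agent.NC3.Kill

open MeasureTheory Filter Topology Finset
open scoped InnerProductSpace ENNReal

namespace Pool.NC3

section seq

lemma abs_le_am (a δ : ℝ) (hδ : 0 < δ) : |a| ≤ δ / 2 + (1 / (2 * δ)) * a ^ 2 := by
  have h4 : δ / 2 + (1 / (2 * δ)) * a ^ 2 - |a| = (1 / (2 * δ)) * (|a| - δ) ^ 2 := by
    rw [← sq_abs a]
    field_simp
    ring
  have h5 : 0 ≤ (1 / (2 * δ)) * (|a| - δ) ^ 2 := by positivity
  linarith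

/-- quadratic mean convergence gives mean convergence along multiples -/
lemma mean_of_sq_mean (c : ℕ → ℝ)
    (hc : Tendsto (fun K : ℕ => (K:ℝ)⁻¹ * ∑ k ∈ range K, c k ^ 2) atTop (𝓝 0)) (p : ℕ)
    (hp : 0 < p) :
    Tendsto (fun K : ℕ => (K:ℝ)⁻¹ * ∑ d ∈ range K, |c (p * d)|) atTop (𝓝 0) := by
  rw [Metric.tendsto_atTop]
  intro ε hε
  have h1 : Tendsto (fun K : ℕ => p * K) atTop atTop :=
    tendsto_id.const_mul_atTop' hp
  have h2 := hc.comp h1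
  rw [Metric.tendsto_atTop] at h2
  obtain ⟨K0, hK0⟩ := h2 (ε ^ 2 / (2 * p)) (by positivity)
  refine ⟨max K0 1, fun K hK => ?_⟩
  have hK1 : 0 < K := lt_of_lt_of_le one_pos ((le_max_right _ _).trans hK)
  have hK' : (0:ℝ) < K := by exact_mod_cast hK1
  have hp' : (0:ℝ) < p := by exact_mod_cast hp
  have h3 := hK0 K ((le_max_left _ _).trans hK)
  simp only [Function.comp] at h3
  rw [dist_zero_right, Real.norm_eq_abs, abs_of_nonneg (by positivity)] at h3 ⊢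
  have h4 : ∑ d ∈ range K, c (p * d) ^ 2 ≤ ∑ k ∈ range (p * K), c k ^ 2 := by
    have h5 : ∑ d ∈ range K, c (p * d) ^ 2 = ∑ k ∈ (range K).image (fun d => p * d), c k ^ 2 := by
      rw [Finset.sum_image]
      intro a _ b _ hab
      exact Nat.eq_of_mul_eq_mul_left hp hab
    rw [h5]
    refine Finset.sum_le_sum_of_subset_of_nonneg ?_ fun i _ _ => sq_nonneg _
    intro k hk
    rw [Finset.mem_image] at hk
    obtain ⟨d, hd, rfl⟩ := hk
    rw [Finset.mem_range] at hd ⊢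
    exact Nat.mul_lt_mul_of_pos_left hd hp
  have h6 : ∑ d ∈ range K, |c (p * d)| ≤ ∑ d ∈ range K, (ε / 2 + (1 / (2 * ε)) * c (p * d) ^ 2) :=
    Finset.sum_le_sum fun d _ => abs_le_am _ _ hε
  rw [Finset.sum_add_distrib, Finset.sum_const, card_range, nsmul_eq_mul, ← Finset.mul_sum] at h6
  have h7 : (K:ℝ)⁻¹ * ∑ d ∈ range K, c (p * d) ^ 2 < ε ^ 2 / 2 := by
    have h8 : (K:ℝ)⁻¹ * ∑ d ∈ range K, c (p * d) ^ 2
        ≤ p * (((p * K : ℕ):ℝ)⁻¹ * ∑ k ∈ range (p * K), c k ^ 2) := by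
      push_cast
      rw [mul_inv, ← mul_assoc, ← mul_assoc, mul_inv_cancel₀ hp'.ne', one_mul]
      gcongr
    refine lt_of_le_of_lt h8 ?_
    calc p * (((p * K : ℕ):ℝ)⁻¹ * ∑ k ∈ range (p * K), c k ^ 2) < p * (ε ^ 2 / (2 * p)) := by
          gcongr
      _ = ε ^ 2 / 2 := by field_simp
  calc (K:ℝ)⁻¹ * ∑ d ∈ range K, |c (p * d)|
      ≤ (K:ℝ)⁻¹ * (K * (ε / 2) + (1 / (2 * ε)) * ∑ d ∈ range K, c (p * d) ^ 2) := by gcongr
    _ = ε / 2 + (1 / (2 * ε)) * ((K:ℝ)⁻¹ * ∑ d ∈ range K, c (p * d) ^ 2) := by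
        field_simp
    _ < ε / 2 + (1 / (2 * ε)) * (ε ^ 2 / 2) := by gcongr
    _ ≤ ε := by
        have : (1 / (2 * ε)) * (ε ^ 2 / 2) = ε / 4 := by field_simp; ring
        rw [this]
        linarith

end seq

section hilbertAvg

variable {H : Type*} [NormedAddCommGroup H] [InnerProductSpace ℂ H]

/-- averages with bounded weights of a vector with small correlations tend to zero -/
lemma weighted_avg_zero (U : H →ₗᵢ[ℂ] H) (h : H)
    (hc : Tendsto (fun K : ℕ => (K:ℝ)⁻¹ * ∑ d ∈ range K, ‖⟪h, (⇑U)^[d] h⟫_ℂ‖) atTop (𝓝 0))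
    (w : ℕ → ℂ) (hw : ∀ a, ‖w a‖ ≤ 1) :
    Tendsto (fun N : ℕ => ‖∑ a ∈ range N, w a • (⇑U)^[a] h‖ / N) atTop (𝓝 0) := by
  have hcorr : ∀ a b : ℕ, ‖⟪(⇑U)^[a] h, (⇑U)^[b] h⟫_ℂ‖
      = ‖⟪h, (⇑U)^[(a - b) + (b - a)] h⟫_ℂ‖ := by
    have key : ∀ a d : ℕ, ⟪(⇑U)^[a] h, (⇑U)^[a + d] h⟫_ℂ = ⟪h, (⇑U)^[d] h⟫_ℂ := by
      intro a d
      induction a with
      | zero => simp
      | succ a ih =>
        rw [show a + 1 + d = (a + d) + 1 by ring, Function.iterate_succ_apply',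
          Function.iterate_succ_apply', U.inner_map_map, ih]
    intro a b
    rcases le_total a b with hab | hab
    · rw [show (a - b) + (b - a) = b - a by omega]
      have := key a (b - a)
      rw [show a + (b - a) = b by omega] at this
      rw [this]
    · rw [show (a - b) + (b - a) = a - b by omega]
      have := key b (a - b)
      rw [show b + (a - b) = a by omega] at this
      rw [← this, norm_inner_symm]
  have hsq : ∀ N : ℕ, ‖∑ a ∈ range N, w a • (⇑U)^[a] h‖ ^ 2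
      ≤ N * (2 * ∑ d ∈ range N, ‖⟪h, (⇑U)^[d] h⟫_ℂ‖) := by
    intro N
    have h1 : ‖∑ a ∈ range N, w a • (⇑U)^[a] h‖ ^ 2
        = ‖⟪∑ a ∈ range N, w a • (⇑U)^[a] h, ∑ b ∈ range N, w b • (⇑U)^[b] h⟫_ℂ‖ := by
      rw [inner_self_eq_norm_sq_to_K]
      simp
    rw [h1, sum_inner]
    refine (norm_sum_le _ _).trans ?_
    have h2 : ∀ a ∈ range N, ‖⟪w a • (⇑U)^[a] h, ∑ b ∈ range N, w b • (⇑U)^[b] h⟫_ℂ‖
        ≤ 2 * ∑ d ∈ range N, ‖⟪h, (⇑U)^[d] h⟫_ℂ‖ := by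
      intro a ha
      rw [inner_sum]
      refine (norm_sum_le _ _).trans ?_
      have h3 : ∀ b ∈ range N, ‖⟪w a • (⇑U)^[a] h, w b • (⇑U)^[b] h⟫_ℂ‖
          ≤ ‖⟪h, (⇑U)^[(a - b) + (b - a)] h⟫_ℂ‖ := by
        intro b _
        rw [inner_smul_left, inner_smul_right, norm_mul, norm_mul, RCLike.norm_conj, ← hcorr a b]
        have h4 := hw a
        have h5 := hw b
        calc ‖w a‖ * (‖w b‖ * ‖⟪(⇑U)^[a] h, (⇑U)^[b] h⟫_ℂ‖)
            ≤ 1 * (1 * ‖⟪(⇑U)^[a] h, (⇑U)^[b] h⟫_ℂ‖) := by gcongr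
          _ = _ := by ring
      refine (Finset.sum_le_sum h3).trans ?_
      exact dist_sum (fun d => ‖⟪h, (⇑U)^[d] h⟫_ℂ‖) (fun d => norm_nonneg _) N a
        (Finset.mem_range.mp ha)
    refine (Finset.sum_le_sum h2).trans ?_
    rw [Finset.sum_const, card_range, nsmul_eq_mul]
  have hsq2 : Tendsto (fun N : ℕ => (‖∑ a ∈ range N, w a • (⇑U)^[a] h‖ / N) ^ 2) atTop (𝓝 0) := by
    have h1 := hc.const_mul 2
    rw [mul_zero] at h1
    refine squeeze_zero (fun _ => sq_nonneg _) (fun N => ?_) h1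
    rcases Nat.eq_zero_or_pos N with rfl | hN
    · simp
    have hN' : (0:ℝ) < N := by exact_mod_cast hN
    rw [div_pow, div_le_iff₀ (by positivity)]
    refine (hsq N).trans (le_of_eq ?_)
    field_simp
  have h2 := hsq2.sqrt
  rw [Real.sqrt_zero] at h2
  refine h2.congr fun N => ?_
  rw [Real.sqrt_sq (by positivity)]

end hilbertAvg

section ap

variable {Ω : Type*} [MeasurableSpace Ω] {ν : Measure Ω}

/-- vectors which almost return whenever a suitable set returns -/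
def AP {V : Ω → Ω} (hV : MeasurePreserving V ν ν) (x : Lp ℂ 2 ν) : Prop :=
  ∀ B₀ : Set Ω, MeasurableSet B₀ → ν B₀ ≠ 0 → ∀ ε : ℝ, 0 < ε →
    ∃ B : Set Ω, B ⊆ B₀ ∧ MeasurableSet B ∧ ν B ≠ 0 ∧
      ∀ i : ℕ, ν (B ∩ V^[i] ⁻¹' B) ≠ 0 → ‖(⇑(koop ℂ hV))^[i] x - x‖ ≤ ε

lemma AP.add {V : Ω → Ω} {hV : MeasurePreserving V ν ν} {x y : Lp ℂ 2 ν} (hx : AP hV x)
    (hy : AP hV y) : AP hV (x + y) := by
  intro B₀ hB₀ hν ε hε
  obtain ⟨B1, hB1, hB1m, hB1ν, h1⟩ := hx B₀ hB₀ hν (ε / 2) (by positivity)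
  obtain ⟨B2, hB2, hB2m, hB2ν, h2⟩ := hy B1 hB1m hB1ν (ε / 2) (by positivity)
  refine ⟨B2, hB2.trans hB1, hB2m, hB2ν, fun i hi => ?_⟩
  have h3 : ν (B1 ∩ V^[i] ⁻¹' B1) ≠ 0 := by
    intro h0
    apply hi
    refine measure_mono_null ?_ h0
    exact Set.inter_subset_inter hB2 (Set.preimage_mono hB2)
  have h4 := h1 i h3
  have h5 := h2 i hi
  have h6 : (⇑(koop ℂ hV))^[i] (x + y) - (x + y)
      = ((⇑(koop ℂ hV))^[i] x - x) + ((⇑(koop ℂ hV))^[i] y - y) := by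
    rw [iter_add']
    abel
  rw [h6]
  refine (norm_add_le _ _).trans ?_
  linarith

lemma AP.smul {V : Ω → Ω} {hV : MeasurePreserving V ν ν} {x : Lp ℂ 2 ν} (hx : AP hV x)
    (c : ℂ) : AP hV (c • x) := by
  intro B₀ hB₀ hν ε hε
  obtain ⟨B1, hB1, hB1m, hB1ν, h1⟩ := hx B₀ hB₀ hν (ε / (‖c‖ + 1)) (by positivity)
  refine ⟨B1, hB1, hB1m, hB1ν, fun i hi => ?_⟩
  rw [iter_smul, ← smul_sub, norm_smul]
  calc ‖c‖ * ‖(⇑(koop ℂ hV))^[i] x - x‖ ≤ (‖c‖ + 1) * (ε / (‖c‖ + 1)) := by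
        gcongr
        · linarith
        · exact h1 i hi
    _ = ε := by field_simp

lemma AP.zero {V : Ω → Ω} (hV : MeasurePreserving V ν ν) : AP hV (0 : Lp ℂ 2 ν) := by
  intro B₀ hB₀ hν ε hε
  refine ⟨B₀, subset_rfl, hB₀, hν, fun i _ => ?_⟩
  have : (⇑(koop ℂ hV))^[i] (0 : Lp ℂ 2 ν) = 0 := by
    rw [← norm_eq_zero, norm_iter, norm_zero]
  rw [this, sub_zero, norm_zero]
  exact hε.le

lemma AP.closed {V : Ω → Ω} {hV : MeasurePreserving V ν ν} {x : Lp ℂ 2 ν}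
    (hx : ∀ ε : ℝ, 0 < ε → ∃ y, AP hV y ∧ ‖x - y‖ ≤ ε) : AP hV x := by
  intro B₀ hB₀ hν ε hε
  obtain ⟨y, hy, hxy⟩ := hx (ε / 3) (by positivity)
  obtain ⟨B1, hB1, hB1m, hB1ν, h1⟩ := hy B₀ hB₀ hν (ε / 3) (by positivity)
  refine ⟨B1, hB1, hB1m, hB1ν, fun i hi => ?_⟩
  have h2 : (⇑(koop ℂ hV))^[i] x - x = (⇑(koop ℂ hV))^[i] (x - y) +
      ((⇑(koop ℂ hV))^[i] y - y) - (x - y) := by
    rw [iter_sub]
    abel
  rw [h2]
  have h3 := h1 i hi
  calc _ ≤ ‖(⇑(koop ℂ hV))^[i] (x - y)‖ + ‖(⇑(koop ℂ hV))^[i] y - y‖ + ‖x - y‖ :=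
        (norm_sub_le _ _).trans (add_le_add (norm_add_le _ _) le_rfl)
    _ ≤ ε := by
        rw [norm_iter]
        linarith

lemma AP.eigen [IsProbabilityMeasure ν] {V : Ω → Ω} (hV : Ergodic V ν) (z : ℂ) (φ : Lp ℂ 2 ν)
    (hφ : koop ℂ hV.toMeasurePreserving φ = z • φ) : AP hV.toMeasurePreserving φ := by
  by_cases hφ0 : φ = 0
  · rw [hφ0]
    exact AP.zero _
  have hn : ‖φ‖ ≠ 0 := norm_ne_zero_iff.mpr hφ0
  have hz : ‖z‖ = 1 := by
    have h1 := (koop ℂ hV.toMeasurePreserving).norm_map φ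
    rw [hφ, norm_smul] at h1
    exact mul_right_cancel₀ hn (by rw [h1, one_mul])
  have hit : ∀ i, (⇑(koop ℂ hV.toMeasurePreserving))^[i] φ = z ^ i • φ := by
    intro i
    induction i with
    | zero => simp
    | succ i ih =>
      rw [Function.iterate_succ_apply', ih, map_smul, hφ, smul_smul, pow_succ]
  have hφm : Measurable (φ : Ω → ℂ) := (Lp.stronglyMeasurable φ).measurable
  have hae : ∀ i, ∀ᵐ x ∂ν, φ (V^[i] x) = z ^ i * φ x := by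
    intro i
    have h1 := koop_iter_ae hV.toMeasurePreserving i φ
    rw [hit i] at h1
    filter_upwards [h1, Lp.coeFn_smul (z ^ i) φ] with x hx1 hx2
    rw [← hx1, hx2]
    rfl
  -- constant modulus
  obtain ⟨c, hc⟩ : ∃ c : ℝ, (fun x => ‖φ x‖) =ᵐ[ν] fun _ => c := by
    refine hV.ae_eq_const_of_ae_eq_comp_ae hφm.norm.aestronglyMeasurable ?_
    filter_upwards [hae 1] with x hx
    show ‖φ (V x)‖ = ‖φ x‖
    have hx' : φ (V x) = z ^ 1 * φ x := hx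
    rw [hx', norm_mul, norm_pow, hz]
    simp
  have hnorm : ‖φ‖ ≤ c := by
    have hc0 : 0 ≤ c := by
      obtain ⟨x, hx⟩ := hc.exists
      have hx' : ‖φ x‖ = c := hx
      rw [← hx']
      exact norm_nonneg _
    have h1 := Lp.norm_le_of_ae_bound (f := φ) hc0 (by
      filter_upwards [hc] with x hx
      exact hx.le)
    have h2 : measureUnivNNReal ν = 1 := by
      rw [measureUnivNNReal]
      simp
    rw [h2] at h1
    simpa using h1
  intro B₀ hB₀ hν ε hε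
  -- localisation
  obtain ⟨n, hnB⟩ : ∃ n : ℕ, ν (B₀ ∩ φ ⁻¹' (Metric.ball (TopologicalSpace.denseSeq ℂ n)
      (ε / 2))) ≠ 0 := by
    by_contra hcon
    push Not at hcon
    apply hν
    have h1 : B₀ ⊆ ⋃ n, (B₀ ∩ φ ⁻¹' (Metric.ball (TopologicalSpace.denseSeq ℂ n) (ε / 2))) := by
      intro x hx
      obtain ⟨n, hn⟩ := (TopologicalSpace.denseRange_denseSeq ℂ).exists_dist_lt (φ x)
        (show 0 < ε / 2 by positivity)
      exact Set.mem_iUnion.mpr ⟨n, hx, hn⟩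
    exact measure_mono_null h1 (measure_iUnion_null hcon)
  refine ⟨_, Set.inter_subset_left, hB₀.inter (hφm Metric.isOpen_ball.measurableSet), hnB,
    fun i hi => ?_⟩
  set B := B₀ ∩ φ ⁻¹' (Metric.ball (TopologicalSpace.denseSeq ℂ n) (ε / 2)) with hBdef
  have h1 : ∃ x, x ∈ B ∩ V^[i] ⁻¹' B ∧ φ (V^[i] x) = z ^ i * φ x ∧ ‖φ x‖ = c := by
    by_contra hcon
    push Not at hcon
    apply hi
    have h2 : ∀ᵐ x ∂ν, x ∉ B ∩ V^[i] ⁻¹' B := by
      filter_upwards [hae i, hc] with x hx1 hx2 hx3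
      exact hcon x hx3 hx1 hx2
    exact measure_eq_zero_iff_ae_notMem.mpr h2
  obtain ⟨x, ⟨hx1, hx2⟩, hx3, hx4⟩ := h1
  have h3 : ‖z ^ i - 1‖ * c ≤ ε := by
    have h4 : (z ^ i - 1) * φ x = φ (V^[i] x) - φ x := by
      rw [hx3]
      ring
    rw [← hx4, ← norm_mul, h4]
    have h5 : dist (φ x) (TopologicalSpace.denseSeq ℂ n) < ε / 2 := hx1.2
    have h6 : dist (φ (V^[i] x)) (TopologicalSpace.denseSeq ℂ n) < ε / 2 := hx2.2
    rw [← dist_eq_norm]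
    have := dist_triangle_right (φ (V^[i] x)) (φ x) (TopologicalSpace.denseSeq ℂ n)
    linarith
  rw [hit i]
  have h7 : z ^ i • φ - φ = (z ^ i - 1) • φ := by rw [sub_smul, one_smul]
  rw [h7, norm_smul]
  exact (mul_le_mul_of_nonneg_left hnorm (norm_nonneg _)).trans h3

end ap

end Pool.NC3
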