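import Mathlib

open Filter Topology Finset
open scoped InnerProductSpace

namespace Pool.NC3

section ulim

/-- limit along an ultrafilter (junk value when there is no limit) -/
noncomputable def ulim (U : Ultrafilter ℕ) (F : ℕ → ℂ) : ℂ :=
  limUnder (U : Filter ℕ) F

lemma tendsto_ulim (U : Ultrafilter ℕ) (F : ℕ → ℂ) (C : ℝ) (hF : ∀ n, ‖F n‖ ≤ C) :
    Tendsto F (U : Filter ℕ) (𝓝 (ulim U F)) := by
  have h1 : ((U.map F : Ultrafilter ℂ) : Filter ℂ) ≤ 𝓟 (Metric.closedBall (0:ℂ) C) := by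
    rw [le_principal_iff]
    show F ⁻¹' (Metric.closedBall (0:ℂ) C) ∈ U
    have : F ⁻¹' (Metric.closedBall (0:ℂ) C) = Set.univ := by
      ext n
      simp [hF n]
    rw [this]
    exact Filter.univ_mem
  obtain ⟨L, _, hL⟩ := (isCompact_closedBall (0:ℂ) C).ultrafilter_le_nhds (U.map F) h1
  have h2 : Tendsto F (U : Filter ℕ) (𝓝 L) := hL
  exact tendsto_nhds_limUnder ⟨L, h2⟩

end ulim

variable {H : Type*} [NormedAddCommGroup H] [InnerProductSpace ℂ H]

/-- averaged rank one form of a sequence `u` -/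
noncomputable def bform (u : ℕ → H) (K : ℕ) (x y : H) : ℂ :=
  (K:ℂ)⁻¹ * ∑ k ∈ range K, ⟪x, u k⟫_ℂ * ⟪u k, y⟫_ℂ

lemma bform_add_left (u : ℕ → H) (K : ℕ) (x x' y : H) :
    bform u K (x + x') y = bform u K x y + bform u K x' y := by
  unfold bform
  rw [← mul_add, ← Finset.sum_add_distrib]
  congr 1
  refine Finset.sum_congr rfl fun k _ => ?_
  rw [inner_add_left, add_mul]

lemma bform_add_right (u : ℕ → H) (K : ℕ) (x y y' : H) :
    bform u K x (y + y') = bform u K x y + bform u K x y' := by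
  unfold bform
  rw [← mul_add, ← Finset.sum_add_distrib]
  congr 1
  refine Finset.sum_congr rfl fun k _ => ?_
  rw [inner_add_right, mul_add]

lemma bform_smul_left (u : ℕ → H) (K : ℕ) (c : ℂ) (x y : H) :
    bform u K (c • x) y = (starRingEnd ℂ) c * bform u K x y := by
  unfold bform
  rw [mul_left_comm]
  congr 1
  rw [Finset.mul_sum]
  refine Finset.sum_congr rfl fun k _ => ?_
  rw [inner_smul_left, mul_assoc]

lemma bform_smul_right (u : ℕ → H) (K : ℕ) (c : ℂ) (x y : H) :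
    bform u K x (c • y) = c * bform u K x y := by
  unfold bform
  rw [mul_left_comm]
  congr 1
  rw [Finset.mul_sum]
  refine Finset.sum_congr rfl fun k _ => ?_
  rw [inner_smul_right]
  ring

lemma norm_bform_le (u : ℕ → H) (c : ℝ) (hu : ∀ k, ‖u k‖ = c) (K : ℕ) (x y : H) :
    ‖bform u K x y‖ ≤ c ^ 2 * ‖x‖ * ‖y‖ := by
  have hc : 0 ≤ c := by rw [← hu 0]; exact norm_nonneg _
  unfold bform
  rw [norm_mul, norm_inv]
  rcases Nat.eq_zero_or_pos K with rfl | hK
  · simp
    positivity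
  have hK' : (0:ℝ) < K := by exact_mod_cast hK
  have h1 : ‖∑ k ∈ range K, ⟪x, u k⟫_ℂ * ⟪u k, y⟫_ℂ‖ ≤ ∑ k ∈ range K, c ^ 2 * ‖x‖ * ‖y‖ := by
    refine (norm_sum_le _ _).trans (Finset.sum_le_sum fun k _ => ?_)
    rw [norm_mul]
    calc ‖⟪x, u k⟫_ℂ‖ * ‖⟪u k, y⟫_ℂ‖ ≤ (‖x‖ * ‖u k‖) * (‖u k‖ * ‖y‖) :=
          mul_le_mul (norm_inner_le_norm _ _) (norm_inner_le_norm _ _) (norm_nonneg _)
            (by positivity)
      _ = c ^ 2 * ‖x‖ * ‖y‖ := by rw [hu k]; ring
  rw [Finset.sum_const, card_range, nsmul_eq_mul] at h1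
  have h2 : ‖(K:ℂ)‖ = (K:ℝ) := by simp
  rw [h2]
  calc (K:ℝ)⁻¹ * ‖∑ k ∈ range K, ⟪x, u k⟫_ℂ * ⟪u k, y⟫_ℂ‖
      ≤ (K:ℝ)⁻¹ * (K * (c ^ 2 * ‖x‖ * ‖y‖)) := by gcongr
    _ = c ^ 2 * ‖x‖ * ‖y‖ := by field_simp

section trace

variable [CompleteSpace H]

omit [CompleteSpace H] in
/-- a positive symmetric operator whose quadratic form is at most `ε` has norm at most `ε` -/
lemma norm_apply_le_of_form_le (B : H →L[ℂ] H)
    (hsym : ∀ x y, ⟪B x, y⟫_ℂ = ⟪x, B y⟫_ℂ) (hpos : ∀ x, 0 ≤ (⟪x, B x⟫_ℂ).re)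
    (ε : ℝ) (hle : ∀ x, (⟪x, B x⟫_ℂ).re ≤ ε * ‖x‖ ^ 2) (y : H) :
    ‖B y‖ ≤ ε * ‖y‖ := by
  by_cases hy : B y = 0
  · rw [hy, norm_zero]
    have h1 := hle y
    have h2 := hpos y
    by_cases hy0 : ‖y‖ = 0
    · rw [hy0]; simp
    · have hy1 : 0 < ‖y‖ := lt_of_le_of_ne (norm_nonneg _) (Ne.symm hy0)
      have h3 : 0 ≤ ε * ‖y‖ ^ 2 := h2.trans h1
      have h4 : 0 ≤ ε := by
        by_contra hneg
        push Not at hneg
        have : ε * ‖y‖ ^ 2 < 0 := mul_neg_of_neg_of_pos hneg (by positivity)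
        linarith
      positivity
  · have hBy : 0 < ‖B y‖ := norm_pos_iff.mpr hy
    have hy0 : y ≠ 0 := by
      rintro rfl
      exact hy (map_zero B)
    have hyn : 0 < ‖y‖ := norm_pos_iff.mpr hy0
    set r : ℝ := ‖y‖ / ‖B y‖ with hr
    set x : H := (r : ℂ) • B y with hx
    have hxn : ‖x‖ = ‖y‖ := by
      rw [hx, norm_smul, Complex.norm_real, Real.norm_eq_abs, abs_of_nonneg (by positivity), hr]
      field_simp
    have hre : (⟪x, B y⟫_ℂ).re = ‖y‖ * ‖B y‖ := by
      rw [hx, inner_smul_left, Complex.conj_ofReal, Complex.re_ofReal_mul]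
      have : (⟪B y, B y⟫_ℂ).re = ‖B y‖ ^ 2 := by
        have := inner_self_eq_norm_sq (𝕜 := ℂ) (B y)
        simpa using this
      rw [this, hr]
      field_simp
    have h4 : 4 * (⟪x, B y⟫_ℂ).re
        = (⟪x + y, B (x + y)⟫_ℂ).re - (⟪x - y, B (x - y)⟫_ℂ).re := by
      have e1 : (⟪y, B x⟫_ℂ).re = (⟪x, B y⟫_ℂ).re := by
        rw [← hsym y x]
        have := inner_conj_symm (𝕜 := ℂ) (B y) x
        rw [← this, Complex.conj_re]
      rw [map_add, map_sub, inner_add_left, inner_add_right, inner_add_right, inner_sub_left,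
        inner_sub_right, inner_sub_right]
      simp only [Complex.add_re, Complex.sub_re]
      rw [e1]
      ring
    have h5 := hle (x + y)
    have h6 := hpos (x - y)
    have h7 : ‖x + y‖ ≤ 2 * ‖y‖ := by
      calc ‖x + y‖ ≤ ‖x‖ + ‖y‖ := norm_add_le _ _
        _ = 2 * ‖y‖ := by rw [hxn]; ring
    have hε : 0 ≤ ε := by
      by_contra hneg
      push Not at hneg
      have h8 := hle y
      have h9 := hpos y
      have : ε * ‖y‖ ^ 2 < 0 := mul_neg_of_neg_of_pos hneg (by positivity)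
      linarith
    have h8 : ‖x + y‖ ^ 2 ≤ (2 * ‖y‖) ^ 2 := by gcongr
    have h9 : 4 * (‖y‖ * ‖B y‖) ≤ ε * (2 * ‖y‖) ^ 2 := by
      rw [← hre, h4]
      have := mul_le_mul_of_nonneg_left h8 hε
      linarith
    have h10 : ‖y‖ * ‖B y‖ ≤ ‖y‖ * (ε * ‖y‖) := by nlinarith
    exact le_of_mul_le_mul_left h10 hyn

/-- a positive symmetric operator with finite trace is compact -/
lemma isCompact_of_trace (A : H →L[ℂ] H)
    (hsym : ∀ x y, ⟪A x, y⟫_ℂ = ⟪x, A y⟫_ℂ) (hpos : ∀ x, 0 ≤ (⟪x, A x⟫_ℂ).re)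
    (C : ℝ) (htr : ∀ (n : ℕ) (e : Fin n → H), Orthonormal ℂ e →
      ∑ i, (⟪e i, A (e i)⟫_ℂ).re ≤ C) :
    IsCompactOperator A := by
  have key : ∀ ε : ℝ, 0 < ε → ∃ A' : H →L[ℂ] H, IsCompactOperator A' ∧ ‖A - A'‖ ≤ ε := by
    intro ε hε
    let S : Set ℕ := {n | ∃ e : Fin n → H, Orthonormal ℂ e ∧ ∀ i, ε ≤ (⟪e i, A (e i)⟫_ℂ).re}
    have hS0 : 0 ∈ S := ⟨fun i => i.elim0, ⟨fun i => i.elim0, fun i => i.elim0⟩, fun i => i.elim0⟩
    have hSb : ∀ n ∈ S, (n:ℝ) ≤ C / ε := by
      rintro n ⟨e, he, hle⟩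
      have h1 := htr n e he
      have h2 : ∑ _i : Fin n, ε ≤ ∑ i, (⟪e i, A (e i)⟫_ℂ).re :=
        Finset.sum_le_sum fun i _ => hle i
      rw [Finset.sum_const, card_univ, Fintype.card_fin, nsmul_eq_mul] at h2
      rw [le_div_iff₀ hε]
      linarith
    have hSbdd : BddAbove S := by
      refine ⟨⌈C / ε⌉₊, fun n hn => ?_⟩
      have := (hSb n hn).trans (Nat.le_ceil (C / ε))
      exact_mod_cast this
    have hmax := Nat.sSup_mem ⟨0, hS0⟩ hSbdd
    set n := sSup S with hn
    obtain ⟨e, he, hle⟩ := hmax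
    let E : Submodule ℂ H := Submodule.span ℂ (Set.range e)
    have : FiniteDimensional ℂ E := FiniteDimensional.span_of_finite ℂ (Set.finite_range e)
    -- on the orthogonal complement the form is small
    have hsmall : ∀ x ∈ Eᗮ, (⟪x, A x⟫_ℂ).re ≤ ε * ‖x‖ ^ 2 := by
      intro x hx
      by_contra hcon
      push Not at hcon
      have hx0 : x ≠ 0 := by
        rintro rfl
        simp at hcon
      have hxn : 0 < ‖x‖ := norm_pos_iff.mpr hx0
      set z : H := ((‖x‖⁻¹ : ℝ) : ℂ) • x with hz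
      have hzn : ‖z‖ = 1 := by
        rw [hz, norm_smul, Complex.norm_real, Real.norm_eq_abs, abs_of_nonneg (by positivity)]
        field_simp
      have hzform : ε ≤ (⟪z, A z⟫_ℂ).re := by
        rw [hz, map_smul, inner_smul_left, inner_smul_right, Complex.conj_ofReal,
          Complex.re_ofReal_mul, Complex.re_ofReal_mul]
        have h1 : ‖x‖⁻¹ * (‖x‖⁻¹ * (ε * ‖x‖ ^ 2)) = ε := by field_simp
        calc ε = ‖x‖⁻¹ * (‖x‖⁻¹ * (ε * ‖x‖ ^ 2)) := h1.symm
          _ ≤ ‖x‖⁻¹ * (‖x‖⁻¹ * (⟪x, A x⟫_ℂ).re) := by gcongr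
      have hzE : ∀ i, ⟪z, e i⟫_ℂ = 0 := by
        intro i
        rw [hz, inner_smul_left]
        have h1 : ⟪e i, x⟫_ℂ = 0 := (Submodule.mem_orthogonal E x).mp hx (e i)
          (Submodule.subset_span (Set.mem_range_self i))
        have h2 : ⟪x, e i⟫_ℂ = 0 := by
          rw [← inner_conj_symm, h1, map_zero]
        rw [h2, mul_zero]
      have hmem : n + 1 ∈ S := by
        refine ⟨Fin.cons z e, ⟨?_, ?_⟩, ?_⟩
        · intro i
          refine Fin.cases ?_ (fun j => ?_) i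
          · simpa using hzn
          · simpa using he.1 j
        · intro i j hij
          induction i using Fin.cases with
          | zero =>
            induction j using Fin.cases with
            | zero => exact absurd rfl hij
            | succ j => simpa using hzE j
          | succ i =>
            induction j using Fin.cases with
            | zero =>
              simp only [Fin.cons_succ, Fin.cons_zero]
              rw [← inner_conj_symm, hzE i, map_zero]
            | succ j =>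
              simp only [Fin.cons_succ]
              exact he.2 (fun h => hij (by rw [h]))
        · intro i
          refine Fin.cases ?_ (fun j => ?_) i
          · simpa using hzform
          · simpa using hle j
      have := le_csSup hSbdd hmem
      omega
    -- projections
    let P : H →L[ℂ] H := E.starProjection
    let Q : H →L[ℂ] H := ContinuousLinearMap.id ℂ H - P
    have hQmem : ∀ x, Q x ∈ Eᗮ := by
      intro x
      have : Q x = x - E.starProjection x := rfl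
      rw [this]
      exact E.sub_starProjection_mem_orthogonal x
    have hPsym : ∀ x y, ⟪P x, y⟫_ℂ = ⟪x, P y⟫_ℂ := fun x y => E.inner_starProjection_left_eq_right x y
    have hQsym : ∀ x y, ⟪Q x, y⟫_ℂ = ⟪x, Q y⟫_ℂ := by
      intro x y
      show ⟪x - P x, y⟫_ℂ = ⟪x, y - P y⟫_ℂ
      rw [inner_sub_left, inner_sub_right, hPsym]
    have hQn : ∀ x, ‖Q x‖ ≤ ‖x‖ := by
      intro x
      have h1 : ‖Q x‖ ^ 2 = (⟪x, Q x⟫_ℂ).re := by
        have hQQ : Q (Q x) = Q x := by
          show Q x - P (Q x) = Q x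
          have : P (Q x) = 0 := by
            show E.starProjection (Q x) = 0
            rw [Submodule.starProjection_apply_eq_zero_iff]
            exact hQmem x
          rw [this, sub_zero]
        have h2 := inner_self_eq_norm_sq (𝕜 := ℂ) (Q x)
        have h3 : ⟪x, Q x⟫_ℂ = ⟪Q x, Q x⟫_ℂ := by
          rw [hQsym x (Q x), hQQ]
        rw [h3]
        simpa using h2.symm
      have h2 : (⟪x, Q x⟫_ℂ).re ≤ ‖x‖ * ‖Q x‖ :=
        (Complex.re_le_norm _).trans (norm_inner_le_norm _ _)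
      by_contra hcon
      push Not at hcon
      have h0 : 0 < ‖Q x‖ := lt_of_le_of_lt (norm_nonneg _) hcon
      nlinarith
    let B : H →L[ℂ] H := Q.comp (A.comp Q)
    have hBn : ‖B‖ ≤ ε := by
      refine ContinuousLinearMap.opNorm_le_bound _ hε.le fun y => ?_
      refine norm_apply_le_of_form_le B ?_ ?_ ε ?_ y
      · intro x y
        show ⟪Q (A (Q x)), y⟫_ℂ = ⟪x, Q (A (Q y))⟫_ℂ
        rw [hQsym, hsym, hQsym]
      · intro x
        show 0 ≤ (⟪x, Q (A (Q x))⟫_ℂ).re
        rw [← hQsym]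
        exact hpos _
      · intro x
        show (⟪x, Q (A (Q x))⟫_ℂ).re ≤ _
        rw [← hQsym]
        refine (hsmall (Q x) (hQmem x)).trans ?_
        have := hQn x
        gcongr
    refine ⟨A - B, ?_, ?_⟩
    · -- A - B = P A + Q A P
      have hP : IsCompactOperator P := by
        have h1 : IsCompactOperator (E.orthogonalProjectionOnto : H →L[ℂ] E) :=
          isCompactOperator_of_locallyCompactSpace_dom
            (E.orthogonalProjectionOnto : H →L[ℂ] E)
        exact h1.clm_comp E.subtypeL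
      have h1 : IsCompactOperator (P.comp A) := hP.comp_clm A
      have h2 : IsCompactOperator ((Q.comp A).comp P) := hP.clm_comp (Q.comp A)
      have h3 : (A - B : H →L[ℂ] H) = P.comp A + (Q.comp A).comp P := by
        ext x
        show A x - Q (A (Q x)) = P (A x) + Q (A (P x))
        have e1 : P x = x - Q x := by
          show P x = x - (x - P x)
          abel
        have e2 : P (A x) = A x - Q (A x) := by
          show P (A x) = A x - (A x - P (A x))
          abel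
        rw [e1, e2, map_sub, map_sub]
        abel
      rw [h3]
      exact h1.add h2
    · have : A - (A - B) = B := by abel
      rw [this]
      exact hBn
  choose A' hA'c hA'n using fun n : ℕ => key ((n + 1 : ℝ)⁻¹) (by positivity)
  have hlim : Tendsto A' atTop (𝓝 A) := by
    rw [tendsto_iff_norm_sub_tendsto_zero]
    refine squeeze_zero (fun _ => norm_nonneg _) (fun n => ?_)
      (tendsto_one_div_add_atTop_nhds_zero_nat (𝕜 := ℝ))
    rw [norm_sub_rev, one_div]
    exact hA'n n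
  exact isCompactOperator_of_tendsto hlim (Eventually.of_forall hA'c)

end trace

section kvn

variable [CompleteSpace H]

omit [CompleteSpace H] in
lemma bform_hermitian (u : ℕ → H) (K : ℕ) (x y : H) :
    (starRingEnd ℂ) (bform u K x y) = bform u K y x := by
  unfold bform
  rw [map_mul, map_inv₀, Complex.conj_natCast, map_sum]
  congr 1
  refine Finset.sum_congr rfl fun k _ => ?_
  rw [map_mul, inner_conj_symm, inner_conj_symm, mul_comm]

omit [CompleteSpace H] in
lemma bform_self (u : ℕ → H) (K : ℕ) (x : H) :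
    bform u K x x = (((K:ℝ)⁻¹ * ∑ k ∈ range K, ‖⟪x, u k⟫_ℂ‖ ^ 2 : ℝ) : ℂ) := by
  unfold bform
  push_cast
  congr 1
  refine Finset.sum_congr rfl fun k _ => ?_
  rw [← inner_conj_symm (u k) x]
  rw [RCLike.mul_conj]
  rfl

/-- the limit form as an operator -/
lemma exists_limit_operator (F : Ultrafilter ℕ) (u : ℕ → H) (c : ℝ) (hu : ∀ k, ‖u k‖ = c) :
    ∃ A : H →L[ℂ] H, ∀ x y, Tendsto (fun K => bform u K x y) (F : Filter ℕ) (𝓝 ⟪A x, y⟫_ℂ) := by
  have hc : 0 ≤ c := by rw [← hu 0]; exact norm_nonneg _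
  have hT : ∀ x y, Tendsto (fun K => bform u K x y) (F : Filter ℕ)
      (𝓝 (ulim F fun K => bform u K x y)) := fun x y =>
    tendsto_ulim F _ (c ^ 2 * ‖x‖ * ‖y‖) fun K => norm_bform_le u c hu K x y
  let B0 : H →ₗ⋆[ℂ] H →ₗ[ℂ] ℂ := LinearMap.mk₂'ₛₗ (starRingEnd ℂ) (RingHom.id ℂ)
    (fun x y => ulim F fun K => bform u K x y)
    (by
      intro x x' y
      refine tendsto_nhds_unique (hT (x + x') y) ?_
      refine ((hT x y).add (hT x' y)).congr fun K => ?_
      rw [bform_add_left])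
    (by
      intro c x y
      refine tendsto_nhds_unique (hT (c • x) y) ?_
      refine ((hT x y).const_mul ((starRingEnd ℂ) c)).congr fun K => ?_
      rw [bform_smul_left])
    (by
      intro x y y'
      refine tendsto_nhds_unique (hT x (y + y')) ?_
      refine ((hT x y).add (hT x y')).congr fun K => ?_
      rw [bform_add_right])
    (by
      intro c x y
      refine tendsto_nhds_unique (hT x (c • y)) ?_
      refine ((hT x y).const_mul c).congr fun K => ?_
      rw [bform_smul_right])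
  have hB0 : ∀ x y, B0 x y = ulim F fun K => bform u K x y := fun x y => rfl
  have hbd : ∀ x y, ‖B0 x y‖ ≤ c ^ 2 * ‖x‖ * ‖y‖ := by
    intro x y
    rw [hB0]
    exact le_of_tendsto (hT x y).norm (Eventually.of_forall fun K => norm_bform_le u c hu K x y)
  let B1 : H →L⋆[ℂ] H →L[ℂ] ℂ := B0.mkContinuous₂ (c ^ 2) hbd
  refine ⟨InnerProductSpace.continuousLinearMapOfBilin B1, fun x y => ?_⟩
  rw [InnerProductSpace.continuousLinearMapOfBilin_apply]
  exact hT x y

/-- Koopman - von Neumann: a vector orthogonal to all eigenvectors of an isometry has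
correlations which vanish in quadratic mean. -/
theorem kvn (U : H →ₗᵢ[ℂ] H) (h : H)
    (hort : ∀ (z : ℂ) (φ : H), U φ = z • φ → ⟪φ, h⟫_ℂ = 0) :
    Tendsto (fun K : ℕ => (K:ℝ)⁻¹ * ∑ k ∈ range K, ‖⟪h, (⇑U)^[k] h⟫_ℂ‖ ^ 2) atTop (𝓝 0) := by
  by_contra hcon
  set u : ℕ → H := fun k => (⇑U)^[k] h with hudef
  have hu : ∀ k, ‖u k‖ = ‖h‖ := by
    intro k
    induction k with
    | zero => rfl
    | succ k ih =>
      rw [hudef]
      simp only [Function.iterate_succ_apply', U.norm_map]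
      exact ih
  have husucc : ∀ k, u (k + 1) = U (u k) := fun k => Function.iterate_succ_apply' _ _ _
  -- a frequently large average
  have h1 : ∃ ε : ℝ, 0 < ε ∧ ∃ᶠ K : ℕ in atTop,
      ε ≤ (K:ℝ)⁻¹ * ∑ k ∈ range K, ‖⟪h, u k⟫_ℂ‖ ^ 2 := by
    by_contra hne
    push Not at hne
    apply hcon
    rw [Metric.tendsto_nhds]
    intro ε hε
    have h2 := hne ε hε
    filter_upwards [h2] with K hK
    rw [dist_zero_right, Real.norm_eq_abs, abs_of_nonneg (by positivity)]
    exact hK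
  obtain ⟨ε, hε, hfreq⟩ := h1
  obtain ⟨F, hFtop, hF⟩ : ∃ F : Ultrafilter ℕ, (F : Filter ℕ) ≤ atTop ∧ ∀ᶠ K : ℕ in (F : Filter ℕ),
      ε ≤ (K:ℝ)⁻¹ * ∑ k ∈ range K, ‖⟪h, u k⟫_ℂ‖ ^ 2 := by
    have := Filter.frequently_iff_neBot.mp hfreq
    refine ⟨Ultrafilter.of (atTop ⊓ 𝓟 {K : ℕ | ε ≤ (K:ℝ)⁻¹ * ∑ k ∈ range K, ‖⟪h, u k⟫_ℂ‖ ^ 2}),
      (Ultrafilter.of_le _).trans inf_le_left, ?_⟩
    have h2 := (Ultrafilter.of_le
      (atTop ⊓ 𝓟 {K : ℕ | ε ≤ (K:ℝ)⁻¹ * ∑ k ∈ range K, ‖⟪h, u k⟫_ℂ‖ ^ 2})).trans inf_le_right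
    exact Filter.le_principal_iff.mp h2
  obtain ⟨A, hA⟩ := exists_limit_operator F u ‖h‖ hu
  -- symmetric, positive
  have hsym : ∀ x y, ⟪A x, y⟫_ℂ = ⟪x, A y⟫_ℂ := by
    intro x y
    have h2 := hA x y
    have h3 := (hA y x).star
    have h4 : (fun K => star (bform u K y x)) = fun K => bform u K x y := by
      funext K
      exact bform_hermitian u K y x
    rw [h4] at h3
    have h5 := tendsto_nhds_unique h2 h3
    rw [h5]
    exact inner_conj_symm x (A y)
  have hAre : ∀ x, Tendsto (fun K : ℕ => (K:ℝ)⁻¹ * ∑ k ∈ range K, ‖⟪x, u k⟫_ℂ‖ ^ 2)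
      (F : Filter ℕ) (𝓝 (⟪x, A x⟫_ℂ).re) := by
    intro x
    have h2 := (Complex.continuous_re.tendsto _).comp (hA x x)
    rw [← hsym x x]
    refine h2.congr fun K => ?_
    simp only [Function.comp]
    rw [bform_self, Complex.ofReal_re]
  have hpos : ∀ x, 0 ≤ (⟪x, A x⟫_ℂ).re := by
    intro x
    refine ge_of_tendsto (hAre x) (Eventually.of_forall fun K => by positivity)
  have htr : ∀ (n : ℕ) (e : Fin n → H), Orthonormal ℂ e →
      ∑ i, (⟪e i, A (e i)⟫_ℂ).re ≤ ‖h‖ ^ 2 := by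
    intro n e he
    refine le_of_tendsto (tendsto_finsetSum _ fun i _ => hAre (e i))
      (Eventually.of_forall fun K => ?_)
    rw [← Finset.mul_sum, Finset.sum_comm]
    have h2 : ∑ k ∈ range K, ∑ i : Fin n, ‖⟪e i, u k⟫_ℂ‖ ^ 2 ≤ ∑ _k ∈ range K, ‖h‖ ^ 2 := by
      refine Finset.sum_le_sum fun k _ => ?_
      have := he.sum_inner_products_le (s := Finset.univ) (u k)
      rw [hu k] at this
      exact this
    rw [Finset.sum_const, card_range, nsmul_eq_mul] at h2
    rcases Nat.eq_zero_or_pos K with rfl | hK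
    · simp
    · have hK' : (0:ℝ) < K := by exact_mod_cast hK
      calc (K:ℝ)⁻¹ * ∑ k ∈ range K, ∑ i : Fin n, ‖⟪e i, u k⟫_ℂ‖ ^ 2
          ≤ (K:ℝ)⁻¹ * (K * ‖h‖ ^ 2) := by gcongr
        _ = ‖h‖ ^ 2 := by field_simp
  have hcomp : IsCompactOperator A := isCompact_of_trace A hsym hpos _ htr
  have hA0 : A ≠ 0 := by
    rintro rfl
    have h2 := ge_of_tendsto (hAre h) hF
    simp at h2
    linarith
  -- commutation with U
  have hcomm : ∀ y, A (U y) = U (A y) := by
    intro y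
    refine ext_inner_left ℂ fun x => ?_
    let Us := ContinuousLinearMap.adjoint U.toContinuousLinearMap
    have hUs : ∀ a b, ⟪Us a, b⟫_ℂ = ⟪a, U b⟫_ℂ := fun a b =>
      ContinuousLinearMap.adjoint_inner_left U.toContinuousLinearMap b a
    have e1 : ⟪x, U (A y)⟫_ℂ = ⟪A (Us x), y⟫_ℂ := by
      rw [← hUs, hsym]
    have e2 : ⟪x, A (U y)⟫_ℂ = ⟪A x, U y⟫_ℂ := (hsym _ _).symm
    rw [e1, e2]
    refine tendsto_nhds_unique (hA x (U y)) ?_
    have h2 := hA (Us x) y
    have h3 : Tendsto (fun K => bform u K x (U y) - bform u K (Us x) y) (F : Filter ℕ) (𝓝 0) := by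
      refine Tendsto.mono_left ?_ hFtop
      have hdiff : ∀ K : ℕ, bform u K x (U y) - bform u K (Us x) y
          = (K:ℂ)⁻¹ * (⟪x, u 0⟫_ℂ * ⟪u 0, U y⟫_ℂ - ⟪x, u K⟫_ℂ * ⟪u K, U y⟫_ℂ) := by
        intro K
        unfold bform
        rw [← mul_sub]
        congr 1
        have h4 : ∀ k, ⟪Us x, u k⟫_ℂ * ⟪u k, y⟫_ℂ = ⟪x, u (k + 1)⟫_ℂ * ⟪u (k + 1), U y⟫_ℂ := by
          intro k
          rw [hUs, husucc, U.inner_map_map]
        simp_rw [h4]
        rw [← Finset.sum_sub_distrib]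
        exact Finset.sum_range_sub' (fun k => ⟪x, u k⟫_ℂ * ⟪u k, U y⟫_ℂ) K
      rw [tendsto_zero_iff_norm_tendsto_zero]
      refine squeeze_zero (g := fun K : ℕ => (K:ℝ)⁻¹ * (2 * ((‖x‖ * ‖h‖) * (‖h‖ * ‖U y‖))))
        (fun _ => norm_nonneg _) (fun K => ?_) ?_
      · rw [hdiff, norm_mul, norm_inv, Complex.norm_natCast]
        refine mul_le_mul_of_nonneg_left ?_ (by positivity)
        have h5 : ∀ k, ‖⟪x, u k⟫_ℂ * ⟪u k, U y⟫_ℂ‖ ≤ (‖x‖ * ‖h‖) * (‖h‖ * ‖U y‖) := by
          intro k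
          rw [norm_mul]
          have a1 := norm_inner_le_norm (𝕜 := ℂ) x (u k)
          have a2 := norm_inner_le_norm (𝕜 := ℂ) (u k) (U y)
          rw [hu k] at a1 a2
          exact mul_le_mul a1 a2 (norm_nonneg _) (by positivity)
        refine (norm_sub_le _ _).trans ?_
        have := h5 0
        have := h5 K
        linarith
      · have := tendsto_inv_atTop_nhds_zero_nat (𝕜 := ℝ)
        simpa using this.mul_const (2 * ((‖x‖ * ‖h‖) * (‖h‖ * ‖U y‖)))
    have h4 := h3.add h2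
    rw [zero_add] at h4
    refine h4.congr fun K => ?_
    ring
  -- a nonzero eigenvalue
  have hex : ∃ μ : ℂ, Module.End.HasEigenvalue (A : Module.End ℂ H) μ ∧ μ ≠ 0 := by
    by_contra hne
    push Not at hne
    exact hA0 ((ContinuousLinearMap.eq_zero_of_forall_hasEigenvalue_eq_zero hcomp
      (fun x y => hsym x y)).mp fun μ hμ => hne μ hμ)
  obtain ⟨α, hα, hα0⟩ := hex
  have hfin : FiniteDimensional ℂ (Module.End.eigenspace (A.toLinearMap) α) :=
    ContinuousLinearMap.finite_dimensional_eigenspace hcomp α hα0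
  set E := Module.End.eigenspace (A.toLinearMap) α with hE
  have hinv : ∀ x ∈ E, U.toLinearMap x ∈ E := by
    intro x hx
    rw [hE, Module.End.mem_eigenspace_iff] at hx ⊢
    have hx' : A x = α • x := hx
    show A (U x) = α • U x
    rw [hcomm, hx', map_smul]
  let R : Module.End ℂ E := U.toLinearMap.restrict hinv
  have hnt : Nontrivial E := by
    rw [Submodule.nontrivial_iff_ne_bot]
    exact hα
  obtain ⟨z, hz⟩ := Module.End.exists_eigenvalue R
  obtain ⟨φ, hφ⟩ := hz.exists_hasEigenvector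
  have hφ0 : (φ : H) ≠ 0 := by
    intro h0
    exact hφ.2 (Subtype.ext h0)
  have hUφ : U (φ : H) = z • (φ : H) := by
    have h2 := hφ.apply_eq_smul
    have h3 := congrArg (Subtype.val) h2
    exact h3
  have hz0 : z ≠ 0 := by
    rintro rfl
    rw [zero_smul] at hUφ
    apply hφ0
    exact U.injective (by rw [hUφ, map_zero])
  have hφu : ∀ k, ⟪(φ:H), u k⟫_ℂ = 0 := by
    intro k
    induction k with
    | zero => exact hort z _ hUφ
    | succ k ih =>
      have h2 := U.inner_map_map (φ:H) (u k)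
      rw [ih, hUφ, inner_smul_left, ← husucc] at h2
      rcases mul_eq_zero.mp h2 with h3 | h3
      · exact absurd ((map_eq_zero _).mp h3) hz0
      · exact h3
  have hAφ : ⟪A (φ:H), (φ:H)⟫_ℂ = 0 := by
    refine tendsto_nhds_unique (hA φ φ) ?_
    have h2 : (fun K => bform u K (φ:H) (φ:H)) = fun _ => (0:ℂ) := by
      funext K
      unfold bform
      rw [Finset.sum_eq_zero, mul_zero]
      intro k _
      rw [hφu k, zero_mul]
    rw [h2]
    exact tendsto_const_nhds
  have hAφ2 : A (φ:H) = α • (φ:H) := by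
    exact Module.End.mem_eigenspace_iff.mp φ.2
  rw [hAφ2, inner_smul_left] at hAφ
  rcases mul_eq_zero.mp hAφ with h3 | h3
  · exact hα0 ((map_eq_zero _).mp h3)
  · exact hφ0 (inner_self_eq_zero.mp h3)

end kvn

end Pool.NC3
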