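import Mathlib

open MeasureTheory Filter Topology Finset
open scoped InnerProductSpace ENNReal

namespace Pool.NC3

section hilbert

variable {H : Type*} [NormedAddCommGroup H] [InnerProductSpace ℝ H] [CompleteSpace H]

lemma norm_iter {𝕜 : Type*} [RCLike 𝕜] {G : Type*} [NormedAddCommGroup G] [InnerProductSpace 𝕜 G]
    (U : G →ₗᵢ[𝕜] G) (n : ℕ) (x : G) : ‖(⇑U)^[n] x‖ = ‖x‖ := by
  induction n with
  | zero => rfl
  | succ n ih => rw [Function.iterate_succ_apply', U.norm_map, ih]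

lemma iter_sub {𝕜 : Type*} [RCLike 𝕜] {G : Type*} [NormedAddCommGroup G] [InnerProductSpace 𝕜 G]
    (U : G →ₗᵢ[𝕜] G) (n : ℕ) (x y : G) :
    (⇑U)^[n] (x - y) = (⇑U)^[n] x - (⇑U)^[n] y := by
  induction n with
  | zero => rfl
  | succ n ih => simp only [Function.iterate_succ_apply', ih, map_sub]

lemma iter_add' {𝕜 : Type*} [RCLike 𝕜] {G : Type*} [NormedAddCommGroup G] [InnerProductSpace 𝕜 G]
    (U : G →ₗᵢ[𝕜] G) (n : ℕ) (x y : G) :
    (⇑U)^[n] (x + y) = (⇑U)^[n] x + (⇑U)^[n] y := by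
  induction n with
  | zero => rfl
  | succ n ih => simp only [Function.iterate_succ_apply', ih, map_add]

lemma iter_smul {𝕜 : Type*} [RCLike 𝕜] {G : Type*} [NormedAddCommGroup G] [InnerProductSpace 𝕜 G]
    (U : G →ₗᵢ[𝕜] G) (n : ℕ) (c : 𝕜) (x : G) :
    (⇑U)^[n] (c • x) = c • (⇑U)^[n] x := by
  induction n with
  | zero => rfl
  | succ n ih => simp only [Function.iterate_succ_apply', ih, map_smul]

lemma iter_sum {𝕜 : Type*} [RCLike 𝕜] {G : Type*} [NormedAddCommGroup G] [InnerProductSpace 𝕜 G]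
    (U : G →ₗᵢ[𝕜] G) (n : ℕ) {ι : Type*} (s : Finset ι) (x : ι → G) :
    (⇑U)^[n] (∑ i ∈ s, x i) = ∑ i ∈ s, (⇑U)^[n] (x i) := by
  induction n with
  | zero => rfl
  | succ n ih => simp only [Function.iterate_succ_apply', ih, map_sum]

/-- mean ergodic theorem along windows -/
theorem window_mean (U : H →ₗᵢ[ℝ] H) (x : H) :
    ∃ p : H, U p = p ∧ (∀ e, U e = e → ⟪e, x⟫_ℝ = ⟪e, p⟫_ℝ) ∧
      ∀ s : ℕ → ℕ, Tendsto (fun N : ℕ => (N:ℝ)⁻¹ • ∑ a ∈ range N, (⇑U)^[s N + a] x)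
        atTop (𝓝 p) := by
  have hU1 : ‖U.toContinuousLinearMap‖ ≤ 1 := U.norm_toContinuousLinearMap_le
  have h0 := U.toContinuousLinearMap.tendsto_birkhoffAverage_orthogonalProjection hU1 x
  set K := U.toContinuousLinearMap.eqLocus (1 : H →L[ℝ] H) with hK
  set p : K := K.orthogonalProjectionOnto x with hp
  have hfix : ∀ e, U e = e → e ∈ K := fun e he => he
  have hpfix : U (p : H) = p := p.2
  refine ⟨p, hpfix, ?_, ?_⟩
  · intro e he
    have h1 : ⟪e, x - (p : H)⟫_ℝ = 0 := by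
      have h2 := K.sub_starProjection_mem_orthogonal x
      exact (Submodule.mem_orthogonal K _).mp h2 e (hfix e he)
    rw [inner_sub_right] at h1
    linarith
  · intro s
    have hpit : ∀ n, (⇑U)^[n] (p : H) = p := fun n => Function.iterate_fixed hpfix n
    rw [tendsto_iff_norm_sub_tendsto_zero] at h0 ⊢
    refine h0.congr fun N => ?_
    have h1 : birkhoffAverage ℝ (⇑U.toContinuousLinearMap) _root_.id N x
        = (N:ℝ)⁻¹ • ∑ a ∈ range N, (⇑U)^[a] x := rfl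
    rw [h1]
    have h2 : (N:ℝ)⁻¹ • ∑ a ∈ range N, (⇑U)^[s N + a] x
        = (⇑U)^[s N] ((N:ℝ)⁻¹ • ∑ a ∈ range N, (⇑U)^[a] x) := by
      rw [iter_smul, iter_sum]
      congr 1
      refine Finset.sum_congr rfl fun a _ => ?_
      rw [Function.iterate_add_apply]
    rw [h2]
    conv_rhs => rw [← hpit (s N), ← iter_sub, norm_iter]

end hilbert

section bridge

variable {X : Type*} [MeasurableSpace X] {κ : Measure X}

/-- Koopman isometry -/
noncomputable abbrev koop (𝕜 : Type*) [RCLike 𝕜] {Z : X → X} (hZ : MeasurePreserving Z κ κ) :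
    Lp 𝕜 2 κ →ₗᵢ[𝕜] Lp 𝕜 2 κ := Lp.compMeasurePreservingₗᵢ 𝕜 Z hZ

lemma koop_iter_ae {𝕜 : Type*} [RCLike 𝕜] {Z : X → X} (hZ : MeasurePreserving Z κ κ)
    (n : ℕ) (f : Lp 𝕜 2 κ) :
    (((⇑(koop 𝕜 hZ))^[n] f : Lp 𝕜 2 κ) : X → 𝕜) =ᵐ[κ] fun x => f (Z^[n] x) := by
  have h1 : (⇑(koop 𝕜 hZ))^[n] f = Lp.compMeasurePreserving Z^[n] (hZ.iterate n) f := by
    rw [← Lp.compMeasurePreserving_iterate]
    rfl
  rw [h1]
  exact Lp.coeFn_compMeasurePreserving f (hZ.iterate n)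

lemma koop_iter_toLp {𝕜 : Type*} [RCLike 𝕜] {Z : X → X} (hZ : MeasurePreserving Z κ κ)
    (n : ℕ) {f : X → 𝕜} (hf : MemLp f 2 κ) :
    (((⇑(koop 𝕜 hZ))^[n] (hf.toLp f) : Lp 𝕜 2 κ) : X → 𝕜) =ᵐ[κ] fun x => f (Z^[n] x) := by
  refine (koop_iter_ae hZ n _).trans ?_
  have h1 := hf.coeFn_toLp
  exact (hZ.iterate n).quasiMeasurePreserving.ae_eq_comp h1

lemma koop_sum_ae {𝕜 : Type*} [RCLike 𝕜] {Z : X → X} (hZ : MeasurePreserving Z κ κ)
    {f : X → 𝕜} (hf : MemLp f 2 κ) (N : ℕ) (c : ℕ → 𝕜) (t : ℕ → ℕ) (C : 𝕜) :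
    ((C • ∑ a ∈ range N, c a • (⇑(koop 𝕜 hZ))^[t a] (hf.toLp f) : Lp 𝕜 2 κ) : X → 𝕜)
      =ᵐ[κ] fun x => C * ∑ a ∈ range N, c a * f (Z^[t a] x) := by
  refine (Lp.coeFn_smul _ _).trans ?_
  have h1 := Lp.coeFn_fun_finsetSum (range N)
    (fun a => c a • (⇑(koop 𝕜 hZ))^[t a] (hf.toLp f))
  have h2 : ∀ a : ℕ, ((c a • (⇑(koop 𝕜 hZ))^[t a] (hf.toLp f) : Lp 𝕜 2 κ) : X → 𝕜)
      =ᵐ[κ] fun x => c a * f (Z^[t a] x) := by
    intro a
    refine (Lp.coeFn_smul _ _).trans ?_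
    filter_upwards [koop_iter_toLp hZ (t a) hf] with x hx
    simp only [Pi.smul_apply, smul_eq_mul, hx]
  have h3 : ∀ᵐ x ∂κ, ∀ a, ((c a • (⇑(koop 𝕜 hZ))^[t a] (hf.toLp f) : Lp 𝕜 2 κ) : X → 𝕜) x
      = c a * f (Z^[t a] x) := by
    rw [ae_all_iff]
    exact h2
  filter_upwards [h1, h3] with x hx1 hx3
  rw [Pi.smul_apply, hx1, smul_eq_mul]
  congr 1
  exact Finset.sum_congr rfl fun a _ => hx3 a

/-- the L1 norm is at most the L2 norm -/
lemma integral_norm_le_norm {𝕜 : Type*} [RCLike 𝕜] [IsProbabilityMeasure κ] (f : Lp 𝕜 2 κ) :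
    ∫ x, ‖f x‖ ∂κ ≤ ‖f‖ := by
  rw [Lp.norm_def, integral_norm_eq_lintegral_enorm (Lp.aestronglyMeasurable f),
    ← eLpNorm_one_eq_lintegral_enorm]
  refine ENNReal.toReal_mono (Lp.eLpNorm_ne_top f) ?_
  exact eLpNorm_le_eLpNorm_of_exponent_le (by norm_num) (Lp.aestronglyMeasurable f)

lemma memLp_of_bdd {𝕜 : Type*} [RCLike 𝕜] [IsFiniteMeasure κ] {f : X → 𝕜}
    (hf : Measurable f) (C : ℝ) (hC : ∀ x, ‖f x‖ ≤ C) : MemLp f 2 κ :=
  MemLp.of_bound hf.aestronglyMeasurable C (Eventually.of_forall hC)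

end bridge

section L1

variable {X : Type*} [MeasurableSpace X] {κ : Measure X} [IsProbabilityMeasure κ]

lemma abs_sub_clamp_le {a b x y : ℝ} (hax : a ≤ x) (hxb : x ≤ b) :
    |x - max a (min y b)| ≤ |x - y| := by
  rcases le_total y b with h1 | h1
  · rw [min_eq_left h1]
    rcases le_total a y with h2 | h2
    · rw [max_eq_right h2]
    · rw [max_eq_left h2, abs_of_nonneg (by linarith), abs_of_nonneg (by linarith)]
      linarith
  · rw [min_eq_right h1]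
    have hab : a ≤ b := hax.trans hxb
    rw [max_eq_right hab, abs_of_nonpos (by linarith), abs_of_nonpos (by linarith)]
    linarith

lemma avg_mem {a b : ℝ} {N : ℕ} (hN : 0 < N) {c : ℕ → ℝ} (ha : ∀ i, a ≤ c i)
    (hb : ∀ i, c i ≤ b) :
    a ≤ (N:ℝ)⁻¹ * ∑ i ∈ range N, c i ∧ (N:ℝ)⁻¹ * ∑ i ∈ range N, c i ≤ b := by
  have hN' : (0:ℝ) < N := by exact_mod_cast hN
  have h1 : ∑ _i ∈ range N, a ≤ ∑ i ∈ range N, c i := Finset.sum_le_sum fun i _ => ha i
  have h2 : ∑ i ∈ range N, c i ≤ ∑ _i ∈ range N, b := Finset.sum_le_sum fun i _ => hb i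
  rw [Finset.sum_const, card_range, nsmul_eq_mul] at h1 h2
  constructor
  · rw [inv_mul_eq_div, le_div_iff₀ hN']
    linarith
  · rw [inv_mul_eq_div, div_le_iff₀ hN']
    linarith

omit [IsProbabilityMeasure κ] in
lemma integral_abs_tri' {u v w : X → ℝ} (hu : Integrable u κ) (hv : Integrable v κ)
    (hw : Integrable w κ) :
    ∫ x, |v x - w x| ∂κ ≤ ∫ x, |u x - v x| ∂κ + ∫ x, |u x - w x| ∂κ := by
  have h1 : ∫ x, (|u x - v x| + |u x - w x|) ∂κ = ∫ x, |u x - v x| ∂κ + ∫ x, |u x - w x| ∂κ :=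
    integral_add (hu.sub hv).abs (hu.sub hw).abs
  rw [← h1]
  refine integral_mono (hv.sub hw).abs ((hu.sub hv).abs.add (hu.sub hw).abs) fun x => ?_
  show |v x - w x| ≤ |u x - v x| + |u x - w x|
  rw [abs_sub_comm (u x) (v x)]
  exact abs_sub_le _ _ _

omit [IsProbabilityMeasure κ] in
lemma integral_comp_mp {Z : X → X} (hZ : MeasurePreserving Z κ κ) {F : X → ℝ}
    (hF : Measurable F) : ∫ x, F (Z x) ∂κ = ∫ x, F x ∂κ := by
  conv_rhs => rw [← hZ.map_eq]
  rw [integral_map hZ.measurable.aemeasurable hF.aestronglyMeasurable]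

/-- the mean ergodic theorem in L1 for bounded functions, along windows -/
theorem mean_ergodic_L1 {Z : X → X} (hZ : MeasurePreserving Z κ κ) {F : X → ℝ}
    (hF : Measurable F) {a b : ℝ} (ha : ∀ x, a ≤ F x) (hb : ∀ x, F x ≤ b) :
    ∃ G : X → ℝ, Measurable G ∧ (∀ x, a ≤ G x) ∧ (∀ x, G x ≤ b) ∧ (G ∘ Z =ᵐ[κ] G) ∧
      (∫ x, F x ∂κ) ^ 2 ≤ ∫ x, F x * G x ∂κ ∧
      ∀ s : ℕ → ℕ, Tendsto (fun N : ℕ => ∫ x, |(N:ℝ)⁻¹ * ∑ i ∈ range N, F (Z^[s N + i] x)
        - G x| ∂κ) atTop (𝓝 0) := by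
  have hbd : ∀ x, ‖F x‖ ≤ max |a| |b| := fun x => by
    rw [Real.norm_eq_abs]
    exact abs_le_max_abs_abs (ha x) (hb x)
  have hmem : MemLp F 2 κ := memLp_of_bdd hF _ hbd
  obtain ⟨p, hp1, hp2, hp3⟩ := window_mean (koop ℝ hZ) (hmem.toLp F)
  have hpm : Measurable (p : X → ℝ) := (Lp.stronglyMeasurable p).measurable
  have hpint : Integrable (p : X → ℝ) κ := (Lp.memLp p).integrable (by norm_num)
  have hne : Nonempty X := by
    by_contra h
    rw [not_nonempty_iff] at h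
    have := measure_univ (μ := κ)
    rw [Set.univ_eq_empty_iff.mpr h] at this
    simp at this
  have hab : a ≤ b := (ha (Classical.choice hne)).trans (hb _)
  have hGm : Measurable (fun x => max a (min (p x) b)) :=
    measurable_const.max (hpm.min measurable_const)
  have hG1 : ∀ x, a ≤ max a (min (p x) b) := fun x => le_max_left _ _
  have hG2 : ∀ x, max a (min (p x) b) ≤ b := fun x => max_le hab (min_le_right _ _)
  have hGint : Integrable (fun x => max a (min (p x) b)) κ := by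
    refine Integrable.of_bound hGm.aestronglyMeasurable (max |a| |b|)
      (Eventually.of_forall fun x => ?_)
    rw [Real.norm_eq_abs]
    exact abs_le_max_abs_abs (hG1 x) (hG2 x)
  have havgm : ∀ (s : ℕ → ℕ) (N : ℕ),
      Measurable (fun x => (N:ℝ)⁻¹ * ∑ i ∈ range N, F (Z^[s N + i] x)) := by
    intro s N
    refine measurable_const.mul (Finset.measurable_sum _ fun i _ => ?_)
    exact hF.comp ((hZ.iterate _).measurable)
  have havgint : ∀ (s : ℕ → ℕ) (N : ℕ),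
      Integrable (fun x => (N:ℝ)⁻¹ * ∑ i ∈ range N, F (Z^[s N + i] x)) κ := by
    intro s N
    refine Integrable.const_mul (integrable_finsetSum _ fun i _ => ?_) _
    refine Integrable.of_bound (hF.comp ((hZ.iterate _).measurable)).aestronglyMeasurable
      (max |a| |b|) (Eventually.of_forall fun x => ?_)
    exact hbd _
  -- convergence to p in L1
  have hconv0 : ∀ s : ℕ → ℕ, Tendsto (fun N : ℕ => ∫ x, |(N:ℝ)⁻¹ * ∑ i ∈ range N,
      F (Z^[s N + i] x) - p x| ∂κ) atTop (𝓝 0) := by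
    intro s
    have h1 := hp3 s
    rw [tendsto_iff_norm_sub_tendsto_zero] at h1
    refine squeeze_zero (fun N => integral_nonneg fun x => abs_nonneg _) (fun N => ?_) h1
    refine le_trans (le_of_eq ?_) (integral_norm_le_norm _)
    refine integral_congr_ae ?_
    have h2 := koop_sum_ae hZ hmem N (fun _ => (1:ℝ)) (fun i => s N + i) ((N:ℝ)⁻¹)
    simp only [one_smul, one_mul] at h2
    filter_upwards [h2, Lp.coeFn_sub ((N:ℝ)⁻¹ • ∑ i ∈ range N,
      (⇑(koop ℝ hZ))^[s N + i] (hmem.toLp F)) p] with x hx1 hx2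
    rw [hx2, Pi.sub_apply, hx1, Real.norm_eq_abs]
  have hconv1 : ∀ s : ℕ → ℕ, Tendsto (fun N : ℕ => ∫ x, |(N:ℝ)⁻¹ * ∑ i ∈ range N,
      F (Z^[s N + i] x) - max a (min (p x) b)| ∂κ) atTop (𝓝 0) := by
    intro s
    refine squeeze_zero' (Eventually.of_forall fun N => integral_nonneg fun x => abs_nonneg _) ?_
      (hconv0 s)
    filter_upwards [eventually_gt_atTop 0] with N hN
    refine integral_mono ((havgint s N).sub hGint).abs ((havgint s N).sub hpint).abs fun x => ?_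
    have h1 := avg_mem hN (fun i => ha (Z^[s N + i] x)) (fun i => hb (Z^[s N + i] x))
    exact abs_sub_clamp_le h1.1 h1.2
  have hGp : (fun x => max a (min (p x) b)) =ᵐ[κ] (p : X → ℝ) := by
    have h1 : ∫ x, |max a (min (p x) b) - p x| ∂κ = 0 := by
      refine le_antisymm ?_ (integral_nonneg fun x => abs_nonneg _)
      have h2 := (hconv1 (fun _ => 0)).add (hconv0 (fun _ => 0))
      rw [add_zero] at h2
      refine ge_of_tendsto' h2 fun N => ?_
      exact integral_abs_tri' (havgint (fun _ => 0) N) hGint hpint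
    have h1' := (integral_eq_zero_iff_of_nonneg
      (f := fun x => |max a (min (p x) b) - p x|) (fun x => abs_nonneg _)
      (hGint.sub hpint).abs).mp h1
    filter_upwards [h1'] with x hx
    have hx' : |max a (min (p x) b) - p x| = 0 := hx
    rw [abs_eq_zero] at hx'
    linarith
  refine ⟨fun x => max a (min (p x) b), hGm, hG1, hG2, ?_, ?_, hconv1⟩
  · have h1 : (p : X → ℝ) ∘ Z =ᵐ[κ] p := by
      have h2 := Lp.coeFn_compMeasurePreserving p hZ
      have h3 : Lp.compMeasurePreserving Z hZ p = p := hp1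
      rw [h3] at h2
      exact h2.symm
    filter_upwards [h1] with x hx
    have hx' : p (Z x) = p x := hx
    show max a (min (p (Z x)) b) = max a (min (p x) b)
    rw [hx']
  · have h1 : ∫ x, F x * max a (min (p x) b) ∂κ = ⟪p, hmem.toLp F⟫_ℝ := by
      rw [L2.inner_def]
      refine integral_congr_ae ?_
      filter_upwards [hGp, hmem.coeFn_toLp] with x hx1 hx2
      rw [hx1, hx2]
      rfl
    have hone : MemLp (fun _ : X => (1:ℝ)) 2 κ := memLp_const 1
    have h1fix : koop ℝ hZ (hone.toLp _) = hone.toLp _ := by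
      show Lp.compMeasurePreserving Z hZ (hone.toLp _) = hone.toLp _
      rw [Lp.toLp_compMeasurePreserving]
      rfl
    have h2 : ∫ x, F x ∂κ = ⟪hone.toLp _, hmem.toLp F⟫_ℝ := by
      rw [L2.inner_def]
      refine integral_congr_ae ?_
      filter_upwards [hone.coeFn_toLp, hmem.coeFn_toLp] with x hx1 hx2
      rw [hx1, hx2]
      simp
    have h3 : ‖hone.toLp (fun _ : X => (1:ℝ))‖ ≤ 1 := by
      rw [Lp.norm_toLp]
      have : eLpNorm (fun _ : X => (1:ℝ)) 2 κ ≤ 1 := by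
        refine (eLpNorm_le_of_ae_bound (C := 1) (Eventually.of_forall fun x => by simp)).trans ?_
        simp
      exact ENNReal.toReal_mono (by simp) this |>.trans (by simp)
    rw [h1, h2, hp2 _ h1fix, hp2 _ hp1, real_inner_self_eq_norm_sq]
    have h4 : |⟪hone.toLp (fun _ : X => (1:ℝ)), p⟫_ℝ| ≤ ‖p‖ := by
      refine (abs_real_inner_le_norm _ _).trans ?_
      calc ‖hone.toLp (fun _ : X => (1:ℝ))‖ * ‖p‖ ≤ 1 * ‖p‖ := by gcongr
        _ = ‖p‖ := one_mul _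
    rw [← sq_abs]
    gcongr

/-- the ergodic case -/
theorem mean_ergodic_ergodic {Z : X → X} (hZ : Ergodic Z κ) {F : X → ℝ}
    (hF : Measurable F) {C : ℝ} (hC : ∀ x, |F x| ≤ C) (s : ℕ → ℕ) :
    Tendsto (fun N : ℕ => ∫ x, |(N:ℝ)⁻¹ * ∑ i ∈ range N, F (Z^[s N + i] x)
        - ∫ y, F y ∂κ| ∂κ) atTop (𝓝 0) := by
  obtain ⟨G, hGm, hG1, hG2, hGZ, -, hconv⟩ := mean_ergodic_L1 hZ.toMeasurePreserving hF
    (a := -C) (b := C) (fun x => (abs_le.mp (hC x)).1) (fun x => (abs_le.mp (hC x)).2)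
  obtain ⟨c, hc⟩ := hZ.ae_eq_const_of_ae_eq_comp_ae hGm.aestronglyMeasurable hGZ
  have hFint : ∀ n, Integrable (fun x => F (Z^[n] x)) κ := fun n =>
    Integrable.of_bound (hF.comp ((hZ.toMeasurePreserving.iterate n).measurable)).aestronglyMeasurable
      C (Eventually.of_forall fun x => hC _)
  have havg : ∀ N : ℕ, Integrable (fun x => (N:ℝ)⁻¹ * ∑ i ∈ range N, F (Z^[s N + i] x)) κ :=
    fun N => Integrable.const_mul (integrable_finsetSum _ fun i _ => hFint _) _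
  have hconv' := hconv s
  have h1 : ∀ N : ℕ, ∫ x, |(N:ℝ)⁻¹ * ∑ i ∈ range N, F (Z^[s N + i] x) - G x| ∂κ
      = ∫ x, |(N:ℝ)⁻¹ * ∑ i ∈ range N, F (Z^[s N + i] x) - c| ∂κ := by
    intro N
    refine integral_congr_ae ?_
    filter_upwards [hc] with x hx
    rw [hx]
    rfl
  simp_rw [h1] at hconv'
  have hc2 : c = ∫ y, F y ∂κ := by
    have h2 : ∀ n, ∫ x, F (Z^[n] x) ∂κ = ∫ y, F y ∂κ := fun n =>
      integral_comp_mp (hZ.toMeasurePreserving.iterate n) hF
    have h3 : ∀ N : ℕ, 0 < N → |∫ y, F y ∂κ - c| ≤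
        ∫ x, |(N:ℝ)⁻¹ * ∑ i ∈ range N, F (Z^[s N + i] x) - c| ∂κ := by
      intro N hN
      have hN' : (0:ℝ) < N := by exact_mod_cast hN
      have h4 : ∫ x, ((N:ℝ)⁻¹ * ∑ i ∈ range N, F (Z^[s N + i] x) - c) ∂κ
          = ∫ y, F y ∂κ - c := by
        rw [integral_sub (havg N) (integrable_const c), integral_const_mul,
          integral_finsetSum _ fun i _ => hFint _]
        simp_rw [h2]
        rw [Finset.sum_const, card_range, nsmul_eq_mul]
        simp
        field_simp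
      rw [← h4]
      exact abs_integral_le_integral_abs
    have h5 : |∫ y, F y ∂κ - c| ≤ 0 := by
      refine ge_of_tendsto hconv' ?_
      filter_upwards [eventually_gt_atTop 0] with N hN
      exact h3 N hN
    have h6 : ∫ y, F y ∂κ - c = 0 := abs_eq_zero.mp (le_antisymm h5 (abs_nonneg _))
    linarith
  rw [← hc2]
  exact hconv'

end L1

end Pool.NC3
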