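import Pool.Agent.NC3.Core

open MeasureTheory Filter Topology Finset
open scoped InnerProductSpace ENNReal

namespace Pool.NC3

variable {Ω : Type*} [MeasurableSpace Ω]

/-- core recurrence in terms of the restricted measure -/
theorem core_restrict {μ : Measure Ω} [IsProbabilityMeasure μ]
    {Y A : Set Ω} (hY : MeasurableSet Y) (hA : MeasurableSet A) (hμY : μ Y ≠ 0)
    {V P Q : Ω → Ω} (hV : Ergodic V (μ.restrict Y)) (hP : MeasurePreserving P μ μ)
    (hQ : MeasurePreserving Q μ μ) (p : ℕ) (hp : 0 < p) (I J : ℕ → ℕ)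
    (E : ℕ → ℕ → ℕ → ℕ) (hE : ∀ N i k j, j < N → E N (i + k) j = E N i j + p * k)
    (s : ℕ → ℕ → ℕ)
    (hs : ∀ N i (φ : ℕ → ℝ), ∑ j ∈ range N, φ (E N i j) = ∑ j ∈ range N, φ (s N i + j))
    (hrel : ∀ N i j, j < N → E N i j = (I N + i) + (J N + j) ∨
      E N i j + (J N + j) = 2 * (I N + i)) (ε : ℝ) (hε : 0 < ε) :
    ∃ N i j, i < N ∧ j < N ∧ (μ.real (A ∩ Y) / 4) ^ 4 - ε <
      μ.real {x | x ∈ A ∧ P^[I N + i] x ∈ A ∧ Q^[J N + j] x ∈ A ∧ V^[E N i j] x ∈ A} := by
  set y := μ.real Y with hy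
  have hy0 : 0 < y := by
    rw [hy, measureReal_def]
    exact ENNReal.toReal_pos hμY (measure_ne_top _ _)
  have hy1 : y ≤ 1 := measureReal_le_one
  set ν : Measure Ω := (μ Y)⁻¹ • μ.restrict Y with hν
  have hνp : IsProbabilityMeasure ν := by
    constructor
    rw [hν, Measure.smul_apply, Measure.restrict_apply_univ, smul_eq_mul]
    exact ENNReal.inv_mul_cancel hμY (measure_ne_top _ _)
  have hνint : ∀ f : Ω → ℝ, ∫ x, f x ∂ν = y⁻¹ * ∫ x in Y, f x ∂μ := by
    intro f
    rw [hν, integral_smul_measure, ENNReal.toReal_inv, smul_eq_mul]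
    rfl
  have hVν : Ergodic V ν := hV.smul_measure _
  obtain ⟨N, i, j, hi, hj, h⟩ := core hY hA hy0 hy1 hνint hVν hP hQ p hp I J E hE s hs hrel ε hε
  refine ⟨N, i, j, hi, hj, ?_⟩
  set D : Set Ω := {x | x ∈ A ∧ P^[I N + i] x ∈ A ∧ Q^[J N + j] x ∈ A ∧ V^[E N i j] x ∈ A} with hD
  have hVm : ∀ n, Measurable (V^[n]) := fun n => (hVν.toMeasurePreserving.iterate n).measurable
  have hPm : ∀ n, Measurable (P^[n]) := fun n => (hP.iterate n).measurable
  have hQm : ∀ n, Measurable (Q^[n]) := fun n => (hQ.iterate n).measurable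
  have hDm : MeasurableSet D :=
    hA.inter ((hPm _ hA).inter ((hQm _ hA).inter (hVm _ hA)))
  have h1 : ∫ x, A.indicator (fun _ => (1:ℝ)) x * A.indicator (fun _ => (1:ℝ)) (P^[I N + i] x) *
        A.indicator (fun _ => (1:ℝ)) (Q^[J N + j] x) *
        A.indicator (fun _ => (1:ℝ)) (V^[E N i j] x) ∂ν
      = ∫ x, D.indicator (fun _ => (1:ℝ)) x ∂ν := by
    refine integral_congr_ae (Eventually.of_forall fun x => ?_)
    simp only
    by_cases h1 : x ∈ A
    · by_cases h2 : P^[I N + i] x ∈ A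
      · by_cases h3 : Q^[J N + j] x ∈ A
        · by_cases h4 : V^[E N i j] x ∈ A
          · have : x ∈ D := ⟨h1, h2, h3, h4⟩
            simp [h1, h2, h3, h4, this]
          · have : x ∉ D := fun h => h4 h.2.2.2
            simp [h4, this]
        · have : x ∉ D := fun h => h3 h.2.2.1
          simp [h3, this]
      · have : x ∉ D := fun h => h2 h.2.1
        simp [h2, this]
    · have : x ∉ D := fun h => h1 h.1
      simp [h1, this]
  rw [h1, hνint, ← ind_mul_integral hY] at h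
  have h2 : ∫ x, Y.indicator (fun _ => (1:ℝ)) x * D.indicator (fun _ => (1:ℝ)) x ∂μ ≤
      μ.real D := by
    rw [← ind_integral (κ := μ) hDm]
    refine integral_mono ?_ (integrable_of_abs_le (ind_meas hDm) (ind_abs D)) fun x => ?_
    · refine integrable_of_abs_le (C := 1) ((ind_meas hY).mul (ind_meas hDm)) fun x => ?_
      rw [abs_mul]
      exact mul_le_one₀ (ind_abs _ _) (abs_nonneg _) (ind_abs _ _)
    · show Y.indicator (fun _ => (1:ℝ)) x * D.indicator (fun _ => (1:ℝ)) x ≤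
        D.indicator (fun _ => (1:ℝ)) x
      calc _ ≤ 1 * D.indicator (fun _ => (1:ℝ)) x :=
            mul_le_mul_of_nonneg_right (ind_le_one _ _) (ind_nonneg _ _)
        _ = _ := one_mul _
  have h3 : y⁻¹ * (μ.real (A ∩ Y) / 4) ^ 4 - ε < y⁻¹ * μ.real D :=
    lt_of_lt_of_le h (mul_le_mul_of_nonneg_left h2 (inv_nonneg.mpr hy0.le))
  have h4 : y * (y⁻¹ * (μ.real (A ∩ Y) / 4) ^ 4 - ε) < y * (y⁻¹ * μ.real D) :=
    mul_lt_mul_of_pos_left h3 hy0
  rw [mul_sub, ← mul_assoc, ← mul_assoc, mul_inv_cancel₀ hy0.ne', one_mul, one_mul] at h4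
  have h5 : y * ε ≤ ε := by
    calc y * ε ≤ 1 * ε := mul_le_mul_of_nonneg_right hy1 hε.le
      _ = ε := one_mul _
  linarith

/-- recurrence for three maps when one of them has an ergodic part meeting `A` -/
theorem recurrence {μ : Measure Ω} [IsProbabilityMeasure μ] {T S R : Ω → Ω}
    (hT : MeasurePreserving T μ μ) (hS : MeasurePreserving S μ μ) (hR : MeasurePreserving R μ μ)
    {A Y : Set Ω} (hA : MeasurableSet A) (hY : MeasurableSet Y)
    (herg : Ergodic T (μ.restrict Y) ∨ Ergodic S (μ.restrict Y) ∨ Ergodic R (μ.restrict Y))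
    (ε : ℝ) (hε : 0 < ε) :
    ∃ m n : ℕ, 1 ≤ m ∧ 1 ≤ n ∧ (μ.real (A ∩ Y) / 4) ^ 4 - ε <
      μ.real (A ∩ T^[m] ⁻¹' A ∩ S^[m + n] ⁻¹' A ∩ R^[m + 2 * n] ⁻¹' A) := by
  by_cases hμY : μ Y = 0
  · refine ⟨1, 1, le_rfl, le_rfl, ?_⟩
    have h1 : μ.real (A ∩ Y) = 0 := by
      rw [measureReal_def, measure_mono_null Set.inter_subset_right hμY]
      simp
    rw [h1]
    refine lt_of_lt_of_le ?_ measureReal_nonneg
    norm_num
    exact hε
  rcases herg with h | h | h
  · -- the map `T`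
    obtain ⟨N, i, j, hi, hj, hlt⟩ := core_restrict hY hA hμY h hS hR 2 two_pos
      (fun N => 4 * N + 1) (fun N => 6 * N + 1) (fun N i j => 2 * N + 1 + 2 * i - j)
      (fun N i k j hj => by omega) (fun N i => N + 2 + 2 * i)
      (fun N i φ => by
        rw [← Finset.sum_range_reflect]
        refine Finset.sum_congr rfl fun j hj => ?_
        have := Finset.mem_range.mp hj
        congr 1
        omega)
      (fun N i j hj => Or.inr (by omega)) ε hε
    refine ⟨2 * N + 1 + 2 * i - j, 2 * N + j - i, by omega, by omega, ?_⟩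
    refine lt_of_lt_of_le hlt (le_of_eq ?_)
    congr 1
    have e1 : 2 * N + 1 + 2 * i - j + (2 * N + j - i) = 4 * N + 1 + i := by omega
    have e2 : 2 * N + 1 + 2 * i - j + 2 * (2 * N + j - i) = 6 * N + 1 + j := by omega
    rw [e1, e2]
    ext x
    simp only [Set.mem_ofPred_eq, Set.mem_inter_iff, Set.mem_preimage]
    tauto
  · -- the map `S`
    have hT2 : MeasurePreserving (T^[2]) μ μ := hT.iterate 2
    have hR2 : MeasurePreserving (R^[2]) μ μ := hR.iterate 2
    obtain ⟨N, i, j, hi, hj, hlt⟩ := core_restrict hY hA hμY h hT2 hR2 1 one_pos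
      (fun _ => 1) (fun N => N + 1) (fun N i j => N + 2 + i + j)
      (fun N i k j hj => by omega) (fun N i => N + 2 + i)
      (fun N i φ => rfl)
      (fun N i j hj => Or.inl (by omega)) ε hε
    refine ⟨2 * (1 + i), N + j - i, by omega, by omega, ?_⟩
    refine lt_of_lt_of_le hlt (le_of_eq ?_)
    congr 1
    have e1 : 2 * (1 + i) + (N + j - i) = N + 2 + i + j := by omega
    have e2 : 2 * (1 + i) + 2 * (N + j - i) = 2 * (N + 1 + j) := by omega
    rw [e1, e2, ← Function.iterate_mul, ← Function.iterate_mul]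
    ext x
    simp only [Set.mem_ofPred_eq, Set.mem_inter_iff, Set.mem_preimage]
    tauto
  · -- the map `R`
    obtain ⟨N, i, j, hi, hj, hlt⟩ := core_restrict hY hA hμY h hS hT 2 two_pos
      (fun N => N + 1) (fun _ => 1) (fun N i j => 2 * N + 1 + 2 * i - j)
      (fun N i k j hj => by omega) (fun N i => N + 2 + 2 * i)
      (fun N i φ => by
        rw [← Finset.sum_range_reflect]
        refine Finset.sum_congr rfl fun j hj => ?_
        have := Finset.mem_range.mp hj
        congr 1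
        omega)
      (fun N i j hj => Or.inr (by omega)) ε hε
    refine ⟨1 + j, N + i - j, by omega, by omega, ?_⟩
    refine lt_of_lt_of_le hlt (le_of_eq ?_)
    congr 1
    have e1 : 1 + j + (N + i - j) = N + 1 + i := by omega
    have e2 : 1 + j + 2 * (N + i - j) = 2 * N + 1 + 2 * i - j := by omega
    rw [e1, e2]
    ext x
    simp only [Set.mem_ofPred_eq, Set.mem_inter_iff, Set.mem_preimage]
    tauto

end Pool.NC3
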