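import Pool.Agent.NC3.Decomp

open MeasureTheory Filter Topology Finset
open scoped InnerProductSpace ENNReal

namespace Pool.NC3

section ind

variable {X : Type*} [MeasurableSpace X]

lemma ind_meas {S : Set X} (hS : MeasurableSet S) : Measurable (S.indicator (fun _ => (1:ℝ))) :=
  measurable_const.indicator hS

omit [MeasurableSpace X] in
lemma ind_nonneg (S : Set X) (x : X) : 0 ≤ S.indicator (fun _ => (1:ℝ)) x :=
  Set.indicator_nonneg (fun _ _ => zero_le_one) x

omit [MeasurableSpace X] in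
lemma ind_le_one (S : Set X) (x : X) : S.indicator (fun _ => (1:ℝ)) x ≤ 1 :=
  Set.indicator_le_self' (fun _ _ => zero_le_one) x

omit [MeasurableSpace X] in
lemma ind_abs (S : Set X) (x : X) : |S.indicator (fun _ => (1:ℝ)) x| ≤ 1 :=
  abs_le.mpr ⟨by linarith [ind_nonneg S x], ind_le_one S x⟩

omit [MeasurableSpace X] in
lemma ind_mono {S T : Set X} (h : S ⊆ T) (x : X) :
    S.indicator (fun _ => (1:ℝ)) x ≤ T.indicator (fun _ => (1:ℝ)) x :=
  Set.indicator_le_indicator_of_subset h (fun _ => zero_le_one) x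

lemma ind_integral {κ : Measure X} {S : Set X} (hS : MeasurableSet S) :
    ∫ x, S.indicator (fun _ => (1:ℝ)) x ∂κ = κ.real S := by
  rw [integral_indicator_const _ hS]
  simp

lemma ind_mul_integral {κ : Measure X} {S : Set X} (hS : MeasurableSet S) (G : X → ℝ) :
    ∫ x, S.indicator (fun _ => (1:ℝ)) x * G x ∂κ = ∫ x in S, G x ∂κ := by
  rw [← integral_indicator hS]
  refine integral_congr_ae (Eventually.of_forall fun x => ?_)
  by_cases hx : x ∈ S <;> simp [hx]

end ind

section indicator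

variable {X : Type*} [MeasurableSpace X] {κ : Measure X} [IsProbabilityMeasure κ]

/-- mean ergodic theorem for an indicator, with the lower bound on subsets -/
theorem me_indicator {Z : X → X} (hZ : MeasurePreserving Z κ κ) {D : Set X}
    (hD : MeasurableSet D) :
    ∃ G : X → ℝ, Measurable G ∧ (∀ x, 0 ≤ G x) ∧ (∀ x, G x ≤ 1) ∧
      (∀ s : ℕ → ℕ, Tendsto (fun N : ℕ => ∫ x, |(N:ℝ)⁻¹ * ∑ i ∈ range N,
        D.indicator (fun _ => (1:ℝ)) (Z^[s N + i] x) - G x| ∂κ) atTop (𝓝 0)) ∧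
      ∀ D' : Set X, MeasurableSet D' → D' ⊆ D → κ.real D' ^ 2 ≤ ∫ x in D', G x ∂κ := by
  obtain ⟨G, hGm, hG0, hG1, -, -, hGc⟩ := mean_ergodic_L1 hZ (ind_meas hD) (ind_nonneg D)
    (ind_le_one D)
  refine ⟨G, hGm, hG0, hG1, hGc, fun D' hD' hsub => ?_⟩
  obtain ⟨G', hGm', hG0', hG1', -, hsq, hGc'⟩ := mean_ergodic_L1 hZ (ind_meas hD')
    (ind_nonneg D') (ind_le_one D')
  rw [ind_integral hD'] at hsq
  refine hsq.trans ?_
  rw [← ind_mul_integral hD']
  have hZm : ∀ n, Measurable (Z^[n]) := fun n => (hZ.iterate n).measurable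
  have hGi : Integrable G κ := integrable_of_abs_le hGm (C := 1) fun x =>
    abs_le.mpr ⟨by linarith [hG0 x], hG1 x⟩
  have hGi' : Integrable G' κ := integrable_of_abs_le hGm' (C := 1) fun x =>
    abs_le.mpr ⟨by linarith [hG0' x], hG1' x⟩
  have havg : ∀ (S : Set X), MeasurableSet S → ∀ N : ℕ, Integrable (fun x => (N:ℝ)⁻¹ *
      ∑ i ∈ range N, S.indicator (fun _ => (1:ℝ)) (Z^[0 + i] x)) κ := fun S hS N =>
    Integrable.const_mul (integrable_finsetSum _ fun i _ =>
      integrable_of_abs_le ((ind_meas hS).comp (hZm _)) fun x => ind_abs S _) _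
  have hlim := (hGc (fun _ => 0)).add (hGc' (fun _ => 0))
  rw [add_zero] at hlim
  have hkey : ∫ x, D'.indicator (fun _ => (1:ℝ)) x * G' x ∂κ
      - ∫ x, D'.indicator (fun _ => (1:ℝ)) x * G x ∂κ ≤ 0 := by
    refine ge_of_tendsto' hlim fun N => ?_
    have hI : ∀ {G : X → ℝ}, Measurable G → (∀ x, 0 ≤ G x) → (∀ x, G x ≤ 1) →
        Integrable (fun x => D'.indicator (fun _ => (1:ℝ)) x * G x) κ := by
      intro G hGm h0 h1
      refine integrable_of_abs_le (C := 1) ((ind_meas hD').mul hGm) fun x => ?_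
      rw [abs_mul]
      refine mul_le_one₀ (ind_abs _ _) (abs_nonneg _) (abs_le.mpr ⟨by linarith [h0 x], h1 x⟩)
    rw [← integral_sub (hI hGm' hG0' hG1') (hI hGm hG0 hG1)]
    have hsumint : ∫ x, (|(N:ℝ)⁻¹ * ∑ i ∈ range N, D.indicator (fun _ => (1:ℝ)) (Z^[0 + i] x)
        - G x| + |(N:ℝ)⁻¹ * ∑ i ∈ range N, D'.indicator (fun _ => (1:ℝ)) (Z^[0 + i] x)
        - G' x|) ∂κ = ∫ x, |(N:ℝ)⁻¹ * ∑ i ∈ range N, D.indicator (fun _ => (1:ℝ)) (Z^[0 + i] x)
        - G x| ∂κ + ∫ x, |(N:ℝ)⁻¹ * ∑ i ∈ range N, D'.indicator (fun _ => (1:ℝ)) (Z^[0 + i] x)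
        - G' x| ∂κ := integral_add ((havg D hD N).sub hGi).abs ((havg D' hD' N).sub hGi').abs
    rw [← hsumint]
    refine integral_mono ((hI hGm' hG0' hG1').sub (hI hGm hG0 hG1))
      (((havg D hD N).sub hGi).abs.add ((havg D' hD' N).sub hGi').abs) fun x => ?_
    show D'.indicator (fun _ => (1:ℝ)) x * G' x - D'.indicator (fun _ => (1:ℝ)) x * G x ≤
      |(N:ℝ)⁻¹ * ∑ i ∈ range N, D.indicator (fun _ => (1:ℝ)) (Z^[0 + i] x) - G x| +
      |(N:ℝ)⁻¹ * ∑ i ∈ range N, D'.indicator (fun _ => (1:ℝ)) (Z^[0 + i] x) - G' x|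
    have hm : (N:ℝ)⁻¹ * ∑ i ∈ range N, D'.indicator (fun _ => (1:ℝ)) (Z^[0 + i] x)
        ≤ (N:ℝ)⁻¹ * ∑ i ∈ range N, D.indicator (fun _ => (1:ℝ)) (Z^[0 + i] x) := by
      refine mul_le_mul_of_nonneg_left (Finset.sum_le_sum fun i _ => ind_mono hsub _) ?_
      positivity
    set a := (N:ℝ)⁻¹ * ∑ i ∈ range N, D.indicator (fun _ => (1:ℝ)) (Z^[0 + i] x)
    set b := (N:ℝ)⁻¹ * ∑ i ∈ range N, D'.indicator (fun _ => (1:ℝ)) (Z^[0 + i] x)
    have h1 := ind_nonneg D' x
    have h2 := ind_le_one D' x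
    set c := D'.indicator (fun _ => (1:ℝ)) x
    have h3 : G' x - G x ≤ |a - G x| + |b - G' x| := by
      have h4 := le_abs_self (a - G x)
      have h5 := neg_abs_le (b - G' x)
      linarith
    have h6 : 0 ≤ |a - G x| + |b - G' x| := by positivity
    calc c * G' x - c * G x = c * (G' x - G x) := by ring
      _ ≤ c * (|a - G x| + |b - G' x|) := mul_le_mul_of_nonneg_left h3 h1
      _ ≤ 1 * (|a - G x| + |b - G' x|) := mul_le_mul_of_nonneg_right h2 h6
      _ = _ := one_mul _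
  linarith

end indicator

section ret

variable {Ω Ω' : Type*} [MeasurableSpace Ω] [MeasurableSpace Ω'] {μ : Measure Ω}
  {ν : Measure Ω'} [IsProbabilityMeasure μ] [IsProbabilityMeasure ν]

/-- weighted returns: weights are the self-correlations of a set `B` under `V` -/
theorem weighted_returns {V : Ω' → Ω'} (hV : MeasurePreserving V ν ν) {P : Ω → Ω}
    (hP : MeasurePreserving P μ μ) {B : Set Ω'} (hB : MeasurableSet B) {A : Set Ω}
    (hA : MeasurableSet A) :
    ∃ G : Ω → ℝ, Measurable G ∧ (∀ x, 0 ≤ G x) ∧ (∀ x, G x ≤ 1) ∧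
      (∀ s : ℕ → ℕ, Tendsto (fun N : ℕ => ∫ x, |(N:ℝ)⁻¹ * ∑ i ∈ range N,
        ν.real (B ∩ V^[s N + i] ⁻¹' B) * A.indicator (fun _ => (1:ℝ)) (P^[s N + i] x)
          - G x| ∂μ) atTop (𝓝 0)) ∧
      ∀ B' : Set Ω, MeasurableSet B' → B' ⊆ A →
        ν.real B ^ 2 * μ.real B' ^ 2 ≤ ∫ x in B', G x ∂μ := by
  have hZ : MeasurePreserving (Prod.map V P) (ν.prod μ) (ν.prod μ) := hV.prod hP
  have hD : MeasurableSet (B ×ˢ A) := hB.prod hA
  obtain ⟨G, hGm, hG0, hG1, hGc, hGl⟩ := me_indicator hZ hD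
  have hVm : ∀ n, Measurable (V^[n]) := fun n => (hV.iterate n).measurable
  have hPm : ∀ n, Measurable (P^[n]) := fun n => (hP.iterate n).measurable
  have hiter : ∀ (n : ℕ) (z : Ω' × Ω), (Prod.map V P)^[n] z = (V^[n] z.1, P^[n] z.2) := by
    intro n z
    rw [Prod.map_iterate]
    rfl
  have hindD : ∀ (n : ℕ) (z : Ω' × Ω), (B ×ˢ A).indicator (fun _ => (1:ℝ))
      ((Prod.map V P)^[n] z) = B.indicator (fun _ => (1:ℝ)) (V^[n] z.1) *
        A.indicator (fun _ => (1:ℝ)) (P^[n] z.2) := by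
    intro n z
    rw [hiter]
    by_cases h1 : V^[n] z.1 ∈ B
    · by_cases h2 : P^[n] z.2 ∈ A
      · have : ((V^[n] z.1, P^[n] z.2) : Ω' × Ω) ∈ B ×ˢ A := ⟨h1, h2⟩
        simp [h1, h2]
      · have : ((V^[n] z.1, P^[n] z.2) : Ω' × Ω) ∉ B ×ˢ A := fun h => h2 h.2
        simp [h2]
    · have : ((V^[n] z.1, P^[n] z.2) : Ω' × Ω) ∉ B ×ˢ A := fun h => h1 h.1
      simp [h1]
  -- the limit function
  have hBG : Measurable (fun z : Ω' × Ω => B.indicator (fun _ => (1:ℝ)) z.1 * G z) :=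
    ((ind_meas hB).comp measurable_fst).mul hGm
  have hBGi : Integrable (fun z : Ω' × Ω => B.indicator (fun _ => (1:ℝ)) z.1 * G z)
      (ν.prod μ) := by
    refine integrable_of_abs_le (C := 1) hBG fun z => ?_
    rw [abs_mul]
    exact mul_le_one₀ (ind_abs _ _) (abs_nonneg _) (abs_le.mpr ⟨by linarith [hG0 z], hG1 z⟩)
  have hsec : ∀ x : Ω, Integrable (fun y => B.indicator (fun _ => (1:ℝ)) y * G (y, x)) ν := by
    intro x
    refine integrable_of_abs_le (C := 1) ((ind_meas hB).mul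
      (hGm.comp (measurable_id.prodMk measurable_const))) fun z => ?_
    rw [abs_mul]
    exact mul_le_one₀ (ind_abs _ _) (abs_nonneg _) (abs_le.mpr ⟨by linarith [hG0 (z, x)], hG1 _⟩)
  refine ⟨fun x => ∫ y, B.indicator (fun _ => (1:ℝ)) y * G (y, x) ∂ν, ?_, ?_, ?_, ?_, ?_⟩
  · have h1 : StronglyMeasurable (fun z : Ω' × Ω => B.indicator (fun _ => (1:ℝ)) z.1 * G z) :=
      hBG.stronglyMeasurable
    exact h1.integral_prod_left'.measurable
  · exact fun x => integral_nonneg fun y => mul_nonneg (ind_nonneg _ _) (hG0 _)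
  · intro x
    have h1 : ∫ y, B.indicator (fun _ => (1:ℝ)) y * G (y, x) ∂ν ≤ ∫ _y, (1:ℝ) ∂ν := by
      refine integral_mono (hsec x) (integrable_const 1) fun y => ?_
      exact mul_le_one₀ (ind_le_one _ _) (hG0 _) (hG1 _)
    simpa using h1
  · intro s
    refine squeeze_zero (fun N => integral_nonneg fun x => abs_nonneg _) (fun N => ?_) (hGc s)
    -- the product average
    have hFm : ∀ n, Measurable (fun z : Ω' × Ω => (B ×ˢ A).indicator (fun _ => (1:ℝ))
        ((Prod.map V P)^[n] z)) := fun n => (ind_meas hD).comp (hZ.iterate n).measurable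
    have havgm : Measurable (fun z : Ω' × Ω => (N:ℝ)⁻¹ * ∑ i ∈ range N,
        (B ×ˢ A).indicator (fun _ => (1:ℝ)) ((Prod.map V P)^[s N + i] z)) :=
      measurable_const.mul (Finset.measurable_sum _ fun i _ => hFm _)
    have havgi : Integrable (fun z : Ω' × Ω => (N:ℝ)⁻¹ * ∑ i ∈ range N,
        (B ×ˢ A).indicator (fun _ => (1:ℝ)) ((Prod.map V P)^[s N + i] z)) (ν.prod μ) :=
      Integrable.const_mul (integrable_finsetSum _ fun i _ =>
        integrable_of_abs_le (hFm _) fun x => ind_abs _ _) _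
    have hGi : Integrable G (ν.prod μ) := integrable_of_abs_le hGm (C := 1) fun x =>
      abs_le.mpr ⟨by linarith [hG0 x], hG1 x⟩
    have hdiff : Integrable (fun z : Ω' × Ω => |(N:ℝ)⁻¹ * ∑ i ∈ range N,
        (B ×ˢ A).indicator (fun _ => (1:ℝ)) ((Prod.map V P)^[s N + i] z) - G z|) (ν.prod μ) :=
      (havgi.sub hGi).abs
    rw [integral_prod_symm _ hdiff]
    have hsecd : ∀ x : Ω, Integrable (fun y => |(N:ℝ)⁻¹ * ∑ i ∈ range N,
        (B ×ˢ A).indicator (fun _ => (1:ℝ)) ((Prod.map V P)^[s N + i] (y, x)) - G (y, x)|) ν := by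
      intro x
      have hmx : Measurable (fun y : Ω' => (y, x)) := measurable_id.prodMk measurable_const
      refine Integrable.abs (Integrable.sub ?_ ?_)
      · refine Integrable.const_mul (integrable_finsetSum _ fun i _ => ?_) _
        exact integrable_of_abs_le ((hFm _).comp hmx) fun x => ind_abs _ _
      · exact integrable_of_abs_le (hGm.comp hmx) (C := 1) fun y =>
          abs_le.mpr ⟨by linarith [hG0 (y, x)], hG1 (y, x)⟩
    have hpt : ∀ x, |(N:ℝ)⁻¹ * ∑ i ∈ range N,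
        ν.real (B ∩ V^[s N + i] ⁻¹' B) * A.indicator (fun _ => (1:ℝ)) (P^[s N + i] x)
          - ∫ y, B.indicator (fun _ => (1:ℝ)) y * G (y, x) ∂ν|
        ≤ ∫ y, |(N:ℝ)⁻¹ * ∑ i ∈ range N, (B ×ˢ A).indicator (fun _ => (1:ℝ))
          ((Prod.map V P)^[s N + i] (y, x)) - G (y, x)| ∂ν := by
      intro x
      have e1 : ∀ n, ν.real (B ∩ V^[n] ⁻¹' B) = ∫ y, B.indicator (fun _ => (1:ℝ)) y *
          B.indicator (fun _ => (1:ℝ)) (V^[n] y) ∂ν := by
        intro n
        rw [← ind_integral (hB.inter (hVm n hB))]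
        refine integral_congr_ae (Eventually.of_forall fun y => ?_)
        by_cases hx : y ∈ B
        · by_cases hx2 : V^[n] y ∈ B
          · have : y ∈ B ∩ V^[n] ⁻¹' B := ⟨hx, hx2⟩
            simp [hx, hx2]
          · have : y ∉ B ∩ V^[n] ⁻¹' B := fun h => hx2 h.2
            simp [hx2]
        · have : y ∉ B ∩ V^[n] ⁻¹' B := fun h => hx h.1
          simp [hx]
      have hBV : ∀ n, Integrable (fun y => B.indicator (fun _ => (1:ℝ)) y *
          B.indicator (fun _ => (1:ℝ)) (V^[n] y)) ν := by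
        intro n
        refine integrable_of_abs_le (C := 1) ((ind_meas hB).mul ((ind_meas hB).comp (hVm n)))
          fun y => ?_
        rw [abs_mul]
        exact mul_le_one₀ (ind_abs _ _) (abs_nonneg _) (ind_abs _ _)
      have e2 : (N:ℝ)⁻¹ * ∑ i ∈ range N, ν.real (B ∩ V^[s N + i] ⁻¹' B) *
          A.indicator (fun _ => (1:ℝ)) (P^[s N + i] x)
          = ∫ y, B.indicator (fun _ => (1:ℝ)) y * ((N:ℝ)⁻¹ * ∑ i ∈ range N,
            (B ×ˢ A).indicator (fun _ => (1:ℝ)) ((Prod.map V P)^[s N + i] (y, x))) ∂ν := by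
        have e3 : ∀ y, B.indicator (fun _ => (1:ℝ)) y * ((N:ℝ)⁻¹ * ∑ i ∈ range N,
            (B ×ˢ A).indicator (fun _ => (1:ℝ)) ((Prod.map V P)^[s N + i] (y, x)))
            = (N:ℝ)⁻¹ * ∑ i ∈ range N, (B.indicator (fun _ => (1:ℝ)) y *
              B.indicator (fun _ => (1:ℝ)) (V^[s N + i] y)) *
              A.indicator (fun _ => (1:ℝ)) (P^[s N + i] x) := by
          intro y
          rw [mul_left_comm, Finset.mul_sum]
          congr 1
          refine Finset.sum_congr rfl fun i _ => ?_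
          rw [hindD, mul_assoc]
        simp_rw [e3]
        rw [integral_const_mul, integral_finsetSum _ fun i _ => (hBV _).mul_const _]
        congr 1
        refine Finset.sum_congr rfl fun i _ => ?_
        rw [integral_mul_const, e1]
      rw [e2]
      have hmx : Measurable (fun y : Ω' => (y, x)) := measurable_id.prodMk measurable_const
      have hI1 : Integrable (fun y => B.indicator (fun _ => (1:ℝ)) y * ((N:ℝ)⁻¹ *
          ∑ i ∈ range N, (B ×ˢ A).indicator (fun _ => (1:ℝ))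
            ((Prod.map V P)^[s N + i] (y, x)))) ν := by
        refine Integrable.bdd_mul (c := 1) ?_ (ind_meas hB).aestronglyMeasurable
          (Eventually.of_forall fun y => ?_)
        · refine Integrable.const_mul (integrable_finsetSum _ fun i _ => ?_) _
          exact integrable_of_abs_le ((hFm _).comp hmx) fun x => ind_abs _ _
        · rw [Real.norm_eq_abs]
          exact ind_abs _ _
      rw [← integral_sub hI1 (hsec x)]
      refine (abs_integral_le_integral_abs).trans (integral_mono (hI1.sub (hsec x)).abs (hsecd x)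
        fun y => ?_)
      show |B.indicator (fun _ => (1:ℝ)) y * ((N:ℝ)⁻¹ * ∑ i ∈ range N,
            (B ×ˢ A).indicator (fun _ => (1:ℝ)) ((Prod.map V P)^[s N + i] (y, x)))
            - B.indicator (fun _ => (1:ℝ)) y * G (y, x)| ≤ _
      rw [← mul_sub, abs_mul]
      exact (mul_le_mul_of_nonneg_right (ind_abs _ _) (abs_nonneg _)).trans (le_of_eq (one_mul _))
    refine integral_mono ?_ hdiff.integral_prod_right hpt
    refine Integrable.abs (Integrable.sub ?_ ?_)
    · refine Integrable.const_mul (integrable_finsetSum _ fun i _ => ?_) _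
      refine Integrable.const_mul ?_ _
      exact integrable_of_abs_le ((ind_meas hA).comp (hPm _)) fun x => ind_abs _ _
    · exact hBGi.integral_prod_right
  · intro B' hB' hsub
    have h1 := hGl (B ×ˢ B') (hB.prod hB') (Set.prod_mono subset_rfl hsub)
    have h2 : (ν.prod μ).real (B ×ˢ B') = ν.real B * μ.real B' := by
      rw [measureReal_def, Measure.prod_prod, ENNReal.toReal_mul]
      rfl
    rw [h2, mul_pow] at h1
    refine h1.trans (le_of_eq ?_)
    rw [← ind_mul_integral (hB.prod hB'), ← ind_mul_integral hB']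
    have hint : Integrable (fun z : Ω' × Ω => (B ×ˢ B').indicator (fun _ => (1:ℝ)) z * G z)
        (ν.prod μ) := by
      refine integrable_of_abs_le (C := 1) ((ind_meas (hB.prod hB')).mul hGm) fun z => ?_
      rw [abs_mul]
      exact mul_le_one₀ (ind_abs _ _) (abs_nonneg _) (abs_le.mpr ⟨by linarith [hG0 z], hG1 z⟩)
    rw [integral_prod_symm _ hint]
    refine integral_congr_ae (Eventually.of_forall fun x => ?_)
    simp only
    rw [← integral_const_mul]
    refine integral_congr_ae (Eventually.of_forall fun y => ?_)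
    simp only
    by_cases h3 : y ∈ B
    · by_cases h4 : x ∈ B'
      · have : (y, x) ∈ B ×ˢ B' := ⟨h3, h4⟩
        simp [h3, h4]
      · have : (y, x) ∉ B ×ˢ B' := fun h => h4 h.2
        simp [h4]
    · have : (y, x) ∉ B ×ˢ B' := fun h => h3 h.1
      simp [h3]

end ret

end Pool.NC3
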